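import Mathlib

/-!
# The `W₂`-lift of a ring with a Frobenius splitting

For a commutative ring `R` of characteristic `p` with a Frobenius splitting `σ` (an additive map
with `σ (a ^ p * b) = a * σ b` and `σ 1 = 1`), the quotient of the Witt vectors `𝕎 R` by the ideal
of all `(0, x₁, x₂, …)` with `σ x₁ = 0` is a flat lift of `R`.
-/

set_option autoImplicit false

namespace Pool.Agent.H14

open WittVector

universe u v

section CharZero

variable {p : ℕ} [hp : Fact p.Prime] {R : Type u} [CommRing R]

lemma charP_of_fact [hR : Fact ((p : R) = 0)] [Nontrivial R] : CharP R p :=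
  (CharP.charP_iff_prime_eq_zero hp.out).mpr hR.out

lemma frob_coeff [hR : Fact ((p : R) = 0)] (x : WittVector p R) (n : ℕ) :
    (WittVector.frobenius x).coeff n = x.coeff n ^ p := by
  rcases subsingleton_or_nontrivial R with h | h
  · exact Subsingleton.elim _ _
  · have := charP_of_fact (p := p) (R := R)
    exact WittVector.coeff_frobenius_charP p x n

lemma versch_frob [hR : Fact ((p : R) = 0)] (x : WittVector p R) :
    verschiebung (WittVector.frobenius x) = x * p := by
  rcases subsingleton_or_nontrivial R with h | h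
  · exact WittVector.ext fun n ↦ Subsingleton.elim _ _
  · have := charP_of_fact (p := p) (R := R)
    exact WittVector.verschiebung_frobenius x

end CharZero

section Splitting

variable (p : ℕ) (R : Type u) [CommRing R]

/-- A Frobenius splitting of a ring of characteristic `p`. -/
structure FrobSplit where
  /-- the underlying additive map -/
  toHom : R →+ R
  pow_mul' : ∀ a b : R, toHom (a ^ p * b) = a * toHom b
  one' : toHom 1 = 1

end Splitting

namespace FrobSplit

variable {p : ℕ} [hp : Fact p.Prime] {R : Type u} [CommRing R] [hR : Fact ((p : R) = 0)] (σ : FrobSplit p R)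

omit hp hR in
lemma pow' (a : R) : σ.toHom (a ^ p) = a := by
  have := σ.pow_mul' a 1
  rwa [mul_one, σ.one', mul_one] at this

/-- The ideal of `𝕎 R` of all `V y` with `σ y₀ = 0`. -/
noncomputable def ideal : Ideal (WittVector p R) where
  carrier := {x | ∃ y : WittVector p R, verschiebung y = x ∧ σ.toHom (y.coeff 0) = 0}
  add_mem' := by
    rintro _ _ ⟨y, rfl, hy⟩ ⟨z, rfl, hz⟩
    exact ⟨y + z, map_add _ _ _, by rw [WittVector.add_coeff_zero, map_add, hy, hz, add_zero]⟩
  zero_mem' := ⟨0, map_zero _, by rw [WittVector.zero_coeff, map_zero]⟩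
  smul_mem' := by
    rintro c _ ⟨y, rfl, hy⟩
    refine ⟨y * WittVector.frobenius c, ?_, ?_⟩
    · rw [WittVector.verschiebung_mul_frobenius, smul_eq_mul, mul_comm]
    · rw [WittVector.mul_coeff_zero, frob_coeff, mul_comm, σ.pow_mul', hy,
        mul_zero]

lemma mem_ideal {x : WittVector p R} :
    x ∈ σ.ideal ↔ ∃ y : WittVector p R, verschiebung y = x ∧ σ.toHom (y.coeff 0) = 0 := Iff.rfl

/-- The lifted ring. -/
abbrev Lift : Type u := WittVector p R ⧸ σ.ideal

/-- The reduction map from the lifted ring to `R`. -/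
noncomputable def red : σ.Lift →+* R :=
  Ideal.Quotient.lift σ.ideal WittVector.constantCoeff (by
    rintro _ ⟨y, rfl, -⟩
    exact WittVector.verschiebung_coeff_zero y)

lemma red_mk (x : WittVector p R) : σ.red (Ideal.Quotient.mk _ x) = x.coeff 0 := rfl

lemma red_surjective : Function.Surjective σ.red := by
  intro r
  exact ⟨Ideal.Quotient.mk _ (WittVector.teichmuller p r), WittVector.teichmuller_coeff_zero p r⟩

omit hR in
lemma coeff_zero_sub (x y : WittVector p R) : (x - y).coeff 0 = x.coeff 0 - y.coeff 0 :=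
  map_sub (WittVector.constantCoeff : WittVector p R →+* R) x y

omit hR in
lemma exists_verschiebung {x : WittVector p R} (hx : x.coeff 0 = 0) :
    ∃ y : WittVector p R, verschiebung y = x := by
  refine ⟨x.shift 1, ?_⟩
  have := WittVector.verschiebung_shift x 0 (by
    intro i hi
    obtain rfl : i = 0 := by omega
    exact hx)
  rw [show x.shift 0 = x from by ext i; simp [WittVector.shift_coeff]] at this
  exact this

lemma p_mul_eq_zero_iff (z : σ.Lift) : (p : σ.Lift) * z = 0 ↔ σ.red z = 0 := by
  obtain ⟨x, rfl⟩ := Ideal.Quotient.mk_surjective z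
  rw [red_mk, ← map_natCast (Ideal.Quotient.mk σ.ideal) p, ← map_mul, Ideal.Quotient.eq_zero_iff_mem,
    mul_comm, ← versch_frob]
  constructor
  · rintro ⟨y, hy, hy'⟩
    have h := WittVector.verschiebung_injective p R hy
    subst h
    rwa [frob_coeff, σ.pow'] at hy'
  · intro h
    refine ⟨_, rfl, ?_⟩
    rw [frob_coeff, σ.pow', h]

lemma exists_p_mul {z : σ.Lift} (hz : σ.red z = 0) : ∃ w : σ.Lift, z = (p : σ.Lift) * w := by
  obtain ⟨x, rfl⟩ := Ideal.Quotient.mk_surjective z
  rw [red_mk] at hz
  obtain ⟨y, rfl⟩ := exists_verschiebung hz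
  refine ⟨Ideal.Quotient.mk _ (WittVector.teichmuller p (σ.toHom (y.coeff 0))), ?_⟩
  rw [← map_natCast (Ideal.Quotient.mk σ.ideal) p, ← map_mul, Ideal.Quotient.mk_eq_mk_iff_sub_mem,
    mul_comm, ← versch_frob, ← map_sub]
  refine ⟨_, rfl, ?_⟩
  rw [coeff_zero_sub, frob_coeff, WittVector.teichmuller_coeff_zero,
    map_sub, σ.pow', sub_self]

lemma ker_red : RingHom.ker σ.red = Ideal.span {(p : σ.Lift)} := by
  ext z
  rw [RingHom.mem_ker, Ideal.mem_span_singleton']
  constructor
  · intro h
    obtain ⟨w, hw⟩ := σ.exists_p_mul h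
    exact ⟨w, by rw [hw, mul_comm]⟩
  · rintro ⟨w, rfl⟩
    rw [map_mul, map_natCast, hR.out, mul_zero]

lemma p_sq : ((p : σ.Lift)) * (p : σ.Lift) = 0 := by
  rw [p_mul_eq_zero_iff, map_natCast, hR.out]

end FrobSplit

section W2

variable (p : ℕ) [hp : Fact p.Prime] (k : Type u) [CommRing k]

/-- The residue map `W₂(k) → k`, `(x₀, x₁) ↦ x₀`. -/
noncomputable def w2Residue : TruncatedWittVector p 2 k →+* k where
  toFun x := x.coeff 0
  map_zero' := by
    rw [← map_zero (WittVector.truncate (p := p) (R := k) 2), WittVector.coeff_truncate]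
    exact WittVector.zero_coeff _ _ _
  map_one' := by
    rw [← map_one (WittVector.truncate (p := p) (R := k) 2), WittVector.coeff_truncate]
    exact WittVector.one_coeff_zero _ _
  map_add' x y := by
    obtain ⟨x, rfl⟩ := WittVector.truncate_surjective p 2 k x
    obtain ⟨y, rfl⟩ := WittVector.truncate_surjective p 2 k y
    rw [← map_add, WittVector.coeff_truncate, WittVector.coeff_truncate, WittVector.coeff_truncate]
    exact WittVector.add_coeff_zero _ _
  map_mul' x y := by
    obtain ⟨x, rfl⟩ := WittVector.truncate_surjective p 2 k x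
    obtain ⟨y, rfl⟩ := WittVector.truncate_surjective p 2 k y
    rw [← map_mul, WittVector.coeff_truncate, WittVector.coeff_truncate, WittVector.coeff_truncate]
    exact WittVector.mul_coeff_zero _ _

variable {p k}

lemma w2Residue_truncate (x : WittVector p k) :
    w2Residue p k (WittVector.truncate 2 x) = x.coeff 0 := WittVector.coeff_truncate _ _

end W2

section Flat

open TensorProduct

/-- A flatness criterion over a ring all of whose ideals are `0`, `(π)`, `(1)`. -/
lemma flat_of_ideals {A : Type u} [CommRing A] (π : A)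
    (hI : ∀ I : Ideal A, I = ⊥ ∨ I = Ideal.span {π} ∨ I = ⊤) (hπ : π * π = 0)
    (M : Type v) [AddCommGroup M] [Module A M] (hM : ∀ m : M, π • m = 0 → ∃ m' : M, m = π • m') :
    Module.Flat A M := by
  rw [Module.Flat.iff_lift_lsmul_comp_subtype_injective]
  intro I _
  rw [injective_iff_map_eq_zero]
  intro t ht
  rcases hI I with rfl | rfl | rfl
  · have : Subsingleton ((⊥ : Ideal A) ⊗[A] M) := by
      refine subsingleton_of_forall_eq 0 fun y ↦ ?_
      induction y with
      | zero => rfl
      | tmul x y => rw [Subsingleton.elim x 0, TensorProduct.zero_tmul]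
      | add x y hx hy => rw [hx, hy, add_zero]
    exact Subsingleton.elim _ _
  · have key : ∀ t : (Ideal.span {π} : Ideal A) ⊗[A] M, ∃ m : M,
        t = (⟨π, Ideal.mem_span_singleton_self π⟩ : (Ideal.span {π} : Ideal A)) ⊗ₜ[A] m := by
      intro t
      induction t with
      | zero => exact ⟨0, by rw [TensorProduct.tmul_zero]⟩
      | tmul x y =>
        obtain ⟨x, hx⟩ := x
        obtain ⟨a, rfl⟩ := Ideal.mem_span_singleton'.mp hx
        refine ⟨a • y, ?_⟩
        rw [← TensorProduct.smul_tmul]
        rfl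
      | add x y hx hy =>
        obtain ⟨a, rfl⟩ := hx
        obtain ⟨b, rfl⟩ := hy
        exact ⟨a + b, by rw [TensorProduct.tmul_add]⟩
    obtain ⟨m, rfl⟩ := key t
    rw [TensorProduct.lift.tmul] at ht
    obtain ⟨m', rfl⟩ := hM m ht
    have h0 : π • (⟨π, Ideal.mem_span_singleton_self π⟩ : (Ideal.span {π} : Ideal A)) = 0 :=
      Subtype.ext hπ
    rw [← TensorProduct.smul_tmul, h0, TensorProduct.zero_tmul]
  · have e : TensorProduct.lift ((LinearMap.lsmul A M).comp (⊤ : Ideal A).subtype) =
      (TensorProduct.lid A M).toLinearMap ∘ₗ (LinearMap.rTensor M (⊤ : Ideal A).subtype) := by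
      ext x m
      rfl
    rw [e] at ht
    have hinj : Function.Injective (LinearMap.rTensor M (⊤ : Ideal A).subtype) := by
      have : (⊤ : Ideal A).subtype = (Submodule.topEquiv : (⊤ : Ideal A) ≃ₗ[A] A).toLinearMap := rfl
      rw [this]
      exact (LinearEquiv.rTensor M (Submodule.topEquiv : (⊤ : Ideal A) ≃ₗ[A] A)).injective
    apply hinj
    rw [map_zero]
    exact (TensorProduct.lid A M).injective (by rw [map_zero]; exact ht)

end Flat

section IdealsW2

variable (p : ℕ) [hp : Fact p.Prime] (k : Type u) [Field k] [CharP k p] [PerfectRing k p]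

omit [CharP k p] [PerfectRing k p] in
lemma truncate_eq_zero_iff (x : WittVector p k) :
    WittVector.truncate 2 x = 0 ↔ x.coeff 0 = 0 ∧ x.coeff 1 = 0 := by
  rw [← RingHom.mem_ker, WittVector.mem_ker_truncate]
  constructor
  · intro h
    exact ⟨h 0 (by norm_num), h 1 (by norm_num)⟩
  · rintro ⟨h0, h1⟩ i hi
    interval_cases i
    · exact h0
    · exact h1

omit [PerfectRing k p] in
lemma isUnit_truncate {x : WittVector p k} (hx : x.coeff 0 ≠ 0) :
    IsUnit (WittVector.truncate (p := p) (R := k) 2 x) := by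
  exact (WittVector.isUnit_of_coeff_zero_ne_zero x hx).map _

lemma ideals_w2 (I : Ideal (TruncatedWittVector p 2 k)) :
    I = ⊥ ∨ I = Ideal.span {(p : TruncatedWittVector p 2 k)} ∨ I = ⊤ := by
  by_cases hbot : I = ⊥
  · exact Or.inl hbot
  by_cases htop : I = ⊤
  · exact Or.inr (Or.inr htop)
  right; left
  have h0 : ∀ y : WittVector p k, WittVector.truncate 2 y ∈ I → ∃ w : WittVector p k, y = p * w := by
    intro y hy
    have hy0 : y.coeff 0 = 0 := by
      by_contra h
      exact htop (Ideal.eq_top_of_isUnit_mem _ hy (isUnit_truncate p k h))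
    have := (WittVector.mem_span_p_iff_coeff_zero_eq_zero (p := p) y).mpr hy0
    obtain ⟨w, hw⟩ := Ideal.mem_span_singleton'.mp this
    exact ⟨w, by rw [← hw, mul_comm]⟩
  apply le_antisymm
  · intro x hx
    obtain ⟨y, rfl⟩ := WittVector.truncate_surjective p 2 k x
    obtain ⟨w, rfl⟩ := h0 y hx
    rw [map_mul, map_natCast]
    exact Ideal.mul_mem_right _ _ (Ideal.mem_span_singleton_self _)
  · rw [Ideal.span_singleton_le_iff_mem]
    obtain ⟨x, hx, hx0⟩ := Submodule.exists_mem_ne_zero_of_ne_bot hbot
    obtain ⟨y, rfl⟩ := WittVector.truncate_surjective p 2 k x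
    obtain ⟨w, rfl⟩ := h0 y hx
    have hw : w.coeff 0 ≠ 0 := by
      intro hw
      apply hx0
      rw [truncate_eq_zero_iff, mul_comm, ← WittVector.verschiebung_frobenius]
      refine ⟨WittVector.verschiebung_coeff_zero _, ?_⟩
      rw [show (1 : ℕ) = 0 + 1 from rfl, WittVector.verschiebung_coeff_succ,
        WittVector.coeff_frobenius_charP, hw, zero_pow hp.out.ne_zero]
    obtain ⟨u, hu⟩ := isUnit_truncate p k hw
    rw [map_mul, map_natCast, ← hu] at hx
    exact (Ideal.mul_unit_mem_iff_mem I u.isUnit).mp hx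

omit [PerfectRing k p] in
lemma p_sq_w2 : (p : TruncatedWittVector p 2 k) * p = 0 := by
  rw [← map_natCast (WittVector.truncate (p := p) (R := k) 2), ← map_mul, truncate_eq_zero_iff,
    ← WittVector.verschiebung_frobenius]
  refine ⟨WittVector.verschiebung_coeff_zero _, ?_⟩
  rw [show (1 : ℕ) = 0 + 1 from rfl, WittVector.verschiebung_coeff_succ,
    WittVector.coeff_frobenius_charP]
  have : (p : WittVector p k).coeff 0 = 0 := by
    have := WittVector.mul_charP_coeff_zero (p := p) (1 : WittVector p k)
    rwa [one_mul] at this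
  rw [this, zero_pow hp.out.ne_zero]

end IdealsW2

namespace FrobSplit

variable {p : ℕ} [hp : Fact p.Prime] {R : Type u} [CommRing R] [hR : Fact ((p : R) = 0)] (σ : FrobSplit p R)
variable {k : Type u} [Field k] (j : k →+* R)

/-- The structure map `W₂(k) → R̃`. -/
noncomputable def structHom : TruncatedWittVector p 2 k →+* σ.Lift :=
  (WittVector.truncate (p := p) (R := k) 2).liftOfRightInverse TruncatedWittVector.out
    TruncatedWittVector.truncateFun_out
    ⟨(Ideal.Quotient.mk σ.ideal).comp (WittVector.map j), by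
      intro x hx
      rw [WittVector.mem_ker_truncate] at hx
      rw [RingHom.mem_ker, RingHom.comp_apply, Ideal.Quotient.eq_zero_iff_mem]
      obtain ⟨y, rfl⟩ := exists_verschiebung (hx 0 (by norm_num))
      have h1 := hx 1 (by norm_num)
      rw [show (1 : ℕ) = 0 + 1 from rfl, WittVector.verschiebung_coeff_succ] at h1
      refine ⟨WittVector.map j y, ?_, ?_⟩
      · rw [WittVector.map_verschiebung]
      · rw [WittVector.map_coeff, h1, map_zero, map_zero]⟩

lemma structHom_truncate (x : WittVector p k) :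
    σ.structHom j (WittVector.truncate 2 x) = Ideal.Quotient.mk σ.ideal (WittVector.map j x) := by
  have := RingHom.liftOfRightInverse_comp_apply (WittVector.truncate (p := p) (R := k) 2)
    TruncatedWittVector.out TruncatedWittVector.truncateFun_out
    ⟨(Ideal.Quotient.mk σ.ideal).comp (WittVector.map j), by
      intro x hx
      rw [WittVector.mem_ker_truncate] at hx
      rw [RingHom.mem_ker, RingHom.comp_apply, Ideal.Quotient.eq_zero_iff_mem]
      obtain ⟨y, rfl⟩ := exists_verschiebung (hx 0 (by norm_num))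
      have h1 := hx 1 (by norm_num)
      rw [show (1 : ℕ) = 0 + 1 from rfl, WittVector.verschiebung_coeff_succ] at h1
      refine ⟨WittVector.map j y, ?_, ?_⟩
      · rw [WittVector.map_verschiebung]
      · rw [WittVector.map_coeff, h1, map_zero, map_zero]⟩ x
  exact this

lemma red_comp_structHom : (σ.red).comp (σ.structHom j) = j.comp (w2Residue p k) := by
  ext x
  obtain ⟨x, rfl⟩ := WittVector.truncate_surjective p 2 k x
  rw [RingHom.comp_apply, RingHom.comp_apply, structHom_truncate, w2Residue_truncate, red_mk,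
    WittVector.map_coeff]

lemma flat_structHom [CharP k p] [PerfectRing k p] : (σ.structHom j).Flat := by
  let := (σ.structHom j).toAlgebra
  refine flat_of_ideals (p : TruncatedWittVector p 2 k) (ideals_w2 p k) (p_sq_w2 p k) _ ?_
  intro m hm
  rw [Algebra.smul_def, map_natCast] at hm
  obtain ⟨w, hw⟩ := σ.exists_p_mul ((σ.p_mul_eq_zero_iff m).mp hm)
  exact ⟨w, by rw [Algebra.smul_def, map_natCast]; exact hw⟩

end FrobSplit

section Functoriality

variable {p : ℕ} [hp : Fact p.Prime]
variable {R S T : Type u} [CommRing R] [hR : Fact ((p : R) = 0)] [CommRing S]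
  [hS : Fact ((p : S) = 0)] [CommRing T] [hT : Fact ((p : T) = 0)]

/-- Compatibility of Frobenius splittings with a ring homomorphism. -/
def FrobSplit.Compat (σ : FrobSplit p R) (τ : FrobSplit p S) (f : R →+* S) : Prop :=
  ∀ x, τ.toHom (f x) = f (σ.toHom x)

variable {σ : FrobSplit p R} {τ : FrobSplit p S} {υ : FrobSplit p T} {f : R →+* S} {g : S →+* T}

/-- The map on lifts. -/
noncomputable def liftMap (h : σ.Compat τ f) : σ.Lift →+* τ.Lift :=
  Ideal.quotientMap τ.ideal (WittVector.map f) (by
    rintro _ ⟨y, rfl, hy⟩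
    refine ⟨WittVector.map f y, (WittVector.map_verschiebung f y).symm, ?_⟩
    rw [WittVector.map_coeff, h, hy, map_zero])

lemma liftMap_mk (h : σ.Compat τ f) (x : WittVector p R) :
    liftMap h (Ideal.Quotient.mk _ x) = Ideal.Quotient.mk _ (WittVector.map f x) := rfl

lemma liftMap_id (h : σ.Compat σ (RingHom.id R)) : liftMap h = RingHom.id _ := by
  refine RingHom.ext fun x ↦ ?_
  obtain ⟨x, rfl⟩ := Ideal.Quotient.mk_surjective x
  rw [liftMap_mk, RingHom.id_apply]
  congr 1

lemma liftMap_comp (h : σ.Compat τ f) (h' : τ.Compat υ g) (h'' : σ.Compat υ (g.comp f)) :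
    liftMap h'' = (liftMap h').comp (liftMap h) := by
  refine RingHom.ext fun x ↦ ?_
  obtain ⟨x, rfl⟩ := Ideal.Quotient.mk_surjective x
  rw [RingHom.comp_apply, liftMap_mk, liftMap_mk, liftMap_mk]
  congr 1

lemma red_comp_liftMap (h : σ.Compat τ f) : (τ.red).comp (liftMap h) = f.comp σ.red := by
  refine RingHom.ext fun x ↦ ?_
  obtain ⟨x, rfl⟩ := Ideal.Quotient.mk_surjective x
  rw [RingHom.comp_apply, liftMap_mk, RingHom.comp_apply, FrobSplit.red_mk, FrobSplit.red_mk,
    WittVector.map_coeff]

lemma red_liftMap (h : σ.Compat τ f) (x : σ.Lift) : τ.red (liftMap h x) = f (σ.red x) :=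
  RingHom.congr_fun (red_comp_liftMap h) x

lemma liftMap_comp_structHom {k : Type u} [Field k] (j : k →+* R) (h : σ.Compat τ f) :
    (liftMap h).comp (σ.structHom j) = τ.structHom (f.comp j) := by
  ext x
  obtain ⟨x, rfl⟩ := WittVector.truncate_surjective p 2 k x
  rw [RingHom.comp_apply, FrobSplit.structHom_truncate, FrobSplit.structHom_truncate, liftMap_mk]
  congr 1

lemma FrobSplit.isUnit_of_red {z : σ.Lift} (hz : IsUnit (σ.red z)) : IsUnit z := by
  obtain ⟨r, hr⟩ := hz.exists_right_inv
  obtain ⟨w, rfl⟩ := σ.red_surjective r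
  have h0 : σ.red (z * w - 1) = 0 := by rw [map_sub, map_mul, hr, map_one, sub_self]
  obtain ⟨v, hv⟩ := σ.exists_p_mul h0
  refine IsUnit.of_mul_eq_one (w * (1 - p * v)) ?_
  have h1 : z * w = 1 + p * v := by rw [← hv]; ring
  have h2 := σ.p_sq
  calc z * (w * (1 - p * v)) = (z * w) * (1 - p * v) := by ring
    _ = (1 + p * v) * (1 - p * v) := by rw [h1]
    _ = 1 - ((p : σ.Lift) * p) * (v * v) := by ring
    _ = 1 := by rw [h2, zero_mul, sub_zero]

theorem isLocalization_liftMap (h : σ.Compat τ f) (r : R)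
    (hloc : letI := f.toAlgebra; IsLocalization.Away r S) (z : σ.Lift) (hz : σ.red z = r) :
    letI := (liftMap h).toAlgebra; IsLocalization.Away z τ.Lift := by
  let := f.toAlgebra
  let := (liftMap h).toAlgebra
  have hf : algebraMap R S = f := rfl
  have hL : algebraMap σ.Lift τ.Lift = liftMap h := rfl
  have hr : IsUnit (f r) := by
    rw [← hf]
    exact IsLocalization.Away.algebraMap_isUnit r
  refine ⟨?_, ?_, ?_⟩
  · rintro ⟨_, n, rfl⟩
    rw [hL]
    apply FrobSplit.isUnit_of_red
    rw [red_liftMap, map_pow, hz, map_pow]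
    exact hr.pow n
  · have key : ∀ w : τ.Lift, ∃ (a : σ.Lift) (n : ℕ) (v : τ.Lift),
        w * liftMap h (z ^ n) = liftMap h a + p * v := by
      intro w
      obtain ⟨⟨a, ⟨_, n, rfl⟩⟩, ha⟩ := IsLocalization.surj (Submonoid.powers r) (τ.red w)
      obtain ⟨a, rfl⟩ := σ.red_surjective a
      have : τ.red (w * liftMap h (z ^ n) - liftMap h a) = 0 := by
        rw [map_sub, map_mul, red_liftMap, red_liftMap, map_pow, hz, sub_eq_zero]
        exact ha
      obtain ⟨v, hv⟩ := τ.exists_p_mul this
      exact ⟨a, n, v, by rw [← hv]; ring⟩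
    intro w
    obtain ⟨a, n, v, h1⟩ := key w
    obtain ⟨b, m, u, h2⟩ := key v
    refine ⟨⟨a * z ^ m + p * b, ⟨z ^ (n + m), n + m, rfl⟩⟩, ?_⟩
    rw [hL]
    change w * liftMap h (z ^ (n + m)) = _
    have hp2 := τ.p_sq
    calc w * liftMap h (z ^ (n + m)) = (w * liftMap h (z ^ n)) * liftMap h (z ^ m) := by
          rw [pow_add, map_mul]; ring
      _ = liftMap h a * liftMap h (z ^ m) + p * (v * liftMap h (z ^ m)) := by rw [h1]; ring
      _ = liftMap h a * liftMap h (z ^ m) + p * (liftMap h b) + ((p : τ.Lift) * p) * u := by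
          rw [h2]; ring
      _ = liftMap h (a * z ^ m + p * b) := by
          rw [hp2, zero_mul, add_zero, map_add, map_mul, map_mul, map_natCast]
  · intro a b hab
    have key : ∀ c : σ.Lift, τ.red (liftMap h c) = 0 → ∃ (n : ℕ) (v : σ.Lift),
        z ^ n * c = p * v := by
      intro c hc
      rw [red_liftMap, ← hf, ← map_zero (algebraMap R S)] at hc
      obtain ⟨⟨_, n, rfl⟩, hn⟩ := IsLocalization.exists_of_eq (M := Submonoid.powers r) hc
      have : σ.red (z ^ n * c) = 0 := by
        rw [map_mul, map_pow, hz]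
        simpa using hn
      obtain ⟨v, hv⟩ := σ.exists_p_mul this
      exact ⟨n, v, hv⟩
    have hab' : liftMap h (a - b) = 0 := by
      rw [hL] at hab
      rw [map_sub, hab, sub_self]
    obtain ⟨n, v, hv⟩ := key (a - b) (by rw [hab', map_zero])
    have hv' : τ.red (liftMap h v) = 0 := by
      rw [← FrobSplit.p_mul_eq_zero_iff, ← map_natCast (liftMap h) p, ← map_mul, ← hv, map_mul,
        hab', mul_zero]
    obtain ⟨m, u, hu⟩ := key v hv'
    refine ⟨⟨z ^ (m + n), m + n, rfl⟩, ?_⟩
    rw [← sub_eq_zero]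
    change z ^ (m + n) * a - z ^ (m + n) * b = 0
    have hp2 := σ.p_sq
    calc z ^ (m + n) * a - z ^ (m + n) * b = z ^ m * (z ^ n * (a - b)) := by ring
      _ = p * (z ^ m * v) := by rw [hv]; ring
      _ = ((p : σ.Lift) * p) * u := by rw [hu]; ring
      _ = 0 := by rw [hp2, zero_mul]

end Functoriality

end Pool.Agent.H14
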