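import Pool.Agent.H14.Coord
import Pool.Agent.H14.W2Lift

/-!
# The toric Frobenius splitting of a purely transcendental field extension
-/

set_option autoImplicit false

namespace Pool.Agent.H14

open Module MvPolynomial

section Poly

variable (p : ℕ) {n : ℕ}

/-- The exponent `m / p`. -/
noncomputable def divp (m : Fin n →₀ ℕ) : Fin n →₀ ℕ := m.mapRange (· / p) (Nat.zero_div p)

lemma divp_apply (m : Fin n →₀ ℕ) (i : Fin n) : divp p m i = m i / p := rfl

lemma divp_zero : divp p (0 : Fin n →₀ ℕ) = 0 := by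
  ext i; simp [divp_apply]

variable {p} in
lemma smul_divp {m : Fin n →₀ ℕ} (hm : ∀ i, p ∣ m i) : p • divp p m = m := by
  ext i
  simp only [divp_apply, Finsupp.smul_apply, smul_eq_mul]
  exact Nat.mul_div_cancel' (hm i)

lemma divp_smul_add [hp : Fact p.Prime] (u m : Fin n →₀ ℕ) :
    divp p (p • u + m) = u + divp p m := by
  ext i
  simp only [divp_apply, Finsupp.add_apply, Finsupp.smul_apply, smul_eq_mul]
  rw [Nat.mul_add_div hp.out.pos]

variable [hp : Fact p.Prime] {k : Type*} [Field k] [CharP k p] [PerfectRing k p]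

variable (k n) in
/-- `∑ cₘ x^m ↦ ∑ (c_{pm})^{1/p} x^m`. -/
noncomputable def phi0 : MvPolynomial (Fin n) k →+ MvPolynomial (Fin n) k :=
  (Finsupp.liftAddHom fun m ↦
    open Classical in
    if ∀ i, p ∣ m i then
      ((monomial (divp p m)).toAddMonoidHom.comp (frobeniusEquiv k p).symm.toAddMonoidHom) else 0).comp
    (AddMonoidAlgebra.coeffAddEquiv : MvPolynomial (Fin n) k ≃+ _).toAddMonoidHom

lemma phi0_monomial_of_dvd {m : Fin n →₀ ℕ} (hm : ∀ i, p ∣ m i) (c : k) :
    phi0 p n k (monomial m c) = monomial (divp p m) ((frobeniusEquiv k p).symm c) := by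
  have : (AddMonoidAlgebra.coeffAddEquiv : MvPolynomial (Fin n) k ≃+ _) (monomial m c) =
    Finsupp.single m c := rfl
  rw [phi0, AddMonoidHom.comp_apply]
  change Finsupp.liftAddHom _ ((AddMonoidAlgebra.coeffAddEquiv : MvPolynomial (Fin n) k ≃+ _)
    (monomial m c)) = _
  rw [this, Finsupp.liftAddHom_apply_single, if_pos hm]
  rfl

lemma phi0_monomial_of_not {m : Fin n →₀ ℕ} (hm : ¬ ∀ i, p ∣ m i) (c : k) :
    phi0 p n k (monomial m c) = 0 := by
  have : (AddMonoidAlgebra.coeffAddEquiv : MvPolynomial (Fin n) k ≃+ _) (monomial m c) =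
    Finsupp.single m c := rfl
  rw [phi0, AddMonoidHom.comp_apply]
  change Finsupp.liftAddHom _ ((AddMonoidAlgebra.coeffAddEquiv : MvPolynomial (Fin n) k ≃+ _)
    (monomial m c)) = _
  rw [this, Finsupp.liftAddHom_apply_single, if_neg hm]
  rfl

lemma phi0_pow_mul (a b : MvPolynomial (Fin n) k) :
    phi0 p n k (a ^ p * b) = a * phi0 p n k b := by
  induction b using MvPolynomial.induction_on' with
  | add b₁ b₂ h₁ h₂ => rw [mul_add, map_add, h₁, h₂, map_add, mul_add]
  | monomial m c =>
    induction a using MvPolynomial.induction_on' with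
    | add a₁ a₂ h₁ h₂ => rw [add_pow_char, add_mul, map_add, h₁, h₂, add_mul]
    | monomial u d =>
      rw [monomial_pow, monomial_mul]
      by_cases hm : ∀ i, p ∣ m i
      · rw [phi0_monomial_of_dvd p hm, phi0_monomial_of_dvd p, monomial_mul, map_mul,
          frobeniusEquiv_symm_pow]
        · rw [divp_smul_add]
        · intro i
          simp only [Finsupp.add_apply, Finsupp.smul_apply, smul_eq_mul]
          exact (Nat.dvd_add_right (dvd_mul_right p _)).mpr (hm i)
      · rw [phi0_monomial_of_not p hm, phi0_monomial_of_not p, mul_zero]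
        intro h
        refine hm fun i ↦ ?_
        have := h i
        simp only [Finsupp.add_apply, Finsupp.smul_apply, smul_eq_mul] at this
        exact (Nat.dvd_add_right (dvd_mul_right p _)).mp this

lemma phi0_one : phi0 p n k 1 = 1 := by
  rw [← C_1, C_apply, phi0_monomial_of_dvd p (fun i ↦ by simp), divp_zero, map_one]

/-- A polynomial all of whose exponents are divisible by `p` is a `p`-th power. -/
lemma phi0_pow (f : MvPolynomial (Fin n) k) (hf : ∀ m ∈ f.support, ∀ i, p ∣ m i) :
    phi0 p n k f ^ p = f := by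
  conv_rhs => rw [f.as_sum]
  conv_lhs => rw [f.as_sum]
  rw [map_sum, sum_pow_char]
  refine Finset.sum_congr rfl fun m hm ↦ ?_
  rw [phi0_monomial_of_dvd p (hf m hm), monomial_pow, frobeniusEquiv_symm_pow_p,
    smul_divp (hf m hm)]

end Poly

section Frac

variable {p : ℕ} [hp : Fact p.Prime] {k K : Type*} [Field k] [Field K] [Algebra k K] {n : ℕ}
  {x : Fin n → K}

lemma pow_eq_pow_sub_one_mul (p : ℕ) [hp : Fact p.Prime] {R : Type*} [CommRing R] (b : R) : b ^ p = b ^ (p - 1) * b := by
  rw [← pow_succ, Nat.sub_add_cancel hp.out.one_le]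

variable [CharP k p] [PerfectRing k p]

namespace IsCoord

variable (p) in
/-- The toric Frobenius splitting of `K = k(x₁, …, xₙ)`, as a function. -/
noncomputable def phiFun (hx : IsCoord k x) (g : K) : K :=
  aeval x (phi0 p n k ((hx.surj g).choose * (hx.surj g).choose_spec.choose ^ (p - 1))) /
    aeval x (hx.surj g).choose_spec.choose

variable (hx : IsCoord k x)

lemma phiFun_div (a b : MvPolynomial (Fin n) k) (hb : b ≠ 0) :
    hx.phiFun p (aeval x a / aeval x b) = aeval x (phi0 p n k (a * b ^ (p - 1))) / aeval x b := by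
  have hs := (hx.surj (aeval x a / aeval x b)).choose_spec.choose_spec
  rw [phiFun]
  generalize (hx.surj (aeval x a / aeval x b)).choose_spec.choose = b' at hs ⊢
  generalize (hx.surj (aeval x a / aeval x b)).choose = a' at hs ⊢
  obtain ⟨hb', h⟩ := hs
  have h1 := hx.aeval_ne_zero hb
  have h2 := hx.aeval_ne_zero hb'
  rw [div_eq_div_iff h1 h2, ← map_mul, ← map_mul] at h
  have h3 := hx.inj h
  rw [div_eq_div_iff h2 h1, ← map_mul, ← map_mul]
  congr 1
  rw [mul_comm _ b, ← phi0_pow_mul, mul_comm _ b', ← phi0_pow_mul]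
  congr 1
  rw [pow_eq_pow_sub_one_mul p b, pow_eq_pow_sub_one_mul p b']
  linear_combination (b ^ (p - 1) * b' ^ (p - 1)) * (-h3)

variable (p) in
/-- The toric Frobenius splitting of `K = k(x₁, …, xₙ)`. -/
noncomputable def phi : FrobSplit p K where
  toHom :=
    { toFun := hx.phiFun p
      map_zero' := by
        have := hx.phiFun_div (p := p) 0 1 one_ne_zero
        simpa using this
      map_add' := by
        intro g h
        obtain ⟨a, b, hb, rfl⟩ := hx.surj g
        obtain ⟨c, d, hd, rfl⟩ := hx.surj h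
        have h1 := hx.aeval_ne_zero hb
        have h2 := hx.aeval_ne_zero hd
        rw [div_add_div _ _ h1 h2, ← map_mul, ← map_mul, ← map_mul, ← map_add,
          phiFun_div _ _ _ (mul_ne_zero hb hd), phiFun_div _ _ _ hb, phiFun_div _ _ _ hd,
          div_add_div _ _ h1 h2, map_mul (aeval x) b d]
        congr 1
        rw [← map_mul, ← map_mul, ← map_add]
        congr 1
        rw [mul_comm (phi0 p n k _) d, ← phi0_pow_mul, ← phi0_pow_mul, ← map_add]
        congr 1
        rw [pow_eq_pow_sub_one_mul p b, pow_eq_pow_sub_one_mul p d]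
        ring }
  pow_mul' := by
    intro g h
    change hx.phiFun p _ = g * hx.phiFun p h
    obtain ⟨a, b, hb, rfl⟩ := hx.surj g
    obtain ⟨c, d, hd, rfl⟩ := hx.surj h
    have h1 := hx.aeval_ne_zero hb
    have h2 := hx.aeval_ne_zero hd
    have h3 : (aeval x a / aeval x b) ^ p * (aeval x c / aeval x d) =
       aeval x (a ^ p * c) / aeval x (b ^ p * d) := by
      simp only [map_mul, map_pow]
      rw [div_pow, div_mul_div_comm]
    rw [h3, phiFun_div _ _ _ (mul_ne_zero (pow_ne_zero _ hb) hd), phiFun_div _ _ _ hd,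
      div_mul_div_comm, ← map_mul, ← map_mul, div_eq_div_iff
        (hx.aeval_ne_zero (mul_ne_zero (pow_ne_zero _ hb) hd)) (hx.aeval_ne_zero (mul_ne_zero hb hd)),
      ← map_mul, ← map_mul]
    congr 1
    have h4 : a ^ p * c * (b ^ p * d) ^ (p - 1) = (a * b ^ (p - 1)) ^ p * (c * d ^ (p - 1)) := by
      ring
    rw [h4, phi0_pow_mul, pow_eq_pow_sub_one_mul p b]
    ring
  one' := by
    change hx.phiFun p 1 = 1
    have := hx.phiFun_div (p := p) 1 1 one_ne_zero
    simpa [phi0_one] using this

lemma phi_aeval (f : MvPolynomial (Fin n) k) :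
    (hx.phi p).toHom (aeval x f) = aeval x (phi0 p n k f) := by
  change hx.phiFun p _ = _
  have := hx.phiFun_div (p := p) f 1 one_ne_zero
  simpa using this

end IsCoord

end Frac

end Pool.Agent.H14
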