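import Pool.Agent.H14.Cartier

/-!
# The Cartier operator on top forms: exact forms
-/


set_option autoImplicit false

namespace Pool.Agent.H14

open Module MvPolynomial KaehlerDifferential

section Forms

variable {k K : Type*} [Field k] [Field K] [Algebra k K] {n : ℕ}
  {x : Fin n → K}

lemma D_aeval (x : Fin n → K) (f : MvPolynomial (Fin n) k) :
    D k K (aeval x f) = ∑ j, aeval x (pderiv j f) • D k K (x j) := by
  induction f using MvPolynomial.induction_on with
  | C c => simp
  | add f g hf hg => simp only [map_add, hf, hg, add_smul, Finset.sum_add_distrib]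
  | mul_X f i hf =>
    simp only [map_mul, Derivation.leibniz, hf, aeval_X, pderiv_X, map_add, smul_eq_mul, add_smul,
      Finset.sum_add_distrib, Finset.smul_sum, mul_smul]
    congr 1
    rw [Finset.sum_eq_single i]
    · simp
    · intro j _ hj
      simp [Pi.single_eq_of_ne hj.symm]
    · simp

namespace IsCoord

variable (hx : IsCoord k x)

lemma repr_D_aeval (f : MvPolynomial (Fin n) k) (j : Fin n) :
    hx.logBasis.repr (D k K (aeval x f)) j = aeval x (X j * pderiv j f) := by
  rw [D_aeval]
  simp only [hx.D_eq_smul_logBasis, map_sum, map_smul, Basis.repr_self, Finsupp.coe_finsetSum,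
    Finset.sum_apply, Finsupp.smul_apply, smul_eq_mul]
  rw [Finset.sum_eq_single j]
  · simp [mul_comm]
  · intro i _ hi
    rw [Finsupp.single_eq_of_ne hi.symm]; simp
  · simp

lemma X_mul_pderiv_monomial (m : Fin n →₀ ℕ) (c : k) (j : Fin n) :
    X j * pderiv j (monomial m c) = (m j : MvPolynomial (Fin n) k) * monomial m c := by
  rw [pderiv_monomial, X, monomial_mul, one_mul]
  rcases Nat.eq_zero_or_pos (m j) with h | h
  · simp [h]
  · have h1 : Finsupp.single j 1 + (m - Finsupp.single j 1) = m := by
      rw [add_comm]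
      exact tsub_add_cancel_of_le (by simpa [Nat.succ_le_iff] using h)
    rw [h1, ← map_natCast (C : k →+* MvPolynomial (Fin n) k), C_mul_monomial, mul_comm c]

/-- The jacobian of a tuple of monomials. -/
lemma jac_monomial (M : Fin n → (Fin n →₀ ℕ)) (c : Fin n → k) :
    hx.jac (fun i ↦ aeval x (monomial (M i) (c i))) =
      aeval x (monomial (∑ i, M i)
        ((∏ i, c i) * (Matrix.of fun i j ↦ ((M i j : ℕ) : k)).det)) := by
  rw [jac, Basis.det_apply]
  have h1 : hx.logBasis.toMatrix (fun i ↦ D k K (aeval x (monomial (M i) (c i)))) =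
      (Matrix.of fun j i ↦ aeval x (monomial (M i) (c i)) *
        (((Matrix.of fun i j ↦ ((M i j : ℕ) : k)).map (algebraMap k K)).transpose) j i) := by
    ext j i
    rw [Basis.toMatrix_apply, repr_D_aeval, X_mul_pderiv_monomial]
    simp [mul_comm]
  rw [h1]
  have h2 := Matrix.det_mul_row (fun i ↦ aeval x (monomial (M i) (c i)))
    (((Matrix.of fun i j ↦ ((M i j : ℕ) : k)).map (algebraMap k K)).transpose)
  rw [h2, Matrix.det_transpose, ← RingHom.mapMatrix_apply, ← RingHom.map_det, mul_comm (∏ i, c i),
    ← C_mul_monomial, map_mul, ← MvPolynomial.algebraMap_eq, AlgHom.commutes, mul_comm]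
  congr 1
  rw [← map_prod]
  congr 1
  induction (Finset.univ : Finset (Fin n)) using Finset.induction_on with
  | empty => rw [Finset.prod_empty, Finset.sum_empty, Finset.prod_empty]; rfl
  | insert a s ha ih => rw [Finset.prod_insert ha, Finset.sum_insert ha, Finset.prod_insert ha, ih,
      monomial_mul]

variable {p : ℕ} [hp : Fact p.Prime] [CharP k p] [PerfectRing k p]

/-- P3 for monomials. -/
lemma phi_jac_monomial (i₀ : Fin n) (M : Fin n → (Fin n →₀ ℕ)) (c : Fin n → k) :
    (hx.phi p).toHom (hx.jac fun i ↦ aeval x (monomial (M i) (c i))) = 0 := by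
  rw [jac_monomial, phi_aeval]
  by_cases hM : ∀ j, p ∣ (∑ i, M i) j
  · have hdet : (Matrix.of fun i j ↦ ((M i j : ℕ) : k)).det = 0 := by
      rw [← Matrix.exists_vecMul_eq_zero_iff]
      refine ⟨fun _ ↦ 1, fun h ↦ one_ne_zero (congr_fun h i₀), ?_⟩
      ext j
      simp only [Matrix.vecMul, dotProduct, Matrix.of_apply, one_mul, Pi.zero_apply]
      have := hM j
      rw [Finsupp.finsetSum_apply, ← CharP.cast_eq_zero_iff k p] at this
      rw [← this]
      push_cast
      rfl
    rw [hdet, mul_zero, map_zero, map_zero, map_zero]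
  · rw [phi0_monomial_of_not p hM, map_zero]

lemma phi_algebraMap_mul (c : k) (g : K) :
    (hx.phi p).toHom (algebraMap k K c * g) =
      algebraMap k K ((frobeniusEquiv k p).symm c) * (hx.phi p).toHom g := by
  conv_lhs => rw [← frobeniusEquiv_symm_pow_p k p c]
  rw [map_pow, (hx.phi p).pow_mul']

/-- the jacobian as an alternating form -/
noncomputable def form : Ω[K⁄k] [⋀^Fin n]→ₗ[K] K := hx.logBasis.det

lemma jac_eq_form (a : Fin n → K) : hx.jac a = hx.form fun i ↦ D k K (a i) := rfl

lemma D_comp_update (a : Fin n → K) (i : Fin n) (b : K) :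
    (fun j ↦ D k K (Function.update a i b j)) =
      Function.update (fun j ↦ D k K (a j)) i (D k K b) := by
  ext j
  by_cases h : j = i
  · subst h; simp
  · simp [Function.update_of_ne h]

/-- The derivation `b ↦ jac (a with b in slot i)`. -/
noncomputable def slot (a : Fin n → K) (i : Fin n) : Derivation k K K :=
  (hx.form.toMultilinearMap.toLinearMap (fun j ↦ D k K (a j)) i).compDer (D k K)

lemma slot_apply (a : Fin n → K) (i : Fin n) (b : K) :
    hx.slot a i b = hx.jac (Function.update a i b) := by
  rw [jac_eq_form, D_comp_update]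
  rfl

lemma slot_self_of_ne (a : Fin n → K) {i j : Fin n} (hij : j ≠ i) : hx.slot a i (a j) = 0 := by
  rw [slot_apply, jac_eq_form]
  exact hx.form.map_eq_zero_of_eq _ (i := j) (j := i) (by simp [Function.update_of_ne hij]) hij

/-- P3 for polynomials. -/
lemma phi_jac_aeval (i₀ : Fin n) (f : Fin n → MvPolynomial (Fin n) k) :
    (hx.phi p).toHom (hx.jac fun i ↦ aeval x (f i)) = 0 := by
  suffices h : ∀ s : Finset (Fin n), ∀ f : Fin n → MvPolynomial (Fin n) k,
      (∀ i ∉ s, ∃ m c, f i = monomial m c) →
      (hx.phi p).toHom (hx.jac fun i ↦ aeval x (f i)) = 0 from h Finset.univ f (by simp)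
  intro s
  induction s using Finset.induction_on with
  | empty =>
    intro f hf
    choose M c hM using fun i ↦ hf i (by simp)
    simp only [hM]
    exact hx.phi_jac_monomial i₀ M c
  | insert i s hi ih =>
    intro f hf
    have key : ∀ g : MvPolynomial (Fin n) k,
        (hx.phi p).toHom (hx.slot (fun i ↦ aeval x (f i)) i (aeval x g)) = 0 := by
      intro g
      induction g using MvPolynomial.induction_on' with
      | add g h hg hh => rw [map_add, map_add, map_add, hg, hh, add_zero]
      | monomial m c =>
        have := ih (Function.update f i (monomial m c)) (fun j hj ↦ by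
          by_cases hji : j = i
          · subst hji; exact ⟨m, c, by simp⟩
          · rw [Function.update_of_ne hji]; exact hf j (by simp [hji, hj]))
        rw [slot_apply]
        convert this using 2
        congr 1
        ext j
        by_cases hji : j = i
        · subst hji; simp
        · simp [Function.update_of_ne hji]
    have := key (f i)
    rwa [slot_apply, Function.update_eq_self i (fun i ↦ aeval x (f i))] at this

/-- P3: exact forms are killed by the Cartier operator. -/
theorem phi_jac (i₀ : Fin n) (g : Fin n → K) : (hx.phi p).toHom (hx.jac g) = 0 := by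
  have : CharP K p := charP_of_injective_algebraMap (algebraMap k K).injective p
  choose a b hb hg using fun i ↦ hx.surj (g i)
  have h1 : ∀ i, D k K (g i) = ((aeval x (b i))⁻¹ ^ p) • D k K (aeval x (a i * b i ^ (p - 1))) := by
    intro i
    have hb' := hx.aeval_ne_zero (hb i)
    have h2 : g i = (aeval x (b i))⁻¹ ^ p * aeval x (a i * b i ^ (p - 1)) := by
      have h3 : (aeval x (b i))⁻¹ ^ (p - 1) * aeval x (b i) ^ (p - 1) = 1 := by
        rw [← mul_pow, inv_mul_cancel₀ hb', one_pow]
      rw [hg i, map_mul, map_pow, pow_eq_pow_sub_one_mul p (aeval x (b i))⁻¹, div_eq_mul_inv]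
      linear_combination (-(aeval x (a i)) * (aeval x (b i))⁻¹) * h3
    rw [h2, Derivation.leibniz, Derivation.leibniz_pow]
    rw [← Nat.cast_smul_eq_nsmul K, CharP.cast_eq_zero, zero_smul, smul_zero, add_zero]
  rw [jac_eq_form]
  simp only [h1]
  rw [AlternatingMap.map_smul_univ, smul_eq_mul, Finset.prod_pow, (hx.phi p).pow_mul']
  have := hx.phi_jac_aeval (p := p) i₀ (fun i ↦ a i * b i ^ (p - 1))
  rw [jac_eq_form] at this
  rw [this, mul_zero]

end IsCoord

end Forms

end Pool.Agent.H14
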