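import Pool.Agent.H14.DerPow

/-!
# The Cartier operator preserves forms without poles: the local computation
-/

set_option autoImplicit false

namespace Pool.Agent.H14

open Module MvPolynomial KaehlerDifferential

section Local

variable {k K : Type*} [Field k] [Field K] [Algebra k K] {n : ℕ} {x : Fin n → K}

namespace IsCoord

variable (hx : IsCoord k x) (a : Fin n → K)

lemma slot_self (i : Fin n) : hx.slot a i (a i) = hx.jac a := by
  rw [slot_apply, Function.update_eq_self]

/-- The derivation `∂ / ∂aᵢ` (if `jac a ≠ 0`). -/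
noncomputable def par (i : Fin n) : Derivation k K K := (hx.jac a)⁻¹ • hx.slot a i

lemma par_apply (i : Fin n) (b : K) : hx.par a i b = (hx.jac a)⁻¹ * hx.slot a i b := rfl

lemma par_of_ne {i j : Fin n} (hij : j ≠ i) : hx.par a i (a j) = 0 := by
  rw [par_apply, slot_self_of_ne _ _ hij, mul_zero]

variable {a}

lemma par_self (ha : hx.jac a ≠ 0) (i : Fin n) : hx.par a i (a i) = 1 := by
  rw [par_apply, slot_self, inv_mul_cancel₀ ha]

lemma par_eq_ite (ha : hx.jac a ≠ 0) (i j : Fin n) :
    hx.par a i (a j) = if j = i then 1 else 0 := by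
  split_ifs with h
  · subst h; exact hx.par_self ha j
  · exact hx.par_of_ne a h

include hx in
/-- A derivation which vanishes on a system of parameters is zero. -/
lemma derivation_eq_zero (ha : hx.jac a ≠ 0) (d : Derivation k K K) (h : ∀ j, d (a j) = 0) :
    d = 0 := by
  have h1 := (Basis.is_basis_iff_det hx.logBasis).mpr (isUnit_iff_ne_zero.mpr ha)
  let b := Basis.mk h1.1 h1.2.ge
  have h2 : d.liftKaehlerDifferential = 0 := by
    refine b.ext fun i ↦ ?_
    rw [Basis.mk_apply, Derivation.liftKaehlerDifferential_comp_D, h, LinearMap.zero_apply]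
  ext c
  rw [← Derivation.liftKaehlerDifferential_comp_D d, h2]
  rfl

lemma par_comm (ha : hx.jac a ≠ 0) (i j : Fin n) (b : K) :
    hx.par a i (hx.par a j b) = hx.par a j (hx.par a i b) := by
  have h : ⁅hx.par a i, hx.par a j⁆ = 0 := by
    refine hx.derivation_eq_zero ha _ fun l ↦ ?_
    rw [Derivation.commutator_apply, par_eq_ite hx ha, par_eq_ite hx ha]
    split_ifs <;> simp
  have := DFunLike.congr_fun h b
  rwa [Derivation.commutator_apply, Derivation.zero_apply, sub_eq_zero] at this

lemma par_comm_iterate (ha : hx.jac a ≠ 0) (i j : Fin n) (r : ℕ) (b : K) :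
    hx.par a i ((hx.par a j)^[r] b) = (hx.par a j)^[r] (hx.par a i b) := by
  induction r with
  | zero => rfl
  | succ r ih => rw [Function.iterate_succ_apply', par_comm _ ha, ih,
      Function.iterate_succ_apply']

variable {p : ℕ} [hp : Fact p.Prime] [CharP k p] [PerfectRing k p]

omit [PerfectRing k p] in
lemma par_iterate_char (ha : hx.jac a ≠ 0) (i : Fin n) (b : K) : (hx.par a i)^[p] b = 0 := by
  have hchar : CharP K p := charP_of_injective_algebraMap (algebraMap k K).injective p
  have h : derivationPow p (hx.par a i) = 0 := by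
    refine hx.derivation_eq_zero ha _ fun l ↦ ?_
    rw [derivationPow_apply]
    obtain ⟨q, hq⟩ : ∃ q, p = q + 2 := ⟨p - 2, by have := hp.out.two_le; omega⟩
    rw [hq, Function.iterate_add_apply]
    have h1 : (hx.par a i)^[2] (a l) = 0 := by
      rw [Function.iterate_succ_apply, Function.iterate_one, par_eq_ite hx ha]
      split_ifs <;> simp
    rw [h1]
    induction q with
    | zero => rfl
    | succ q ih => 
      clear hq h1
      have : ∀ q, (hx.par a i)^[q] 0 = 0 := by
        intro q
        induction q with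
        | zero => rfl
        | succ q ih => rw [Function.iterate_succ_apply', ih, map_zero]
      exact this _
  have := DFunLike.congr_fun h b
  rwa [derivationPow_apply] at this

lemma coeff_X_mul_pderiv (m : Fin n →₀ ℕ) (j : Fin n) (f : MvPolynomial (Fin n) k) :
    coeff m (X j * pderiv j f) = (m j : k) * coeff m f := by
  induction f using MvPolynomial.induction_on' with
  | add f g hf hg => simp only [map_add, mul_add, coeff_add, hf, hg]
  | monomial u c =>
    rw [X_mul_pderiv_monomial, ← map_natCast (C : k →+* MvPolynomial (Fin n) k), coeff_C_mul,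
      coeff_monomial]
    split_ifs with h
    · rw [h]
    · simp

include hx in
/-- P6: a function killed by all `∂ / ∂aᵢ` is a `p`-th power. -/
lemma exists_pow_eq (ha : hx.jac a ≠ 0) (c : K) (hc : ∀ i, hx.par a i c = 0) :
    ∃ e : K, e ^ p = c := by
  have hchar : CharP K p := charP_of_injective_algebraMap (algebraMap k K).injective p
  have key : ∀ d : Derivation k K K, d c = 0 := by
    intro d
    have h1 : d - ∑ i, d (a i) • hx.par a i = 0 := by
      refine hx.derivation_eq_zero ha _ fun l ↦ ?_
      rw [Derivation.sub_apply, sub_eq_zero]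
      have h2 : (∑ i, d (a i) • hx.par a i) (a l) = ∑ i, (d (a i) • hx.par a i) (a l) := by
        rw [← Derivation.coeFnAddMonoidHom_apply, map_sum, Finset.sum_apply]
        rfl
      rw [h2, Finset.sum_eq_single l]
      · rw [Derivation.smul_apply, par_self hx ha, smul_eq_mul, mul_one]
      · intro i _ hi
        rw [Derivation.smul_apply, par_of_ne hx a hi.symm, smul_zero]
      · simp
    have h3 := DFunLike.congr_fun h1 c
    rw [Derivation.sub_apply, Derivation.zero_apply, sub_eq_zero] at h3
    rw [h3, ← Derivation.coeFnAddMonoidHom_apply, map_sum, Finset.sum_apply]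
    refine Finset.sum_eq_zero fun i _ ↦ ?_
    rw [Derivation.coeFnAddMonoidHom_apply, Derivation.smul_apply, hc, smul_zero]
  obtain ⟨A, B, hB, rfl⟩ := hx.surj c
  have hB' := hx.aeval_ne_zero hB
  have h1 : aeval x (A * B ^ (p - 1)) = (aeval x A / aeval x B) * (aeval x B) ^ p := by
    rw [map_mul, map_pow, pow_eq_pow_sub_one_mul p (aeval x B)]
    field_simp
  have h2 : ∀ j, pderiv j (A * B ^ (p - 1)) = 0 := by
    intro j
    have h3 := hx.repr_D_aeval (A * B ^ (p - 1)) j
    have h4 : hx.logBasis.repr (D k K (aeval x (A * B ^ (p - 1)))) j =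
      ((hx.logBasis.coord j).compDer (D k K)) (aeval x (A * B ^ (p - 1))) := rfl
    rw [h4, h1, Derivation.leibniz, key, Derivation.leibniz_pow, ← Nat.cast_smul_eq_nsmul K,
      CharP.cast_eq_zero, zero_smul, smul_zero, smul_zero, zero_add] at h3
    have h5 : (X j * pderiv j (A * B ^ (p - 1)) : MvPolynomial (Fin n) k) = 0 :=
      hx.inj (by rw [← h3, map_zero])
    exact (mul_eq_zero.mp h5).resolve_left (X_ne_zero j)
  have h3 : ∀ m ∈ (A * B ^ (p - 1)).support, ∀ i, p ∣ m i := by
    intro m hm i
    have h4 := coeff_X_mul_pderiv m i (A * B ^ (p - 1))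
    rw [h2 i, mul_zero, coeff_zero] at h4
    rw [← CharP.cast_eq_zero_iff k p]
    exact (mul_eq_zero.mp h4.symm).resolve_right (mem_support_iff.mp hm)
  refine ⟨aeval x (phi0 p n k (A * B ^ (p - 1))) / aeval x B, ?_⟩
  rw [div_pow, ← map_pow, phi0_pow p _ h3, h1]
  field_simp

/-- The local computation of the Cartier operator: if `R` is closed under `∂ / ∂aᵢ` and `p`-th
roots, then `C (R da₁ ∧ ⋯ ∧ daₙ) ⊆ R da₁ ∧ ⋯ ∧ daₙ`. -/
theorem phi_mul_jac_mem (ha : hx.jac a ≠ 0) (R : Subring K)
    (hroot : ∀ c : K, c ^ p ∈ R → c ∈ R) (hpar : ∀ r ∈ R, ∀ i, hx.par a i r ∈ R)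
    (r : K) (hr : r ∈ R) : ∃ s ∈ R, (hx.phi p).toHom (r * hx.jac a) = s * hx.jac a := by
  have hchar : CharP K p := charP_of_injective_algebraMap (algebraMap k K).injective p
  have hiter : ∀ (i : Fin n) (m : ℕ), ∀ r ∈ R, (hx.par a i)^[m] r ∈ R := by
    intro i m
    induction m with
    | zero => exact fun r hr ↦ hr
    | succ m ih => exact fun r hr ↦ by rw [Function.iterate_succ_apply']; exact hpar _ (ih r hr) i
  have key : ∀ s : Finset (Fin n), ∃ r' ∈ R, (∀ i ∈ s, hx.par a i r' = 0) ∧
      (hx.phi p).toHom (r * hx.jac a) =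
        (hx.phi p).toHom ((∏ i ∈ s, a i ^ (p - 1)) * r' * hx.jac a) := by
    intro s
    induction s using Finset.induction_on with
    | empty => exact ⟨r, hr, by simp, by simp⟩
    | insert i s hi ih =>
      obtain ⟨r', hr', h1, h2⟩ := ih
      obtain ⟨g, hg⟩ := exists_eq_neg_add_der (p := p) (hx.par a i) (a i) (hx.par_self ha i) r'
      refine ⟨- (hx.par a i)^[p - 1] r', R.neg_mem (hiter _ _ _ hr'), ?_, ?_⟩
      · intro j hj
        rw [map_neg, neg_eq_zero]
        rcases Finset.mem_insert.mp hj with rfl | hj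
        · rw [← Function.iterate_succ_apply' (hx.par a j)]
          have h6 : (p - 1).succ = p := Nat.sub_add_cancel hp.out.one_le
          rw [h6]
          exact hx.par_iterate_char ha j r'
        · rw [par_comm_iterate hx ha, h1 j hj]
          have : ∀ q, (hx.par a i)^[q] 0 = 0 := by
            intro q
            induction q with
            | zero => rfl
            | succ q ih => rw [Function.iterate_succ_apply', ih, map_zero]
          exact this _
      · rw [h2]
        conv_lhs => rw [hg]
        have h3 : hx.slot a i (∏ j ∈ s, a j ^ (p - 1)) = 0 := by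
          refine derivation_prod_eq_zero _ _ _ fun j hj ↦ ?_
          have hji : j ≠ i := by rintro rfl; exact hi hj
          exact hx.slot_pow_eq_zero _ _ _ (hx.slot_self_of_ne a hji) _
        have h4 := hx.phi_mul_slot (p := p) a i _ g h3
        have h5 : (∏ j ∈ s, a j ^ (p - 1)) * (-(a i ^ (p - 1) * (hx.par a i)^[p - 1] r') +
            hx.par a i g) * hx.jac a =
            (∏ j ∈ insert i s, a j ^ (p - 1)) * (-(hx.par a i)^[p - 1] r') * hx.jac a +
              (∏ j ∈ s, a j ^ (p - 1)) * hx.slot a i g := by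
          rw [Finset.prod_insert hi, par_apply]
          field_simp
        rw [h5, map_add, h4, add_zero]
  obtain ⟨r', hr', h1, h2⟩ := key Finset.univ
  obtain ⟨e, he⟩ := hx.exists_pow_eq (p := p) ha r' (fun i ↦ h1 i (Finset.mem_univ i))
  refine ⟨e, hroot e (by rw [he]; exact hr'), ?_⟩
  rw [h2, ← he, mul_comm (∏ i, a i ^ (p - 1)), mul_assoc, (hx.phi p).pow_mul',
    phi_prod_pow_mul_jac]

end IsCoord

end Local

end Pool.Agent.H14
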