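import Pool.Agent.H14.CartierForms

/-!
# The Cartier operator on top forms: the forms a^{p-1} da
-/


set_option autoImplicit false

namespace Pool.Agent.H14

open Module MvPolynomial KaehlerDifferential

section Forms

variable {k K : Type*} [Field k] [Field K] [Algebra k K] {n : ℕ}
  {x : Fin n → K}

lemma derivation_prod_eq_zero {ι : Type*} (d : Derivation k K K) (s : Finset ι) (f : ι → K)
    (h : ∀ i ∈ s, d (f i) = 0) : d (∏ i ∈ s, f i) = 0 := by
  classical
  induction s using Finset.induction_on with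
  | empty => simp
  | insert a s ha ih =>
    rw [Finset.prod_insert ha, Derivation.leibniz, h a (by simp), ih fun i hi ↦ h i (by simp [hi])]
    simp

namespace IsCoord

variable (hx : IsCoord k x)

include hx in
/-- Derivations are determined by their values on coordinates. -/
lemma derivation_ext (d₁ d₂ : Derivation k K K) (h : ∀ i, d₁ (x i) = d₂ (x i)) : d₁ = d₂ := by
  have h1 : d₁.liftKaehlerDifferential = d₂.liftKaehlerDifferential := by
    refine hx.basis.ext fun i ↦ ?_
    rw [basis_apply, Derivation.liftKaehlerDifferential_comp_D,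
      Derivation.liftKaehlerDifferential_comp_D, h]
  ext a
  rw [← Derivation.liftKaehlerDifferential_comp_D d₁, h1,
    Derivation.liftKaehlerDifferential_comp_D]

variable {p : ℕ} [hp : Fact p.Prime] [CharP k p] [PerfectRing k p]

/-- Exactness: if `∂ᵢ m = 0` then `m ∂ᵢ(g)` is killed. -/
lemma phi_mul_slot (a : Fin n → K) (i : Fin n) (m g : K) (hm : hx.slot a i m = 0) :
    (hx.phi p).toHom (m * hx.slot a i g) = 0 := by
  have h1 : m * hx.slot a i g = hx.slot a i (m * g) := by
    rw [Derivation.leibniz, hm, smul_zero, add_zero, smul_eq_mul]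
  rw [h1, slot_apply, phi_jac _ i]

lemma slot_pow_eq_zero (a : Fin n → K) (i : Fin n) (b : K) (hb : hx.slot a i b = 0) (r : ℕ) :
    hx.slot a i (b ^ r) = 0 := by
  rw [Derivation.leibniz_pow, hb]; simp

/-- the function `Θ` in one slot -/
noncomputable def Theta (p : ℕ) [Fact p.Prime] [CharP k p] [PerfectRing k p] (a : Fin n → K)
    (i : Fin n) (b : K) : K :=
  (hx.phi p).toHom ((∏ j ∈ Finset.univ.erase i, a j ^ (p - 1)) * (b ^ (p - 1) * hx.slot a i b))

lemma slot_prod_erase (a : Fin n → K) (i : Fin n) (r : ℕ) :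
    hx.slot a i (∏ j ∈ Finset.univ.erase i, a j ^ r) = 0 := by
  refine derivation_prod_eq_zero _ _ _ fun j hj ↦ ?_
  exact hx.slot_pow_eq_zero _ _ _ (hx.slot_self_of_ne a (Finset.ne_of_mem_erase hj)) r

lemma Theta_mul (a : Fin n → K) (i : Fin n) (b c : K) :
    hx.Theta p a i (b * c) = b * hx.Theta p a i c + c * hx.Theta p a i b := by
  simp only [Theta]
  rw [← (hx.phi p).pow_mul', ← (hx.phi p).pow_mul', ← map_add]
  congr 1
  rw [Derivation.leibniz, smul_eq_mul, smul_eq_mul, pow_eq_pow_sub_one_mul p b,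
    pow_eq_pow_sub_one_mul p c]
  ring

lemma Theta_one_add (a : Fin n → K) (i : Fin n) (u : K) :
    hx.Theta p a i (1 + u) = hx.Theta p a i u := by
  have hchar : CharP K p := charP_of_injective_algebraMap (algebraMap k K).injective p
  have h1 : hx.slot a i (1 + u) = hx.slot a i u := by
    rw [map_add, Derivation.map_one_eq_zero, zero_add]
  simp only [Theta]
  rw [h1, ← sub_eq_zero, ← map_sub, ← mul_sub, ← sub_mul]
  have h2 : (1 + u) ^ (p - 1) - u ^ (p - 1) =
      ∑ j ∈ Finset.range (p - 1), ((p - 1).choose j : K) * u ^ j := by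
    rw [add_comm 1 u, add_pow, Finset.sum_range_succ]
    simp [mul_comm]
  rw [h2, Finset.sum_mul, Finset.mul_sum, map_sum]
  refine Finset.sum_eq_zero fun j hj ↦ ?_
  rw [Finset.mem_range] at hj
  have hj1 : ((j + 1 : ℕ) : K) ≠ 0 := by
    rw [Ne, CharP.cast_eq_zero_iff K p]
    intro h
    have := Nat.le_of_dvd (by omega) h
    omega
  have h3 : ((p - 1).choose j : K) * u ^ j * hx.slot a i u =
      hx.slot a i (((p - 1).choose j : K) * ((j + 1 : ℕ) : K)⁻¹ * u ^ (j + 1)) := by
    rw [mul_assoc, mul_assoc, Derivation.leibniz, Derivation.leibniz, Derivation.leibniz_pow,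
      Derivation.leibniz_inv]
    simp only [Derivation.map_natCast, smul_eq_mul, nsmul_eq_mul, Nat.add_sub_cancel]
    field_simp
    ring
  rw [h3]
  exact hx.phi_mul_slot a i _ _ (hx.slot_prod_erase a i _)

lemma Theta_add (a : Fin n → K) (i : Fin n) (b c : K) :
    hx.Theta p a i (b + c) = hx.Theta p a i b + hx.Theta p a i c := by
  by_cases hb : b = 0
  · subst hb
    simp [Theta]
  · have h1 : b + c = b * (1 + c / b) := by field_simp
    have h2 : hx.Theta p a i c = b * hx.Theta p a i (c / b) + (c / b) * hx.Theta p a i b := by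
      rw [← Theta_mul]; congr 1; field_simp
    rw [h1, Theta_mul, Theta_one_add, h2]
    ring

/-- `Θ` is a derivation in each slot. -/
noncomputable def thetaDer (p : ℕ) [Fact p.Prime] [CharP k p] [PerfectRing k p] (a : Fin n → K)
    (i : Fin n) : Derivation k K K :=
  Derivation.mk'
    { toFun := hx.Theta p a i
      map_add' := hx.Theta_add a i
      map_smul' := by
        intro c b
        rw [Algebra.smul_def, Theta_mul, RingHom.id_apply, Algebra.smul_def]
        have : hx.Theta p a i (algebraMap k K c) = 0 := by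
          simp [Theta]
        rw [this, mul_zero, add_zero] }
    (fun b c ↦ by simpa using hx.Theta_mul a i b c)

lemma thetaDer_apply (a : Fin n → K) (i : Fin n) (b : K) :
    hx.thetaDer p a i b = hx.Theta p a i b := rfl

lemma Theta_eq (a : Fin n → K) (i : Fin n) (b : K) :
    hx.Theta p a i b = (hx.phi p).toHom ((∏ j, Function.update a i b j ^ (p - 1)) *
      hx.jac (Function.update a i b)) := by
  rw [Theta, slot_apply, ← Finset.mul_prod_erase Finset.univ _ (Finset.mem_univ i)]
  have h1 : ∏ j ∈ Finset.univ.erase i, Function.update a i b j ^ (p - 1) =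
      ∏ j ∈ Finset.univ.erase i, a j ^ (p - 1) :=
    Finset.prod_congr rfl fun j hj ↦ by rw [Function.update_of_ne (Finset.ne_of_mem_erase hj)]
  rw [h1, Function.update_self]
  congr 1
  ring

lemma phi_intCast (z : ℤ) : (hx.phi p).toHom (z : K) = z := by
  rw [← zsmul_one, map_zsmul, (hx.phi p).one']

/-- P4 for tuples of coordinates. -/
lemma phi_coord (σ : Fin n → Fin n) :
    (hx.phi p).toHom ((∏ j, x (σ j) ^ (p - 1)) * hx.jac (x ∘ σ)) = hx.jac (x ∘ σ) := by
  have h1 : hx.jac (x ∘ σ) = (∏ j, x (σ j)) *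
      (((Matrix.of fun i j ↦ if i = σ j then (1 : ℤ) else 0).det : ℤ) : K) := by
    rw [jac_eq_form]
    simp only [Function.comp_apply, hx.D_eq_smul_logBasis]
    rw [AlternatingMap.map_smul_univ, smul_eq_mul]
    congr 1
    rw [form, Basis.det_apply, Int.cast_det]
    congr 1
    ext i j
    rw [Basis.toMatrix_apply, Basis.repr_self, Finsupp.single_apply]
    by_cases h : i = σ j
    · simp [h]
    · simp [h, Ne.symm h]
  rw [h1, ← mul_assoc, ← Finset.prod_mul_distrib]
  have h2 : ∏ j, x (σ j) ^ (p - 1) * x (σ j) = (∏ j, x (σ j)) ^ p := by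
    rw [← Finset.prod_pow]
    exact Finset.prod_congr rfl fun j _ ↦ (pow_eq_pow_sub_one_mul p _).symm
  rw [h2, (hx.phi p).pow_mul', phi_intCast]

/-- P4: `C (∏ aᵢ^{p-1} da₁ ∧ ⋯ ∧ daₙ) = da₁ ∧ ⋯ ∧ daₙ`. -/
theorem phi_prod_pow_mul_jac (a : Fin n → K) :
    (hx.phi p).toHom ((∏ j, a j ^ (p - 1)) * hx.jac a) = hx.jac a := by
  suffices h : ∀ s : Finset (Fin n), ∀ a : Fin n → K, (∀ i ∉ s, a i ∈ Set.range x) →
      (hx.phi p).toHom ((∏ j, a j ^ (p - 1)) * hx.jac a) = hx.jac a from
    h Finset.univ a (by simp)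
  intro s
  induction s using Finset.induction_on with
  | empty =>
    intro a ha
    choose σ hσ using fun i ↦ ha i (by simp)
    obtain rfl : a = x ∘ σ := funext fun i ↦ (hσ i).symm
    exact hx.phi_coord σ
  | insert i s hi ih =>
    intro a ha
    have key : hx.thetaDer p a i = hx.slot a i := by
      refine hx.derivation_ext _ _ fun j ↦ ?_
      rw [thetaDer_apply, Theta_eq, slot_apply]
      refine ih _ fun l hl ↦ ?_
      by_cases hli : l = i
      · subst hli; simp
      · rw [Function.update_of_ne hli]; exact ha l (by simp [hli, hl])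
    have := DFunLike.congr_fun key (a i)
    rwa [thetaDer_apply, Theta_eq, slot_apply, Function.update_eq_self] at this

end IsCoord

end Forms

end Pool.Agent.H14
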