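import Pool.Agent.H14.ClusterDefs

/-!
# Orders along discrete valuation rings inside a field
-/

set_option autoImplicit false

universe u

namespace Pool.Agent.H14.Cluster

variable {K : Type u} [Field K] {R : Subring K}

lemma IsUniformizer.ne_zero {ϖ : K} (h : IsUniformizer R ϖ) : ϖ ≠ 0 := by
  obtain ⟨h1, h2⟩ := h
  rintro rfl
  exact h2.ne_zero rfl

lemma IsUniformizer.mem {ϖ : K} (h : IsUniformizer R ϖ) : ϖ ∈ R := h.1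

lemma IsUniformizer.inv_notMem {ϖ : K} (h : IsUniformizer R ϖ) : ϖ⁻¹ ∉ R := by
  intro h3
  have h0 := h.ne_zero
  obtain ⟨h1, h2⟩ := h
  refine h2.not_isUnit ?_
  rw [isUnit_iff_exists_inv]
  exact ⟨⟨ϖ⁻¹, h3⟩, Subtype.ext (mul_inv_cancel₀ h0)⟩

/-- `u` is a unit of `R`. -/
def IsUnitIn (R : Subring K) (u : K) : Prop := u ≠ 0 ∧ u ∈ R ∧ u⁻¹ ∈ R

lemma IsUnitIn.inv {u : K} (h : IsUnitIn R u) : IsUnitIn R u⁻¹ :=
  ⟨inv_ne_zero h.1, h.2.2, by rw [inv_inv]; exact h.2.1⟩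

lemma IsUnitIn.mul {u v : K} (h : IsUnitIn R u) (h' : IsUnitIn R v) : IsUnitIn R (u * v) :=
  ⟨mul_ne_zero h.1 h'.1, R.mul_mem h.2.1 h'.2.1, by rw [mul_inv]; exact R.mul_mem h.2.2 h'.2.2⟩

lemma IsUnitIn.one : IsUnitIn R 1 := ⟨one_ne_zero, R.one_mem, by rw [inv_one]; exact R.one_mem⟩

lemma IsUnitIn.pow {u : K} (h : IsUnitIn R u) (n : ℕ) : IsUnitIn R (u ^ n) := by
  induction n with
  | zero => rw [pow_zero]; exact .one
  | succ n ih => rw [pow_succ]; exact ih.mul h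

lemma IsUnitIn.prod {ι : Type*} (s : Finset ι) (f : ι → K) (h : ∀ i ∈ s, IsUnitIn R (f i)) :
    IsUnitIn R (∏ i ∈ s, f i) := by
  classical
  induction s using Finset.induction_on with
  | empty => rw [Finset.prod_empty]; exact .one
  | insert a s ha ih =>
    rw [Finset.prod_insert ha]
    exact (h a (by simp)).mul (ih fun i hi ↦ h i (by simp [hi]))

lemma hasOrd_iff {g : K} {m : ℤ} :
    HasOrd R g m ↔ ∃ ϖ u : K, IsUniformizer R ϖ ∧ IsUnitIn R u ∧ g = u * ϖ ^ m := by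
  constructor
  · rintro ⟨ϖ, u, h1, h2, h3, h4, h5⟩
    exact ⟨ϖ, u, h1, ⟨h2, h3, h4⟩, h5⟩
  · rintro ⟨ϖ, u, h1, ⟨h2, h3, h4⟩, h5⟩
    exact ⟨ϖ, u, h1, h2, h3, h4, h5⟩

lemma unit_mul_zpow_mem_iff {ϖ u : K} (h : IsUniformizer R ϖ) (hu : IsUnitIn R u) (a : ℤ) :
    u * ϖ ^ a ∈ R ↔ 0 ≤ a := by
  constructor
  · intro h1
    by_contra h2
    obtain ⟨m, rfl⟩ : ∃ m : ℕ, a = -(m + 1 : ℕ) := ⟨(-a - 1).toNat, by omega⟩
    refine h.inv_notMem ?_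
    have h3 := R.mul_mem (R.mul_mem hu.2.2 (R.pow_mem h.mem m)) h1
    have h4 : u⁻¹ * ϖ ^ m * (u * ϖ ^ (-((m + 1 : ℕ) : ℤ))) = ϖ⁻¹ := by
      have := hu.1
      have := h.ne_zero
      rw [zpow_neg, zpow_natCast, pow_succ]
      field_simp
    rwa [h4] at h3
  · intro h1
    obtain ⟨m, rfl⟩ := Int.eq_ofNat_of_zero_le h1
    rw [zpow_natCast]
    exact R.mul_mem hu.2.1 (R.pow_mem h.mem m)

lemma isUnitIn_unit_mul_zpow_iff {ϖ u : K} (h : IsUniformizer R ϖ) (hu : IsUnitIn R u) (a : ℤ) :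
    IsUnitIn R (u * ϖ ^ a) ↔ a = 0 := by
  constructor
  · rintro ⟨-, h1, h2⟩
    rw [mul_inv, ← zpow_neg, unit_mul_zpow_mem_iff h hu.inv] at h2
    rw [unit_mul_zpow_mem_iff h hu] at h1
    omega
  · rintro rfl
    rw [zpow_zero, mul_one]
    exact hu

/-- `R` is a discrete valuation ring with fraction field `K`: every nonzero element of `K` has an
order. -/
def IsDVRIn (R : Subring K) : Prop := ∀ g : K, g ≠ 0 → ∃ a, HasOrd R g a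

lemma IsDVRIn.exists_uniformizer (hR : IsDVRIn R) : ∃ ϖ, IsUniformizer R ϖ := by
  obtain ⟨a, ϖ, u, h, -⟩ := hR 1 one_ne_zero
  exact ⟨ϖ, h⟩

lemma IsUniformizer.not_mul {ϖ a b : K} (h : IsUniformizer R ϖ) (ha : a ∈ R) (hb : b ∈ R)
    (ha' : a⁻¹ ∉ R) (hb' : b⁻¹ ∉ R) : ϖ ≠ a * b := by
  intro h3
  obtain ⟨h1, h2⟩ := h
  have key : ∀ (a : K) (ha : a ∈ R), IsUnit (⟨a, ha⟩ : R) → a⁻¹ ∈ R := by
    intro a ha h
    obtain ⟨c, hc⟩ := isUnit_iff_exists_inv.mp h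
    have hc' : a * c = 1 := congr_arg Subtype.val hc
    rw [← eq_inv_of_mul_eq_one_right hc']
    exact c.2
  rcases h2.isUnit_or_isUnit (show (⟨ϖ, h1⟩ : R) = ⟨a, ha⟩ * ⟨b, hb⟩ from Subtype.ext h3) with h5 | h5
  · exact ha' (key a ha h5)
  · exact hb' (key b hb h5)

lemma IsDVRIn.isUnitIn_div (hR : IsDVRIn R) {ϖ ϖ' : K} (h : IsUniformizer R ϖ)
    (h' : IsUniformizer R ϖ') : IsUnitIn R (ϖ' / ϖ) := by
  obtain ⟨a, ha⟩ := hR (ϖ' / ϖ) (div_ne_zero h'.ne_zero h.ne_zero)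
  rw [hasOrd_iff] at ha
  obtain ⟨ϖ'', u, h'', hu, he⟩ := ha
  have h0 := h.ne_zero
  have h0' := h'.ne_zero
  rcases lt_trichotomy a 0 with h1 | h1 | h1
  · exfalso
    have h2 : ϖ = ϖ' * (u⁻¹ * ϖ'' ^ (-a)) := by
      rw [zpow_neg, ← mul_inv, ← he]; field_simp
    refine h.not_mul h'.mem ?_ h'.inv_notMem ?_ h2
    · rw [unit_mul_zpow_mem_iff h'' hu.inv]; omega
    · rw [mul_inv, inv_inv, ← zpow_neg, neg_neg, unit_mul_zpow_mem_iff h'' hu]; omega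
  · rw [he, h1, zpow_zero, mul_one]; exact hu
  · exfalso
    have h2 : ϖ' = ϖ * (u * ϖ'' ^ a) := by
      rw [← he]; field_simp
    refine h'.not_mul h.mem ?_ h.inv_notMem ?_ h2
    · rw [unit_mul_zpow_mem_iff h'' hu]; omega
    · rw [mul_inv, ← zpow_neg, unit_mul_zpow_mem_iff h'' hu.inv]; omega

lemma IsUnitIn.zpow {u : K} (h : IsUnitIn R u) (n : ℤ) : IsUnitIn R (u ^ n) := by
  rcases n with n | n
  · rw [Int.ofNat_eq_natCast, zpow_natCast]; exact h.pow n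
  · rw [zpow_negSucc]; exact (h.pow _).inv

/-- The order can be computed with any uniformizer. -/
lemma IsDVRIn.exists_unit (hR : IsDVRIn R) {ϖ g : K} {a : ℤ} (h : IsUniformizer R ϖ)
    (hg : HasOrd R g a) : ∃ u, IsUnitIn R u ∧ g = u * ϖ ^ a := by
  rw [hasOrd_iff] at hg
  obtain ⟨ϖ', u, h', hu, rfl⟩ := hg
  refine ⟨u * (ϖ' / ϖ) ^ a, hu.mul ((hR.isUnitIn_div h h').zpow a), ?_⟩
  rw [div_zpow, mul_assoc, div_mul_cancel₀ _ (zpow_ne_zero _ h.ne_zero)]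

lemma HasOrd.ne_zero {g : K} {a : ℤ} (h : HasOrd R g a) : g ≠ 0 := by
  rw [hasOrd_iff] at h
  obtain ⟨ϖ, u, h1, h2, rfl⟩ := h
  exact mul_ne_zero h2.1 (zpow_ne_zero _ h1.ne_zero)

lemma HasOrd.mem_iff {g : K} {a : ℤ} (h : HasOrd R g a) : g ∈ R ↔ 0 ≤ a := by
  rw [hasOrd_iff] at h
  obtain ⟨ϖ, u, h1, h2, rfl⟩ := h
  exact unit_mul_zpow_mem_iff h1 h2 a

lemma HasOrd.isUnitIn_iff {g : K} {a : ℤ} (h : HasOrd R g a) : IsUnitIn R g ↔ a = 0 := by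
  rw [hasOrd_iff] at h
  obtain ⟨ϖ, u, h1, h2, rfl⟩ := h
  exact isUnitIn_unit_mul_zpow_iff h1 h2 a

lemma IsDVRIn.hasOrd_mul (hR : IsDVRIn R) {g g' : K} {a a' : ℤ} (h : HasOrd R g a)
    (h' : HasOrd R g' a') : HasOrd R (g * g') (a + a') := by
  obtain ⟨ϖ, hϖ⟩ := hR.exists_uniformizer
  obtain ⟨u, hu, rfl⟩ := hR.exists_unit hϖ h
  obtain ⟨u', hu', rfl⟩ := hR.exists_unit hϖ h'
  rw [hasOrd_iff]
  refine ⟨ϖ, u * u', hϖ, hu.mul hu', ?_⟩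
  rw [zpow_add₀ hϖ.ne_zero]
  ring

lemma HasOrd.inv {g : K} {a : ℤ} (h : HasOrd R g a) : HasOrd R g⁻¹ (-a) := by
  rw [hasOrd_iff] at h ⊢
  obtain ⟨ϖ, u, h1, h2, rfl⟩ := h
  exact ⟨ϖ, u⁻¹, h1, h2.inv, by rw [mul_inv, zpow_neg]⟩

lemma HasOrd.pow {g : K} {a : ℤ} (h : HasOrd R g a) (n : ℕ) : HasOrd R (g ^ n) (n * a) := by
  rw [hasOrd_iff] at h ⊢
  obtain ⟨ϖ, u, h1, h2, rfl⟩ := h
  refine ⟨ϖ, u ^ n, h1, h2.pow n, ?_⟩
  rw [mul_pow, mul_comm (n : ℤ) a, zpow_mul, zpow_natCast]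

lemma IsDVRIn.hasOrd_unique (hR : IsDVRIn R) {g : K} {a b : ℤ} (h : HasOrd R g a)
    (h' : HasOrd R g b) : a = b := by
  have h1 := hR.hasOrd_mul h h'.inv
  rw [mul_inv_cancel₀ h.ne_zero] at h1
  have := h1.isUnitIn_iff.mp .one
  omega

lemma IsDVRIn.hasOrd_of_isUnitIn (hR : IsDVRIn R) {u : K} (hu : IsUnitIn R u) : HasOrd R u 0 := by
  obtain ⟨ϖ, hϖ⟩ := hR.exists_uniformizer
  rw [hasOrd_iff]
  exact ⟨ϖ, u, hϖ, hu, by simp⟩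

lemma IsDVRIn.hasOrd_uniformizer (hR : IsDVRIn R) {ϖ : K} (h : IsUniformizer R ϖ) (a : ℤ) :
    HasOrd R (ϖ ^ a) a := by
  rw [hasOrd_iff]
  exact ⟨ϖ, 1, h, .one, by simp⟩

lemma IsDVRIn.root_mem (hR : IsDVRIn R) {n : ℕ} (hn : 0 < n) (c : K) (hc : c ^ n ∈ R) :
    c ∈ R := by
  by_cases h0 : c = 0
  · rw [h0]; exact R.zero_mem
  · obtain ⟨a, ha⟩ := hR c h0
    rw [(ha.pow n).mem_iff] at hc
    rw [ha.mem_iff]
    have : (0 : ℤ) < n := by exact_mod_cast hn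
    by_contra h
    push Not at h
    nlinarith

end Pool.Agent.H14.Cluster
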