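import Pool.Agent.H14.ClusterDefs
import Pool.Agent.H14.Orders
import Pool.Agent.H14.Orders

/-! (module C)
# MODULE C: centers of codimension one points under proper birational morphisms
-/

set_option autoImplicit false

universe u

open CategoryTheory AlgebraicGeometry

namespace Pool.Agent.H14

open Cluster

variable {k : Type u} [Field k]

section

attribute [local instance] MvPolynomial.gradedAlgebra

instance isScalarTower_zero (n : ℕ) :
    IsScalarTower k (MvPolynomial.homogeneousSubmodule (Fin (n + 1)) k 0)
    (MvPolynomial (Fin (n + 1)) k) :=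
  IsScalarTower.of_algebraMap_eq fun c ↦ by
    have : algebraMap (MvPolynomial.homogeneousSubmodule (Fin (n + 1)) k 0)
      (MvPolynomial (Fin (n + 1)) k) (algebraMap k _ c) = ((algebraMap k
        (MvPolynomial.homogeneousSubmodule (Fin (n + 1)) k 0) c :
          MvPolynomial.homogeneousSubmodule (Fin (n + 1)) k 0) :
            MvPolynomial (Fin (n + 1)) k) := rfl
    rw [this, Algebra.algebraMap_eq_smul_one, Algebra.algebraMap_eq_smul_one]
    rfl

lemma bijective_algebraMap_zero (n : ℕ) :
    Function.Bijective (algebraMap k (MvPolynomial.homogeneousSubmodule (Fin (n + 1)) k 0)) := by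
  constructor
  · intro a b hab
    have h1 := congr_arg (algebraMap (MvPolynomial.homogeneousSubmodule (Fin (n + 1)) k 0)
      (MvPolynomial (Fin (n + 1)) k)) hab
    rw [← IsScalarTower.algebraMap_apply, ← IsScalarTower.algebraMap_apply] at h1
    exact (algebraMap k (MvPolynomial (Fin (n + 1)) k)).injective h1
  · rintro ⟨f, hf⟩
    obtain ⟨c, hc⟩ : ∃ c : k, f = MvPolynomial.C c := by
      have h1 := (MvPolynomial.totalDegree_zero_iff_isHomogeneous _).mpr hf
      exact ⟨_, (MvPolynomial.totalDegree_eq_zero_iff_eq_C).mp h1⟩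
    refine ⟨c, ?_⟩
    apply Subtype.ext
    have h2 : algebraMap (MvPolynomial.homogeneousSubmodule (Fin (n + 1)) k 0)
      (MvPolynomial (Fin (n + 1)) k) (algebraMap k _ c) = f := by
      rw [← IsScalarTower.algebraMap_apply, hc]; rfl
    exact h2

instance (n : ℕ) : Algebra.FiniteType (MvPolynomial.homogeneousSubmodule (Fin (n + 1)) k 0)
    (MvPolynomial (Fin (n + 1)) k) :=
  Algebra.FiniteType.of_restrictScalars_finiteType k _ _

/-- C0. The structure morphism of projective space is proper. -/
theorem projSpace_isProper (n : ℕ) : IsProper (projSpace k n).str := by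
  have h1 : IsIso (CommRingCat.ofHom
      (algebraMap k (MvPolynomial.homogeneousSubmodule (Fin (n + 1)) k 0))) := by
    have := (ConcreteCategory.isIso_iff_bijective (CommRingCat.ofHom
      (algebraMap k (MvPolynomial.homogeneousSubmodule (Fin (n + 1)) k 0)))).mpr
      (bijective_algebraMap_zero n)
    exact this
  rw [projSpace]
  infer_instance

end

/-- C1. Normal projective varieties are locally noetherian. -/
theorem isProper_of_isNormalProjective {V : IntegralScheme k}
    (hV : IsNormalProjective V) : IsProper V.str := by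
  obtain ⟨n, i, hi, h⟩ := hV.projective
  rw [← h]
  have := projSpace_isProper (k := k) n
  infer_instance

theorem isLocallyNoetherian_of_isProper {V : IntegralScheme k}
    (hV : IsProper V.str) : IsLocallyNoetherian V.X :=
  LocallyOfFiniteType.isLocallyNoetherian V.str

theorem isLocallyNoetherian_of_isNormalProjective {V : IntegralScheme k}
    (hV : IsNormalProjective V) : IsLocallyNoetherian V.X :=
  isLocallyNoetherian_of_isProper (isProper_of_isNormalProjective hV)

/-- The map from the stalk to the function field. -/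
noncomputable def toK (V : IntegralScheme k) (x : V.Pt) : V.X.presheaf.stalk x →+* V.K :=
  (V.X.presheaf.stalkSpecializes (genericPoint_specializes (α := V.X) x)).hom

lemma toK_injective (V : IntegralScheme k) (x : V.Pt) : Function.Injective (toK V x) :=
  IsFractionRing.injective (V.X.presheaf.stalk x) V.X.functionField

lemma toK_mem (V : IntegralScheme k) (x : V.Pt) (t : V.X.presheaf.stalk x) :
    toK V x t ∈ V.localRing x := ⟨t, rfl⟩

lemma exists_toK {V : IntegralScheme k} {x : V.Pt} {g : V.K} (hg : g ∈ V.localRing x) :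
    ∃ t, toK V x t = g := hg

/-- The stalk is isomorphic to the local ring in the function field. -/
noncomputable def stalkEquiv (V : IntegralScheme k) (x : V.Pt) :
    V.X.presheaf.stalk x ≃+* V.localRing x :=
  RingEquiv.ofBijective ((toK V x).codRestrict (V.localRing x) (toK_mem V x))
    ⟨fun _ _ hab ↦ toK_injective V x (congr_arg Subtype.val hab),
      fun ⟨_, hg⟩ ↦ ⟨(exists_toK hg).choose, Subtype.ext (exists_toK hg).choose_spec⟩⟩

lemma isUnit_of_isUnitIn {V : IntegralScheme k} {x : V.Pt} {t : V.X.presheaf.stalk x}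
    (h : IsUnitIn (V.localRing x) (toK V x t)) : IsUnit t := by
  obtain ⟨s, hs⟩ := exists_toK h.2.2
  refine isUnit_iff_exists_inv.mpr ⟨s, toK_injective V x ?_⟩
  rw [map_mul, hs, mul_inv_cancel₀ h.1, map_one]

lemma isUnitIn_of_isUnit {V : IntegralScheme k} {x : V.Pt} {t : V.X.presheaf.stalk x}
    (h : IsUnit t) : IsUnitIn (V.localRing x) (toK V x t) := by
  obtain ⟨s, hs⟩ := isUnit_iff_exists_inv.mp h
  have h1 : toK V x t * toK V x s = 1 := by rw [← map_mul, hs, map_one]
  refine ⟨left_ne_zero_of_mul_eq_one h1, toK_mem V x t, ?_⟩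
  rw [inv_eq_of_mul_eq_one_right h1]
  exact toK_mem V x s

/-- C3. The local ring at the image point is contained in the local ring. -/
theorem pull_toK {Y V : IntegralScheme k} (q : BirMor Y V) (y : Y.Pt)
    (t : V.X.presheaf.stalk (q.pt y)) :
    q.pull (toK V (q.pt y) t) = toK Y y ((q.hom.stalkMap y).hom t) := by
  have h1 := Scheme.Hom.stalkSpecializes_stalkMap q.hom (genericPoint Y.X) y
    (genericPoint_specializes (α := Y.X) y)
  have h2 := congr_arg (fun f ↦ f.hom t) h1
  refine Eq.trans ?_ h2
  have h3 : V.X.presheaf.stalkSpecializes (genericPoint_specializes (α := V.X) (q.pt y)) ≫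
      V.X.presheaf.stalkSpecializes (specializes_of_eq q.generic) =
      V.X.presheaf.stalkSpecializes
        (q.hom.base.hom.map_specializes (genericPoint_specializes (α := Y.X) y)) :=
    TopCat.Presheaf.stalkSpecializes_comp _ _ _
  have h4 := congr_arg (fun f ↦ (q.hom.stalkMap (genericPoint Y.X)).hom (f.hom t)) h3
  exact h4

theorem localRing_le {Y V : IntegralScheme k} (q : BirMor Y V) (y : Y.Pt) :
    q.localRing (q.pt y) ≤ Y.localRing y := by
  rintro _ ⟨_, ⟨t, rfl⟩, rfl⟩
  refine ⟨(q.hom.stalkMap y).hom t, ?_⟩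
  exact (pull_toK q y t).symm

/-- C4. Pulling back rational functions is bijective for a birational morphism. -/
theorem pull_bijective {Y V : IntegralScheme k} (q : BirMor Y V) :
    Function.Bijective q.pull := by
  have h1 : IsIso (V.X.presheaf.stalkSpecializes (specializes_of_eq q.generic)) :=
    (V.X.presheaf.stalkCongr (.of_eq q.generic)).isIso_inv
  have h2 := q.isIso
  have h3 : IsIso (V.X.presheaf.stalkSpecializes (specializes_of_eq q.generic) ≫
    q.hom.stalkMap (genericPoint Y.X)) := inferInstance
  exact (ConcreteCategory.isIso_iff_bijective _).mp h3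

lemma preimage_fromSpecStalk (V : IntegralScheme k) (x : V.X) :
    Spec.preimage (V.X.fromSpecStalk x ≫ V.str) ≫
      V.X.presheaf.stalkSpecializes (genericPoint_specializes (α := V.X) x) =
      Spec.preimage (V.X.fromSpecStalk (genericPoint V.X) ≫ V.str) := by
  apply Spec.map_injective
  rw [Spec.map_comp, Spec.map_preimage, Spec.map_preimage,
    Scheme.SpecMap_stalkSpecializes_fromSpecStalk_assoc]

theorem algebraMap_mem_localRing (V : IntegralScheme k) (x : V.Pt) (c : k) :
    algebraMap k V.K c ∈ V.localRing x := by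
  have h1 := congr_arg (fun f ↦ f.hom c) (preimage_fromSpecStalk V x)
  exact ⟨(Spec.preimage (V.X.fromSpecStalk x ≫ V.str)).hom c, h1⟩

theorem pull_algebraMap {Y V : IntegralScheme k} (q : BirMor Y V) (c : k) :
    q.pull (algebraMap k V.K c) = algebraMap k Y.K c := by
  have h1 : Spec.preimage (V.X.fromSpecStalk (genericPoint V.X) ≫ V.str) ≫
      (V.X.presheaf.stalkSpecializes (specializes_of_eq q.generic) ≫
        q.hom.stalkMap (genericPoint Y.X)) =
      Spec.preimage (Y.X.fromSpecStalk (genericPoint Y.X) ≫ Y.str) := by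
    apply Spec.map_injective
    rw [Spec.map_comp, Spec.map_comp, Spec.map_preimage, Spec.map_preimage, Category.assoc,
      Scheme.SpecMap_stalkSpecializes_fromSpecStalk_assoc,
      Scheme.SpecMap_stalkMap_fromSpecStalk_assoc, q.comm]
  exact congr_arg (fun f ↦ f.hom c) h1

lemma codimOne_iff (V : IntegralScheme k) (x : V.Pt) :
    V.CodimOne x ↔ ringKrullDim (V.localRing x) = 1 := by
  rw [← ringKrullDim_eq_of_ringEquiv (stalkEquiv V x), ringKrullDim_stalk_eq_coheight]
  change Order.coheight _ = 1 ↔ _
  constructor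
  · intro h
    rw [h]; rfl
  · intro h
    exact_mod_cast h

lemma surjective_of_isProper {Y V : IntegralScheme k} (q : BirMor Y V) [IsProper q.hom] :
    Function.Surjective q.pt := by
  intro x
  have h1 : IsClosed (Set.range q.hom) := q.hom.isClosedMap.isClosed_range
  have h2 : genericPoint V.X ∈ Set.range q.hom := ⟨_, q.generic⟩
  exact (genericPoint_specializes (α := V.X) x).mem_closed h1 h2

/-- The local ring of `V` at `x` is isomorphic to its image in the function field of `Y`. -/
noncomputable def localRingEquiv {Y V : IntegralScheme k} (q : BirMor Y V) (x : V.Pt) :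
    V.localRing x ≃+* q.localRing x :=
  (V.localRing x).equivMapOfInjective q.pull (pull_bijective q).1

/-- C2. For a birational morphism `q : Y ⟶ V` of normal projective varieties and a codimension one
point `x` of `V` there is a codimension one point of `Y` over `x` with the same local ring. -/
theorem exists_codimOne_over {Y V : IntegralScheme k} (q : BirMor Y V) (hY : IsProper Y.str)
    (hV : IsProper V.str) (x : V.Pt) (hx : V.CodimOne x) (hR : IsDVRIn (V.localRing x)) :
    ∃ y : Y.Pt, Y.CodimOne y ∧ q.pt y = x ∧ Y.localRing y = q.localRing x := by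
  have hq : IsProper q.hom := by
    have : IsProper (q.hom ≫ V.str) := by rw [q.comm]; exact hY
    exact IsProper.of_comp q.hom V.str
  obtain ⟨y, rfl⟩ := surjective_of_isProper q x
  have hle : q.localRing (q.pt y) ≤ Y.localRing y := localRing_le q y
  have heq : Y.localRing y = q.localRing (q.pt y) := by
    refine le_antisymm ?_ hle
    intro g hg
    obtain ⟨g', rfl⟩ := (pull_bijective q).2 g
    by_contra hcon
    have h1 : g' ∉ V.localRing (q.pt y) := fun h ↦ hcon ⟨g', h, rfl⟩
    have h0 : g' ≠ 0 := by rintro rfl; exact h1 (Subring.zero_mem _)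
    obtain ⟨a, ha⟩ := hR g' h0
    obtain ⟨ϖ, hϖ⟩ := hR.exists_uniformizer
    obtain ⟨u, hu, hgu⟩ := hR.exists_unit hϖ ha
    have ha0 : a < 0 := by
      by_contra h
      exact h1 (ha.mem_iff.mpr (by omega))
    -- the inverse of the uniformizer is in the local ring of `y`
    have h2 : (q.pull ϖ)⁻¹ ∈ Y.localRing y := by
      have h3 : u⁻¹ * ϖ ^ (-a - 1) ∈ V.localRing (q.pt y) :=
        (unit_mul_zpow_mem_iff hϖ hu.inv _).mpr (by omega)
      have h4 : ϖ⁻¹ = u⁻¹ * ϖ ^ (-a - 1) * g' := by
        rw [hgu, mul_mul_mul_comm, inv_mul_cancel₀ hu.1, one_mul, ← zpow_add₀ hϖ.ne_zero]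
        have : -a - 1 + a = -1 := by ring
        rw [this, zpow_neg_one]
      rw [← map_inv₀, h4, map_mul]
      exact Subring.mul_mem _ (hle ⟨_, h3, rfl⟩) hg
    obtain ⟨t, rfl⟩ := exists_toK hϖ.mem
    rw [pull_toK] at h2
    have h6 : IsUnit ((q.hom.stalkMap y).hom t) := by
      refine isUnit_of_isUnitIn (V := Y) ⟨?_, toK_mem _ _ _, h2⟩
      rw [← pull_toK, Ne, map_eq_zero_iff _ q.pull.injective]
      exact hϖ.ne_zero
    have hloc : IsLocalHom (q.hom.stalkMap y).hom := q.hom.toLRSHom.prop y
    have h7 : IsUnit t := hloc.map_nonunit t h6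
    exact hϖ.inv_notMem (isUnitIn_of_isUnit h7).2.2
  refine ⟨y, ?_, rfl, heq⟩
  rw [codimOne_iff] at hx ⊢
  rw [heq, ← hx]
  exact (ringKrullDim_eq_of_ringEquiv (localRingEquiv q _)).symm

end Pool.Agent.H14
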