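import Pool.Agent.H14.LogPoles

/-!
# The logarithmic form in a chart
-/

set_option autoImplicit false

universe u

namespace Pool.Agent.H14

open Module KaehlerDifferential Cluster MvPolynomial

variable {k K : Type u} [Field k] [Field K] [Algebra k K]

namespace IsCoord

section

variable {n : ℕ} {x : Fin n → K} (hx : IsCoord k x)

include hx in
lemma jac_ne_zero {y : Fin n → K} (hy : IsCoord k y) : hx.jac y ≠ 0 := by
  have h1 := Basis.isUnit_det hx.logBasis hy.basis
  have h2 : (hy.basis : Fin n → Ω[K⁄k]) = fun i ↦ D k K (y i) := funext fun i ↦ hy.basis_apply i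
  rw [h2] at h1
  exact h1.ne_zero

lemma D_div {a b : K} (ha : a ≠ 0) (hb : b ≠ 0) :
    D k K (a / b) = (a / b) • (a⁻¹ • D k K a - b⁻¹ • D k K b) := by
  rw [Derivation.leibniz_div, smul_sub, smul_sub, smul_smul, smul_smul, smul_smul, smul_smul]
  congr 2 <;> field_simp

/-- In another chart of projective space the logarithmic form is the same up to an integer. -/
lemma exists_jac_chart (h : Fin (n + 1) → K) (h0 : ∀ i, h i ≠ 0)
    (hxh : ∀ l, x l = h l.succ / h 0) (i : Fin (n + 1)) :
    ∃ c : ℤ, hx.jac (fun l ↦ h (i.succAbove l) / h i) = c * ∏ l, (h (i.succAbove l) / h i) := by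
  let L : Fin (n + 1) → Ω[K⁄k] := fun j ↦ (h j)⁻¹ • D k K (h j)
  have hL : ∀ l, hx.logBasis l = L l.succ - L 0 := by
    intro l
    rw [logBasis_apply, hxh, D_div (h0 _) (h0 _), smul_smul, inv_mul_cancel₀, one_smul]
    exact div_ne_zero (h0 _) (h0 _)
  have hrepr : ∀ (j : Fin (n + 1)) (m : Fin n),
      hx.logBasis.repr (L j - L 0) m = ((if j = m.succ then (1 : ℤ) else 0 : ℤ) : K) := by
    intro j m
    rcases Fin.eq_zero_or_eq_succ j with rfl | ⟨l, rfl⟩
    · rw [sub_self, map_zero, Finsupp.zero_apply, if_neg (Fin.succ_ne_zero m).symm, Int.cast_zero]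
    · rw [← hL, Basis.repr_self, Finsupp.single_apply]
      simp [Fin.succ_inj]
  refine ⟨(Matrix.of fun m l ↦ (if i.succAbove l = m.succ then (1 : ℤ) else 0) -
    (if i = m.succ then (1 : ℤ) else 0)).det, ?_⟩
  rw [jac_eq_form]
  have h1 : ∀ l, D k K (h (i.succAbove l) / h i) =
      (h (i.succAbove l) / h i) • (L (i.succAbove l) - L i) := fun l ↦ D_div (h0 _) (h0 _)
  simp only [h1]
  rw [AlternatingMap.map_smul_univ, smul_eq_mul, mul_comm]
  congr 1
  rw [form, Basis.det_apply, Int.cast_det]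
  congr 1
  ext m l
  have h2 : L (i.succAbove l) - L i = (L (i.succAbove l) - L 0) - (L i - L 0) := by abel
  rw [Basis.toMatrix_apply, h2, map_sub, Finsupp.sub_apply, hrepr, hrepr, Matrix.map_apply,
    Matrix.of_apply, Int.cast_sub]

/-- The chain rule. -/
lemma jac_eq_det_mul {y : Fin n → K} (hy : hx.jac y ≠ 0) (a : Fin n → K) :
    hx.jac a = (Matrix.of fun l j ↦ hx.par y l (a j)).det * hx.jac y := by
  have h1 := (Basis.is_basis_iff_det hx.logBasis).mpr (isUnit_iff_ne_zero.mpr hy)
  let b := Basis.mk h1.1 h1.2.ge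
  have hb : ∀ i, b i = D k K (y i) := fun i ↦ by rw [Basis.mk_apply]
  have h2 := AlternatingMap.eq_smul_basis_det b hx.form
  have h3 := congr_fun (congr_arg DFunLike.coe h2) (fun j ↦ D k K (a j))
  rw [jac_eq_form, h3, AlternatingMap.smul_apply, smul_eq_mul, mul_comm, Basis.det_apply]
  have h4 : hx.form b = hx.jac y := by
    rw [jac_eq_form]; congr 1; ext i; exact hb i
  rw [h4]
  congr 2
  ext l j
  rw [Basis.toMatrix_apply, Matrix.of_apply]
  -- both sides are derivations in `a j`
  have h5 : (b.coord l).compDer (D k K) - hx.par y l = 0 := by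
    refine hx.derivation_eq_zero hy _ fun m ↦ ?_
    rw [Derivation.sub_apply, par_eq_ite hx hy, sub_eq_zero]
    change b.repr (D k K (y m)) l = _
    rw [← hb, Basis.repr_self, Finsupp.single_apply]
  have h6 := DFunLike.congr_fun h5 (a j)
  rw [Derivation.sub_apply, Derivation.zero_apply, sub_eq_zero] at h6
  exact h6

lemma par_aeval {y : Fin n → K} (hy : hx.jac y ≠ 0) (l : Fin n) (f : MvPolynomial (Fin n) k) :
    hx.par y l (aeval y f) = aeval y (pderiv l f) := by
  induction f using MvPolynomial.induction_on with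
  | C c => rw [pderiv_C, map_zero, ← MvPolynomial.algebraMap_eq, AlgHom.commutes,
      Derivation.map_algebraMap]
  | add f g hf hg => simp only [map_add, hf, hg]
  | mul_X f m hf =>
    rw [map_mul, Derivation.leibniz, hf, aeval_X, par_eq_ite hx hy, Derivation.leibniz,
      pderiv_X, smul_eq_mul, smul_eq_mul, smul_eq_mul, smul_eq_mul, map_add, map_mul, map_mul,
      aeval_X]
    congr 2
    rw [Pi.single_apply]
    split_ifs with h1
    · simp
    · simp

variable {y : Fin n → K} {R : Subring K}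

omit hx in
lemma aeval_mem (hk : ∀ c : k, algebraMap k K c ∈ R) (hyR : ∀ l, y l ∈ R)
    (f : MvPolynomial (Fin n) k) : aeval y f ∈ R := by
  induction f using MvPolynomial.induction_on with
  | C c => rw [← MvPolynomial.algebraMap_eq, AlgHom.commutes]; exact hk c
  | add f g hf hg => rw [map_add]; exact R.add_mem hf hg
  | mul_X f m hf => rw [map_mul, aeval_X]; exact R.mul_mem hf (hyR m)

/-- `R` is a localization of `k[y₁, …, yₙ]`. -/
structure IsLocIn (k : Type u) {K : Type u} [Field k] [Field K] [Algebra k K] {n : ℕ}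
    (y : Fin n → K) (R : Subring K) : Prop where
  base : ∀ c : k, algebraMap k K c ∈ R
  coord : ∀ l, y l ∈ R
  frac : ∀ g ∈ R, ∃ a b : MvPolynomial (Fin n) k, b ≠ 0 ∧ (aeval y b)⁻¹ ∈ R ∧
    g = aeval y a / aeval y b

lemma par_mem (hy : hx.jac y ≠ 0) (hyR : IsLocIn k y R) (g : K) (hg : g ∈ R) (l : Fin n) :
    hx.par y l g ∈ R := by
  obtain ⟨a, b, hb, hbR, rfl⟩ := hyR.frac g hg
  rw [Derivation.leibniz_div, par_aeval hx hy, par_aeval hx hy]
  simp only [smul_eq_mul]
  exact R.mul_mem (R.pow_mem hbR 2) (R.sub_mem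
    (R.mul_mem (aeval_mem hyR.base hyR.coord _) (aeval_mem hyR.base hyR.coord _))
    (R.mul_mem (aeval_mem hyR.base hyR.coord _) (aeval_mem hyR.base hyR.coord _)))

/-- In a discrete valuation ring which is a localization of `k[y₁, …, yₙ]` each `yₗ` is a unit or a
uniformizer, and at most one `yₗ` is a uniformizer. -/
lemma prod_hasOrd (hy : IsCoord k y) (hyR : IsLocIn k y R) (hR : IsDVRIn R) :
    ((∀ l, (y l)⁻¹ ∈ R) ∧ HasOrd R (∏ l, y l) 0) ∨
      ((∃ l, (y l)⁻¹ ∉ R) ∧ HasOrd R (∏ l, y l) 1) := by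
  by_cases h : ∃ l, (y l)⁻¹ ∉ R
  · right
    refine ⟨h, ?_⟩
    obtain ⟨l, hl⟩ := h
    obtain ⟨ϖ, hϖ⟩ := hR.exists_uniformizer
    obtain ⟨A, B, hB, hBR, hAB⟩ := hyR.frac ϖ hϖ.mem
    have hB0 := hy.aeval_ne_zero hB
    have hBu : IsUnitIn R (aeval y B) := ⟨hB0, aeval_mem hyR.base hyR.coord _, hBR⟩
    have hA : aeval y A = aeval y B * ϖ := by rw [hAB]; field_simp
    -- every nonunit coordinate divides `A`
    have key : ∀ m, (y m)⁻¹ ∉ R → X m ∣ A ∧ HasOrd R (y m) 1 := by
      intro m hm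
      obtain ⟨e, he⟩ := hR (y m) (hy.ne_zero m)
      obtain ⟨u, hu, hyu⟩ := hR.exists_unit hϖ he
      have he1 : 1 ≤ e := by
        have h1 := he.mem_iff.mp (hyR.coord m)
        have h2 : ¬ 0 ≤ -e := fun h2 ↦ hm (he.inv.mem_iff.mpr h2)
        omega
      obtain ⟨r, rfl⟩ : ∃ r : ℕ, e = (r + 1 : ℕ) := ⟨(e - 1).toNat, by omega⟩
      -- `y_m = v A^(r+1)` with `v` a unit
      have hv : IsUnitIn R (u * (aeval y B)⁻¹ ^ (r + 1)) := hu.mul (hBu.inv.pow _)
      obtain ⟨C, E, hE, hER, hCE⟩ := hyR.frac _ hv.2.1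
      have hE0 := hy.aeval_ne_zero hE
      have h3 : X m * E = A ^ (r + 1) * C := by
        apply hy.inj
        rw [map_mul, map_mul, map_pow, aeval_X, hA, mul_pow, hyu, zpow_natCast]
        have h4 : aeval y C = u * (aeval y B)⁻¹ ^ (r + 1) * aeval y E := by
          rw [hCE]; field_simp
        rw [h4, inv_pow]
        field_simp
      have hXprime : Prime (X m : MvPolynomial (Fin n) k) := MvPolynomial.X_prime
      have hnC : ¬ (X m : MvPolynomial (Fin n) k) ∣ C := by
        rintro ⟨C', hC'⟩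
        apply hm
        have h5 : (y m)⁻¹ = aeval y C' * (aeval y E)⁻¹ * (u * (aeval y B)⁻¹ ^ (r + 1))⁻¹ := by
          rw [hCE, hC', map_mul, aeval_X]
          have h6 : aeval y C' ≠ 0 := by
            intro h6
            apply hv.1
            rw [hCE, hC', map_mul, h6, mul_zero, zero_div]
          have := hy.ne_zero m
          field_simp
        rw [h5]
        exact R.mul_mem (R.mul_mem (aeval_mem hyR.base hyR.coord _) hER) hv.2.2
      have hdvd : (X m : MvPolynomial (Fin n) k) ∣ A := by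
        have : (X m : MvPolynomial (Fin n) k) ∣ A ^ (r + 1) * C := ⟨E, h3.symm⟩
        rcases hXprime.dvd_or_dvd this with h | h
        · exact hXprime.dvd_of_dvd_pow h
        · exact absurd h hnC
      refine ⟨hdvd, ?_⟩
      obtain ⟨A', hA'⟩ := hdvd
      have h7 : aeval y A' = (aeval y B * u⁻¹) * ϖ ^ (-(r : ℤ)) := by
        have h8 : aeval y B * ϖ = y m * aeval y A' := by rw [← hA, hA', map_mul, aeval_X]
        rw [hyu] at h8
        have := hu.1
        have := hϖ.ne_zero
        rw [zpow_natCast, pow_succ] at h8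
        rw [zpow_neg, zpow_natCast]
        field_simp
        have h9 : ϖ * (aeval y B) = ϖ * (aeval y A' * u * ϖ ^ r) := by linear_combination h8
        have h10 := mul_left_cancel₀ hϖ.ne_zero h9
        rw [h10]
      have h11 := (unit_mul_zpow_mem_iff hϖ (hBu.mul hu.inv) (-(r : ℤ))).mp
        (by rw [← h7]; exact aeval_mem hyR.base hyR.coord _)
      have h12 : r = 0 := by omega
      rw [h12] at he
      exact_mod_cast he
    obtain ⟨hlA, hl1⟩ := key l hl
    -- the other coordinates are units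
    have hunit : ∀ m ∈ Finset.univ.erase l, IsUnitIn R (y m) := by
      intro m hm
      refine ⟨hy.ne_zero m, hyR.coord m, ?_⟩
      by_contra hm'
      obtain ⟨hmA, hm1⟩ := key m hm'
      obtain ⟨A', hA'⟩ := hlA
      rw [hA'] at hmA
      rcases (MvPolynomial.X_prime (i := m)).dvd_or_dvd hmA with h1 | h1
      · have h2 := (MvPolynomial.X_dvd_X).mp h1
        exact Finset.ne_of_mem_erase hm (by simpa using h2)
      · obtain ⟨A'', hA''⟩ := h1
        have h2 : ϖ = (y l * y m) * (aeval y A'' * (aeval y B)⁻¹) := by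
          rw [hAB, hA', hA'', map_mul, map_mul, aeval_X, aeval_X, div_eq_mul_inv]
          ring
        have h3 : HasOrd R (y l * y m) 2 := hR.hasOrd_mul hl1 hm1
        have h4 : HasOrd R (aeval y A'' * (aeval y B)⁻¹) (-1) := by
          have h5 := hR.hasOrd_mul h3.inv (hR.hasOrd_uniformizer hϖ 1)
          rw [zpow_one] at h5
          have h6 : (y l * y m)⁻¹ * ϖ = aeval y A'' * (aeval y B)⁻¹ := by
            rw [h2]
            have := hy.ne_zero l
            have := hy.ne_zero m
            field_simp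
          rw [h6] at h5
          exact h5
        have h5 := h4.mem_iff.mp (R.mul_mem (aeval_mem hyR.base hyR.coord _) hBR)
        omega
    rw [← Finset.mul_prod_erase Finset.univ _ (Finset.mem_univ l)]
    have := hR.hasOrd_mul hl1 (hR.hasOrd_of_isUnitIn (IsUnitIn.prod _ _ hunit))
    simpa using this
  · left
    push Not at h
    exact ⟨h, hR.hasOrd_of_isUnitIn (IsUnitIn.prod _ _ fun l _ ↦ ⟨hy.ne_zero l, hyR.coord l, h l⟩)⟩

end

section FormOrd

variable {x : Fin (Module.finrank K Ω[K⁄k]) → K} (hx : IsCoord k x)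
  {y : Fin (Module.finrank K Ω[K⁄k]) → K} {R : Subring K}

lemma mem_jacModule_iff (hy : hx.jac y ≠ 0) (hyR : IsLocIn k y R) (g : K) :
    g ∈ hx.jacModule R ↔ ∃ s ∈ R, g = s * hx.jac y := by
  constructor
  · intro hg
    induction hg using AddSubgroup.closure_induction with
    | mem f hf =>
      obtain ⟨r, hr, a, ha, rfl⟩ := hf
      refine ⟨r * (Matrix.of fun l j ↦ hx.par y l (a j)).det, R.mul_mem hr ?_, ?_⟩
      · rw [Matrix.det_apply]
        refine R.sum_mem fun σ _ ↦ ?_
        rw [Units.smul_def, zsmul_eq_mul]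
        exact R.mul_mem (intCast_mem R _) (R.prod_mem fun i _ ↦ hx.par_mem hy hyR _ (ha _) _)
      · rw [mul_assoc, ← hx.jac_eq_det_mul hy]
    | zero => exact ⟨0, R.zero_mem, by rw [zero_mul]⟩
    | add f g _ _ hf hg =>
      obtain ⟨s, hs, rfl⟩ := hf
      obtain ⟨t, ht, rfl⟩ := hg
      exact ⟨s + t, R.add_mem hs ht, by ring⟩
    | neg f _ hf =>
      obtain ⟨s, hs, rfl⟩ := hf
      exact ⟨-s, R.neg_mem hs, by ring⟩
  · rintro ⟨s, hs, rfl⟩
    exact hx.mul_jac_mem s hs y hyR.coord

/-- T7: the order of the logarithmic form along a prime divisor of projective space, computed in a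
chart. -/
theorem hasFormOrd_of_chart (hy : IsCoord k y) (hyR : IsLocIn k y R) (hR : IsDVRIn R) (c : ℤ)
    (hc : hx.jac y = c * ∏ l, y l) :
    ((∀ l, (y l)⁻¹ ∈ R) ∧ HasFormOrd R (logForm (k := k) x) 0) ∨
      ((∃ l, (y l)⁻¹ ∉ R) ∧ HasFormOrd R (logForm (k := k) x) (-1)) := by
  have hj := hx.jac_ne_zero hy
  have hc0 : (c : K) ≠ 0 := by
    intro h
    rw [h, zero_mul] at hc
    exact hj hc
  have hcu : IsUnitIn R (c : K) := by
    refine ⟨hc0, intCast_mem R c, ?_⟩
    have h1 : (c : K) = algebraMap k K (c : k) := (map_intCast _ _).symm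
    rw [h1, ← map_inv₀]
    exact hyR.base _
  have key : ∀ e : ℤ, HasOrd R (∏ l, y l) e → HasFormOrd R (logForm (k := k) x) (-e) := by
    intro e he
    obtain ⟨ϖ, hϖ⟩ := hR.exists_uniformizer
    obtain ⟨u, hu, hyu⟩ := hR.exists_unit hϖ he
    rw [← one_smul K (logForm (k := k) x), hx.hasFormOrd_iff]
    refine ⟨one_ne_zero, ϖ, hϖ, fun g ↦ ?_⟩
    rw [hx.mem_jacModule_iff hj hyR, hc, hyu, neg_neg]
    constructor
    · rintro ⟨s, hs, rfl⟩
      exact ⟨s * c * u, R.mul_mem (R.mul_mem hs hcu.2.1) hu.2.1, by ring⟩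
    · rintro ⟨r, hr, rfl⟩
      refine ⟨r * (c : K)⁻¹ * u⁻¹, R.mul_mem (R.mul_mem hr hcu.2.2) hu.2.2, ?_⟩
      have := hu.1
      field_simp
  rcases prod_hasOrd hy hyR hR with ⟨h1, h2⟩ | ⟨h1, h2⟩
  · left
    exact ⟨h1, by simpa using key 0 h2⟩
  · right
    exact ⟨h1, key 1 h2⟩

end FormOrd

end IsCoord

end Pool.Agent.H14
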