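import Mathlib

/-!
# `Proj` of a graded domain is integral
-/

set_option autoImplicit false

universe u
open CategoryTheory AlgebraicGeometry
noncomputable section
namespace Pool.Agent.H14

section
variable {σ : Type*} {A : Type u} [CommRing A] [IsDomain A] [SetLike σ A] [AddSubgroupClass σ A]
  (𝒜 : ℕ → σ) [GradedRing 𝒜]

/-- The generic point of `Proj` of a graded domain. -/
def genPt (h : ¬ HomogeneousIdeal.irrelevant 𝒜 ≤ ⊥) : ProjectiveSpectrum 𝒜 where
  asHomogeneousIdeal := ⊥
  isPrime := Ideal.isPrime_bot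
  not_irrelevant_le := h

theorem irreducibleSpace_proj (h : ¬ HomogeneousIdeal.irrelevant 𝒜 ≤ ⊥) :
    IrreducibleSpace (Proj 𝒜) := by
  have h1 : closure ({genPt 𝒜 h} : Set (ProjectiveSpectrum 𝒜)) = Set.univ := by
    refine Set.eq_univ_of_forall fun x ↦ ?_
    rw [← ProjectiveSpectrum.le_iff_mem_closure]
    exact (bot_le : (⊥ : HomogeneousIdeal 𝒜) ≤ _)
  have h2 : IsIrreducible (Set.univ : Set (ProjectiveSpectrum 𝒜)) := by
    rw [← h1]; exact isIrreducible_singleton.closure
  have h3 : IrreducibleSpace (ProjectiveSpectrum 𝒜) := (irreducibleSpace_def _).mpr h2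
  exact h3

theorem isReduced_proj : AlgebraicGeometry.IsReduced (Proj 𝒜) := by
  apply +allowSynthFailures isReduced_of_isReduced_stalk
  intro x
  have h1 : _root_.IsReduced (Localization.AtPrime x.asHomogeneousIdeal.toIdeal) := inferInstance
  have h2 : _root_.IsReduced
      (HomogeneousLocalization.AtPrime 𝒜 x.asHomogeneousIdeal.toIdeal) :=
    isReduced_of_injective (algebraMap _ (Localization.AtPrime x.asHomogeneousIdeal.toIdeal))
      (HomogeneousLocalization.val_injective _)
  exact isReduced_of_injective (Proj.stalkIso 𝒜 x).hom.hom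
    (Proj.stalkIso 𝒜 x).commRingCatIsoToRingEquiv.injective

theorem isIntegral_proj_of_isDomain (h : ¬ HomogeneousIdeal.irrelevant 𝒜 ≤ ⊥) :
    IsIntegral (Proj 𝒜) := by
  have := irreducibleSpace_proj 𝒜 h
  have := isReduced_proj 𝒜
  exact isIntegral_of_irreducibleSpace_of_isReduced _

end

attribute [local instance] MvPolynomial.gradedAlgebra

theorem X_not_irrelevant_le {k : Type u} [Field k] (n : ℕ) :
   ¬ HomogeneousIdeal.irrelevant (MvPolynomial.homogeneousSubmodule (Fin (n + 1)) k) ≤ ⊥ := by
  intro h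
  have h1 : (MvPolynomial.X 0 : MvPolynomial (Fin (n + 1)) k) ∈
     HomogeneousIdeal.irrelevant (MvPolynomial.homogeneousSubmodule (Fin (n + 1)) k) := by
    rw [HomogeneousIdeal.mem_irrelevant_iff, GradedRing.proj_apply,
      DirectSum.decompose_of_mem_ne _ (i := 1)]
    · exact MvPolynomial.isHomogeneous_X _ _
    · simp
  have h2 := h h1
  have : (MvPolynomial.X 0 : MvPolynomial (Fin (n + 1)) k) = 0 := h2
  exact MvPolynomial.X_ne_zero 0 this

instance isIntegral_proj {k : Type u} [Field k] (n : ℕ) :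
    IsIntegral (Proj (MvPolynomial.homogeneousSubmodule (Fin (n + 1)) k)) :=
  isIntegral_proj_of_isDomain _ (X_not_irrelevant_le n)

end Pool.Agent.H14
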