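import Mathlib
import Pool.Agent.H14.ProjIntegral

/-!
# Cluster type varieties and liftings to `W₂(k)`: definitions
-/

set_option autoImplicit false

universe u

open CategoryTheory AlgebraicGeometry

noncomputable section

namespace Pool.Agent.H14.Cluster

/-! ### Orders of functions and of top forms along a discrete valuation ring -/

section Orders

variable {k K : Type u} [Field k] [Field K] [Algebra k K]

/-- `ϖ ∈ K` is a uniformizer of the discrete valuation ring `R ⊆ K`. -/
def IsUniformizer (R : Subring K) (ϖ : K) : Prop :=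
  ∃ h : ϖ ∈ R, Irreducible (⟨ϖ, h⟩ : R)

/-- `g ∈ K` has order `m` along the discrete valuation ring `R ⊆ K`: `g = u ϖ ^ m` with `u` a unit
of `R` and `ϖ` a uniformizer of `R`. -/
def HasOrd (R : Subring K) (g : K) (m : ℤ) : Prop :=
  ∃ ϖ u : K, IsUniformizer R ϖ ∧ u ≠ 0 ∧ u ∈ R ∧ u⁻¹ ∈ R ∧ g = u * ϖ ^ m

/-- The `n`-th exterior power `⋀ⁿ E` of a `K`-vector space `E`. -/
def ExtPower (K : Type u) [Field K] (n : ℕ) (E : Type u) [AddCommGroup E] [Module K E] : Type u :=
  ⋀[K]^n E

instance (K : Type u) [Field K] (n : ℕ) (E : Type u) [AddCommGroup E] [Module K E] :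
    AddCommGroup (ExtPower K n E) :=
  Submodule.addCommGroup (⋀[K]^n E)

instance (K : Type u) [Field K] (n : ℕ) (E : Type u) [AddCommGroup E] [Module K E] :
    Module K (ExtPower K n E) :=
  Submodule.module (⋀[K]^n E)

/-- The element `e₁ ∧ ⋯ ∧ eₙ` of `⋀ⁿ E`. -/
def ExtPower.wedge (K : Type u) [Field K] {n : ℕ} {E : Type u} [AddCommGroup E] [Module K E]
    (e : Fin n → E) : ExtPower K n E :=
  exteriorPower.ιMulti K n e

variable (k K) in
/-- Rational top forms: the top exterior power of the `K`-vector space `Ω_{K/k}` of Kähler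
differentials. -/
abbrev TopForms : Type u := ExtPower K (Module.finrank K Ω[K⁄k]) Ω[K⁄k]

variable (k) in
/-- The top form `da₁ ∧ ⋯ ∧ daₙ`, for `a₁, …, aₙ ∈ K`. -/
def wedge (a : Fin (Module.finrank K Ω[K⁄k]) → K) : TopForms k K :=
  ExtPower.wedge K fun i ↦ KaehlerDifferential.D k K (a i)

variable (k) in
/-- The `R`-module of top forms over `R ⊆ K`: the group generated by the forms
`r da₁ ∧ ⋯ ∧ daₙ` with `r, a₁, …, aₙ ∈ R`. -/
def formModule (R : Subring K) : AddSubgroup (TopForms k K) :=
  AddSubgroup.closure {ω | ∃ r ∈ R, ∃ a, (∀ i, a i ∈ R) ∧ ω = r • wedge k a}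

/-- The rational top form `ω` has order `m` along the discrete valuation ring `R`:
the `R`-module of top forms over `R` is free with basis `ϖ ^ (-m) ω`, with `ϖ` a uniformizer. -/
def HasFormOrd (R : Subring K) (ω : TopForms k K) (m : ℤ) : Prop :=
  ω ≠ 0 ∧ ∃ ϖ : K, IsUniformizer R ϖ ∧
    ∀ ω' : TopForms k K, ω' ∈ formModule k R ↔ ∃ r ∈ R, ω' = (r * ϖ ^ (-m)) • ω

end Orders

/-! ### Integral schemes over `k`, their function fields and local rings -/

/-- An integral scheme over the field `k`. -/
structure IntegralScheme (k : Type u) [Field k] where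
  /-- The underlying scheme. -/
  X : Scheme.{u}
  /-- The structure morphism. -/
  str : X ⟶ Spec (.of k)
  [isIntegral : IsIntegral X]

attribute [instance] IntegralScheme.isIntegral

variable {k : Type u} [Field k]

namespace IntegralScheme

variable (V : IntegralScheme k)

/-- The points of `V`. -/
def Pt : Type u := V.X

instance : TopologicalSpace V.Pt := V.X.instTopologicalSpaceCarrierCarrier

/-- The point `x` of `V` has codimension one, i.e. it is the generic point of a prime divisor. -/
def CodimOne (x : V.Pt) : Prop := @Order.coheight V.X _ x = 1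

/-- The function field of `V`. -/
def K : Type u := V.X.functionField

instance : Field V.K := instFieldCarrierFunctionField V.X

/-- The inclusion of `k` in the function field of `V`: it corresponds to the morphism
`Spec K(V) ⟶ V ⟶ Spec k`. -/
def fromBase : k →+* V.K := (Spec.preimage (V.X.fromSpecStalk (genericPoint V.X) ≫ V.str)).hom

instance : Algebra k V.K := V.fromBase.toAlgebra

/-- The local ring of `V` at `x` as a subring of the function field of `V`. -/
def localRing (x : V.Pt) : Subring V.K :=
  (V.X.presheaf.stalkSpecializes (genericPoint_specializes (α := V.X) x)).hom.range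

end IntegralScheme

/-- Birational morphisms `W ⟶ V` over `k` of integral `k`-schemes: they map the generic point to
the generic point and induce an isomorphism of function fields. -/
structure BirMor (W V : IntegralScheme k) where
  /-- The underlying morphism of schemes. -/
  hom : W.X ⟶ V.X
  comm : hom ≫ V.str = W.str
  generic : hom (genericPoint W.X) = genericPoint V.X
  isIso : IsIso (hom.stalkMap (genericPoint W.X))

namespace BirMor

/-- The identity. -/
def id (V : IntegralScheme k) : BirMor V V where
  hom := 𝟙 V.X
  comm := by simp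
  generic := rfl
  isIso := inferInstance

variable {W V : IntegralScheme k} (q : BirMor W V)

/-- The image of a point. -/
def pt (y : W.Pt) : V.Pt := q.hom y

/-- The pull-back of rational functions. -/
def pull : V.K →+* W.K :=
  (V.X.presheaf.stalkSpecializes (specializes_of_eq q.generic) ≫
    q.hom.stalkMap (genericPoint W.X)).hom

/-- The local ring of `V` at `x` as a subring of the function field of `W`. -/
def localRing (x : V.Pt) : Subring W.K := (V.localRing x).map q.pull

end BirMor

/-! ### Canonical divisors and pull-backs of `ℚ`-Cartier divisors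

Divisors on `V` are given by their coefficients at the codimension one points of `V`. -/

section Divisors

variable {W V : IntegralScheme k} (q : BirMor W V)

/-- `D` is the canonical divisor of `V` given by the rational top form `ω`: its coefficients are
the orders of `ω` along the prime divisors. Here `ω` is viewed as a rational form on `W`, for a
birational morphism `q : W ⟶ V`. -/
def IsCanonicalDivisor (ω : TopForms k W.K) (D : V.Pt → ℤ) : Prop :=
  ∀ x, V.CodimOne x → HasFormOrd (q.localRing x) ω (D x)

/-- The rational function `g` is an equation of the divisor `m D` in a neighbourhood of the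
point `x` of `V`. Here `g` is viewed as a rational function on `W`, for a birational morphism
`q : W ⟶ V`. -/
def IsLocalEquation (D : V.Pt → ℚ) (m : ℕ) (x : V.Pt) (g : W.K) : Prop :=
  ∃ U : Set V.Pt, IsOpen U ∧ x ∈ U ∧ ∀ z ∈ U, V.CodimOne z →
    ∃ a : ℤ, (a : ℚ) = m * D z ∧ HasOrd (q.localRing z) g a

/-- `c` is the coefficient at the codimension one point `y` of `W` of the pull-back `q^* D` of the
`ℚ`-Cartier divisor `D` on `V`. -/
def IsPullbackCoeff (D : V.Pt → ℚ) (y : W.Pt) (c : ℚ) : Prop :=
  ∃ (m : ℕ) (g : W.K) (a : ℤ), 0 < m ∧ IsLocalEquation q D m (q.pt y) g ∧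
    HasOrd (W.localRing y) g a ∧ c = a / m

variable (V)

/-- The divisor `D` on `V` is `ℚ`-Cartier. -/
def IsQCartier (D : V.Pt → ℚ) : Prop :=
  ∃ m : ℕ, 0 < m ∧ ∀ x, ∃ g, IsLocalEquation (.id V) D m x g

/-- The divisor `D` on `V` is `ℚ`-linearly equivalent to `0`. -/
def IsQTrivial (D : V.Pt → ℚ) : Prop :=
  ∃ (m : ℕ) (g : V.K), 0 < m ∧ ∀ x, V.CodimOne x →
    ∃ a : ℤ, (a : ℚ) = m * D x ∧ HasOrd (V.localRing x) g a

end Divisors

/-! ### Projective space and normal projective varieties -/

section ProjectiveSpace

attribute [local instance] MvPolynomial.gradedAlgebra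

variable (k) in
/-- Projective `n`-space over `k`. -/
def projSpace (n : ℕ) : IntegralScheme k where
  X := Proj (MvPolynomial.homogeneousSubmodule (Fin (n + 1)) k)
  str := Proj.toSpecZero (MvPolynomial.homogeneousSubmodule (Fin (n + 1)) k) ≫
    Spec.map (CommRingCat.ofHom
      (algebraMap k (MvPolynomial.homogeneousSubmodule (Fin (n + 1)) k 0)))
  isIntegral := isIntegral_proj n

/-- The coordinate hyperplane `Hᵢ` in projective space. -/
def hyperplane (n : ℕ) (i : Fin (n + 1)) : Set (projSpace k n).Pt :=
  {z | z ∉ (Proj.basicOpen (MvPolynomial.homogeneousSubmodule (Fin (n + 1)) k)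
    (MvPolynomial.X i)).carrier}

/-- The divisor `H₀ + ⋯ + Hₙ` on projective space: its coefficient is one at the codimension one
points lying on a coordinate hyperplane (these are the generic points of the coordinate
hyperplanes) and zero at the other points. -/
def toricBoundary (n : ℕ) (z : (projSpace k n).Pt) : ℚ :=
  open Classical in if (projSpace k n).CodimOne z ∧ ∃ i, z ∈ hyperplane n i then 1 else 0

/-- Normal projective varieties over `k`. -/
structure IsNormalProjective (V : IntegralScheme k) : Prop where
  normal : ∀ x : V.X, IsIntegrallyClosed (V.X.presheaf.stalk x)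
  projective : ∃ (n : ℕ) (i : V.X ⟶ (projSpace k n).X),
    IsClosedImmersion i ∧ i ≫ (projSpace k n).str = V.str

end ProjectiveSpace

/-! ### Log Calabi-Yau pairs, crepant birational maps, cluster type varieties -/

/-- `(V, B)` is a log pair: `V` is a normal projective variety and `B` is an effective
`ℚ`-divisor such that `K_V + B` is `ℚ`-Cartier. -/
structure IsLogPair (V : IntegralScheme k) (B : V.Pt → ℚ) : Prop where
  variety : IsNormalProjective V
  effective : ∀ x, 0 ≤ B x
  support : ∀ x, B x ≠ 0 → V.CodimOne x
  finite : {x | B x ≠ 0}.Finite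
  qCartier : ∃ (ω : TopForms k V.K) (D : V.Pt → ℤ), IsCanonicalDivisor (.id V) ω D ∧
    IsQCartier V fun x ↦ D x + B x

/-- The pair `(V, B)` is log canonical: for every birational morphism `r : W ⟶ V` from a normal
projective variety `W`, the divisor `K_W - r^* (K_V + B)` has all coefficients at least `-1`
(where `K_W` and `K_V` are given by the same rational form). -/
def IsLogCanonical (V : IntegralScheme k) (B : V.Pt → ℚ) : Prop :=
  ∀ (W : IntegralScheme k) (r : BirMor W V), IsNormalProjective W →
    ∀ (ω : TopForms k W.K) (D : V.Pt → ℤ) (D' : W.Pt → ℤ),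
      IsCanonicalDivisor r ω D → IsCanonicalDivisor (.id W) ω D' →
      ∀ (y : W.Pt) (c : ℚ), W.CodimOne y → IsPullbackCoeff r (fun x ↦ D x + B x) y c →
        -1 ≤ D' y - c

/-- `(V, B)` is a log Calabi-Yau pair: it is a log canonical pair and `K_V + B ∼_ℚ 0`. -/
structure IsLogCalabiYau (V : IntegralScheme k) (B : V.Pt → ℚ) : Prop where
  logPair : IsLogPair V B
  logCanonical : IsLogCanonical V B
  trivial : ∃ (ω : TopForms k V.K) (D : V.Pt → ℤ), IsCanonicalDivisor (.id V) ω D ∧
    IsQTrivial V fun x ↦ D x + B x

/-- The birational morphisms `q : Y ⟶ V` and `q' : Y ⟶ V'` satisfy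
`q^* (K_V + B) = q'^* (K_{V'} + B')` (where `K_V` and `K_{V'}` are given by the same rational
form). -/
def IsCrepant {Y V V' : IntegralScheme k} (q : BirMor Y V) (q' : BirMor Y V') (B : V.Pt → ℚ)
    (B' : V'.Pt → ℚ) : Prop :=
  ∃ (ω : TopForms k Y.K) (D : V.Pt → ℤ) (D' : V'.Pt → ℤ),
    IsCanonicalDivisor q ω D ∧ IsCanonicalDivisor q' ω D' ∧ ∀ y, Y.CodimOne y →
      ∃ c : ℚ, IsPullbackCoeff q (fun x ↦ D x + B x) y c ∧
        IsPullbackCoeff q' (fun x ↦ D' x + B' x) y c

/-- `(V, B)` is a cluster type pair: a log Calabi-Yau pair with a crepant birational map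
`ℙⁿ ⇢ V` from `(ℙⁿ, H₀ + ⋯ + Hₙ)`, given by birational morphisms `q : Y ⟶ ℙⁿ` and `q' : Y ⟶ V`
with `Y` normal and projective, which contracts no prime divisor of `ℙⁿ` meeting the torus
(the last condition: the strict transform on `Y` of a prime divisor of `ℙⁿ` which is not a
coordinate hyperplane is not contracted by `q'`). -/
def IsClusterTypePair (V : IntegralScheme k) (B : V.Pt → ℚ) : Prop :=
  IsLogCalabiYau V B ∧ ∃ (n : ℕ) (Y : IntegralScheme k) (q : BirMor Y (projSpace k n))
    (q' : BirMor Y V), IsNormalProjective Y ∧ IsCrepant q q' (toricBoundary n) B ∧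
      ∀ y, Y.CodimOne y → (projSpace k n).CodimOne (q.pt y) → (∀ i, q.pt y ∉ hyperplane n i) →
        V.CodimOne (q'.pt y)

/-- `V` is a cluster type variety: `(V, B)` is a cluster type pair for some `B`. -/
def IsClusterTypeVariety (V : IntegralScheme k) : Prop :=
  ∃ B : V.Pt → ℚ, IsClusterTypePair V B

/-! ### Liftings to `W₂(k)` -/

section Lifting

variable (p : ℕ) [hp : Fact p.Prime]

variable (k) in
/-- The residue map `W₂(k) → k`, `(x₀, x₁) ↦ x₀`. -/
def residueMap : TruncatedWittVector p 2 k →+* k where
  toFun x := x.coeff 0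
  map_zero' := by
    rw [← map_zero (WittVector.truncate (p := p) (R := k) 2), WittVector.coeff_truncate]
    exact WittVector.zero_coeff _ _ _
  map_one' := by
    rw [← map_one (WittVector.truncate (p := p) (R := k) 2), WittVector.coeff_truncate]
    exact WittVector.one_coeff_zero _ _
  map_add' x y := by
    obtain ⟨x, rfl⟩ := WittVector.truncate_surjective p 2 k x
    obtain ⟨y, rfl⟩ := WittVector.truncate_surjective p 2 k y
    rw [← map_add, WittVector.coeff_truncate, WittVector.coeff_truncate, WittVector.coeff_truncate]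
    exact WittVector.add_coeff_zero _ _
  map_mul' x y := by
    obtain ⟨x, rfl⟩ := WittVector.truncate_surjective p 2 k x
    obtain ⟨y, rfl⟩ := WittVector.truncate_surjective p 2 k y
    rw [← map_mul, WittVector.coeff_truncate, WittVector.coeff_truncate, WittVector.coeff_truncate]
    exact WittVector.mul_coeff_zero _ _

/-- The `k`-scheme `V` lifts over `W₂(k)`: there is a flat `W₂(k)`-scheme `V'` whose
base change to `k` is isomorphic to `V` over `k`, i.e. there is a cartesian square
```
V  ----> V'
|        |
v        v
Spec k → Spec W₂(k)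
``` -/
def LiftsOverW2 (V : IntegralScheme k) : Prop :=
  ∃ (V' : Scheme.{u}) (π : V' ⟶ Spec (.of (TruncatedWittVector p 2 k))) (i : V.X ⟶ V'),
    Flat π ∧ IsPullback i V.str π (Spec.map (CommRingCat.ofHom (residueMap k p)))

end Lifting

end Pool.Agent.H14.Cluster
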