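import Pool.Agent.H14.ClusterMain

/-!
# Projective space with its toric boundary is a cluster type pair
-/

set_option autoImplicit false

universe u

open CategoryTheory AlgebraicGeometry

namespace Pool.Agent.H14

open Cluster Module KaehlerDifferential

variable {k : Type u} [Field k]

lemma pull_id (V : IntegralScheme k) : (BirMor.id V).pull = RingHom.id _ := by
  unfold BirMor.pull BirMor.id
  simp
  rfl

lemma localRing_id (V : IntegralScheme k) (x : V.Pt) :
    (BirMor.id V).localRing x = V.localRing x := by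
  rw [BirMor.localRing, pull_id]
  exact Subring.map_id _

variable {Y : IntegralScheme k} {n : ℕ}

/-- The logarithmic form. -/
theorem exists_logForm (q : BirMor Y (projSpace k n)) :
    ∃ ω₀ : TopForms k Y.K,
      (∀ z, (projSpace k n).CodimOne z → ∃ e : ℤ, (e : ℚ) = - toricBoundary _ z ∧
        HasFormOrd (q.localRing z) ω₀ e) ∧ (∀ ω : TopForms k Y.K, ∃ f : Y.K, ω = f • ω₀) ∧
      (∀ R : Subring Y.K, IsDVRIn R → ∀ m, HasFormOrd R ω₀ m → -1 ≤ m) := by
  have hn : Module.finrank Y.K Ω[Y.K⁄k] = n := (isCoord_yc q).finrank_eq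
  subst hn
  exact ⟨IsCoord.logForm (yc q), fun z hz ↦ hasFormOrd_projSpace q hz,
    fun ω ↦ ⟨_, (isCoord_yc q).eq_formCoord_smul ω⟩,
    fun R hR m hm ↦ (isCoord_yc q).neg_one_le_of_hasFormOrd hR hm⟩

lemma toricBoundary_cast (z : (projSpace k n).Pt) :
    ∃ b : ℤ, (b : ℚ) = toricBoundary n z ∧ 0 ≤ b := by
  unfold toricBoundary
  split_ifs
  · exact ⟨1, by norm_num, by norm_num⟩
  · exact ⟨0, by norm_num, by norm_num⟩

/-- The canonical divisor of projective space given by the logarithmic form. -/
theorem exists_canonicalDivisor :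
    ∃ (ω : TopForms k (projSpace k n).K) (D : (projSpace k n).Pt → ℤ),
      IsCanonicalDivisor (.id _) ω D ∧ ∀ z, (D z : ℚ) + toricBoundary n z = 0 := by
  obtain ⟨ω, h1, -, -⟩ := exists_logForm (BirMor.id (projSpace k n))
  choose b hb hb' using toricBoundary_cast (k := k) (n := n)
  refine ⟨ω, fun z ↦ - b z, fun z hz ↦ ?_, fun z ↦ by push_cast; rw [hb]; ring⟩
  obtain ⟨e, he, h2⟩ := h1 z hz
  rw [← hb] at he
  have : e = - b z := by exact_mod_cast he
  rw [this] at h2
  exact h2

lemma hasOrd_one {R : Subring Y.K} (hR : IsDVRIn R) : HasOrd R 1 0 :=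
  hR.hasOrd_of_isUnitIn .one

lemma isLocalEquation_zero (q : BirMor Y (projSpace k n)) {D : (projSpace k n).Pt → ℚ}
    (hD : ∀ z, D z = 0) (m : ℕ) (x : (projSpace k n).Pt) : IsLocalEquation q D m x 1 := by
  refine ⟨Set.univ, isOpen_univ, trivial, fun z _ hz ↦ ⟨0, by rw [hD]; simp, ?_⟩⟩
  exact hasOrd_one (isDVRIn_map q.pull (pull_bijective q).2 (isDVRIn_projSpace hz))

theorem isNormalProjective_projSpace : IsNormalProjective (projSpace k n) :=
  ⟨projSpace_normal n, n, 𝟙 _, inferInstance, by simp⟩

/-- Projective space with its toric boundary is log canonical. -/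
theorem isLogCanonical_projSpace : IsLogCanonical (projSpace k n) (toricBoundary n) := by
  intro W r hW ω D D' hD hD' y c hy hc
  obtain ⟨ω₀, h1, h2, h3⟩ := exists_logForm r
  obtain ⟨f, rfl⟩ := h2 ω
  have hWN := isLocallyNoetherian_of_isProper (isProper_of_isNormalProjective hW)
  have hR : IsDVRIn (W.localRing y) := exists_hasOrd W hW.normal y hy
  have hD'y := hD' y hy
  rw [localRing_id] at hD'y
  have hf0 : f ≠ 0 := by
    rintro rfl
    exact hD'y.1 (zero_smul _ _)
  obtain ⟨a, ha⟩ := hR f hf0
  obtain ⟨m, g, b, hm, ⟨U, hU, hyU, hUg⟩, hb, rfl⟩ := hc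
  have h4 : b = m * a := by
    have hg0 : g ≠ 0 := hb.ne_zero
    have hunit : IsUnitIn (W.localRing y) (g * (f ^ m)⁻¹) := by
      refine isUnitIn_of_hasOrd (q := r) ?_ (mul_ne_zero hg0 (inv_ne_zero (pow_ne_zero _ hf0)))
      intro z hz hzy
      obtain ⟨az, haz, hgz⟩ := hUg z (hzy.mem_open hU hyU) hz
      have hRz : IsDVRIn (r.localRing z) :=
        isDVRIn_map r.pull (pull_bijective r).2 (isDVRIn_projSpace hz)
      obtain ⟨bz, hbz⟩ := hRz f hf0
      obtain ⟨e, he, hez⟩ := h1 z hz
      have h2 := hasFormOrd_unique hRz (hasFormOrd_of_smul hRz (hD z hz) hbz) hez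
      have h3 : (az : ℚ) = m * bz := by
        have h4 : (D z : ℚ) = bz + e := by
          have : D z = bz + e := by omega
          exact_mod_cast this
        have haz' : (az : ℚ) = m * (D z + toricBoundary _ z) := haz
        rw [haz', h4, he]
        ring
      have h5 : az = m * bz := by exact_mod_cast h3
      have h6 := hRz.hasOrd_mul hgz (hbz.pow m).inv
      rw [h5, add_neg_cancel] at h6
      exact h6
    have h7 := hR.hasOrd_mul (hR.hasOrd_of_isUnitIn hunit) (ha.pow m)
    rw [zero_add, inv_mul_cancel_right₀ (pow_ne_zero _ hf0)] at h7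
    exact hR.hasOrd_unique hb h7
  have h5 := h3 _ hR _ (hasFormOrd_of_smul hR hD'y ha)
  have hm' : (m : ℚ) ≠ 0 := by exact_mod_cast hm.ne'
  rw [h4]
  push_cast
  rw [mul_div_cancel_left₀ _ hm']
  exact_mod_cast h5

/-- On a noetherian integral scheme a proper closed subset contains finitely many points of
codimension one. -/
lemma finite_codimOne (V : IntegralScheme k) [IsNoetherian V.X] (Z : Set V.X) (hZ : IsClosed Z)
    (hη : genericPoint V.X ∉ Z) : {z : V.Pt | V.CodimOne z ∧ z ∈ Z}.Finite := by
  obtain ⟨S, hS, hcl, hirr, hsup⟩ :=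
    TopologicalSpace.NoetherianSpace.exists_finite_set_isClosed_irreducible hZ
  have hfin : {z : V.X | ∃ T ∈ S, IsGenericPoint z T}.Finite := by
    have : {z : V.X | ∃ T ∈ S, IsGenericPoint z T} = ⋃ T ∈ S, {z | IsGenericPoint z T} := by
      ext z; simp
    rw [this]
    refine hS.biUnion fun T _ ↦ Set.Subsingleton.finite fun a ha b hb ↦ ?_
    exact IsGenericPoint.eq ha hb
  refine hfin.subset fun z hz ↦ ?_
  obtain ⟨hz1, hz⟩ := hz
  rw [hsup] at hz
  obtain ⟨T, hT, hzT⟩ := hz
  obtain ⟨w, hw⟩ := QuasiSober.sober (hirr T hT) (hcl T hT)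
  refine ⟨T, hT, ?_⟩
  have hwz : w ⤳ z := hw.specializes hzT
  have hwZ : w ∈ Z := by
    rw [hsup]
    exact ⟨T, hT, hw.mem⟩
  have h1 : w = z := by
    by_contra hne
    have h2 : (z : V.X) < w := lt_iff_le_not_ge.mpr
      ⟨hwz, fun h ↦ hne (Inseparable.eq (hwz.antisymm h))⟩
    have h3 : (w : V.X) < genericPoint V.X := by
      refine lt_iff_le_not_ge.mpr ⟨genericPoint_specializes w, fun h ↦ hη ?_⟩
      have h8 : w = genericPoint V.X := Inseparable.eq (Specializes.antisymm h
        (genericPoint_specializes w))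
      rw [← h8]
      exact hwZ
    have h4 := Order.coheight_add_one_le h2
    have h5 := Order.coheight_add_one_le h3
    have h6 : Order.coheight (z : V.X) = 1 := hz1
    rw [h6] at h4
    have h7 : (1 : ℕ∞) + 1 ≤ 1 := by
      calc (1 : ℕ∞) + 1 ≤ Order.coheight w + 1 := by
            gcongr
            exact le_trans (by simp) h5
        _ ≤ 1 := h4
    exact absurd h7 (by decide)
  rw [← h1]
  exact hw

lemma isNoetherian_projSpace : IsNoetherian (projSpace k n).X := by
  have := projSpace_isProper (k := k) n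
  have := isLocallyNoetherian_of_isProper (projSpace_isProper (k := k) n)
  have : CompactSpace (projSpace k n).X :=
    (quasiCompact_iff_compactSpace (f := (projSpace k n).str)).mp inferInstance
  exact ⟨⟩

section

attribute [local instance] MvPolynomial.gradedAlgebra

lemma isClosed_hyperplane (i : Fin (n + 1)) : IsClosed (X := (projSpace k n).X)
    (hyperplane n i) :=
  (Proj.basicOpen (MvPolynomial.homogeneousSubmodule (Fin (n + 1)) k)
    (MvPolynomial.X i)).isOpen.isClosed_compl

end

lemma mem_localRing_genericPoint (V : IntegralScheme k) (g : V.K) :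
    g ∈ V.localRing (genericPoint V.X) := by
  refine ⟨g, ?_⟩
  rw [TopCat.Presheaf.stalkSpecializes_refl]
  rfl

lemma genericPoint_notMem_hyperplane (i : Fin (n + 1)) :
    genericPoint (projSpace k n).X ∉ hyperplane n i := by
  obtain ⟨j, hj⟩ := exists_notMem_hyperplane (k := k) (n := n) (genericPoint (projSpace k n).X)
  rcases Fin.eq_self_or_eq_succAbove j i with rfl | ⟨l, rfl⟩
  · exact hj
  · exact (inv_chart_mem_localRing_iff hj l).mp (mem_localRing_genericPoint _ _)

/-- The toric boundary has finitely many components. -/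
lemma finite_toricBoundary : {z : (projSpace k n).Pt | toricBoundary n z ≠ 0}.Finite := by
  have hN := isNoetherian_projSpace (k := k) (n := n)
  have h1 : ∀ i : Fin (n + 1), {z : (projSpace k n).Pt |
      (projSpace k n).CodimOne z ∧ z ∈ hyperplane n i}.Finite := fun i ↦
    finite_codimOne _ _ (isClosed_hyperplane i) (genericPoint_notMem_hyperplane i)
  refine (Set.finite_iUnion h1).subset fun z hz ↦ ?_
  change toricBoundary n z ≠ 0 at hz
  rw [toricBoundary] at hz
  split_ifs at hz with h
  · obtain ⟨h2, i, hi⟩ := h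
    exact Set.mem_iUnion.mpr ⟨i, h2, hi⟩
  · exact absurd rfl hz

/-- Projective space with its toric boundary is a log pair. -/
theorem isLogPair_projSpace : IsLogPair (projSpace k n) (toricBoundary n) where
  variety := isNormalProjective_projSpace
  effective x := by
    obtain ⟨b, hb, hb'⟩ := toricBoundary_cast x
    rw [← hb]
    exact_mod_cast hb'
  support x hx := by
    rw [toricBoundary] at hx
    split_ifs at hx with h
    · exact h.1
    · exact absurd rfl hx
  finite := finite_toricBoundary
  qCartier := by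
    obtain ⟨ω, D, hD, h⟩ := exists_canonicalDivisor (k := k) (n := n)
    exact ⟨ω, D, hD, 1, one_pos, fun x ↦ ⟨1, isLocalEquation_zero _ h 1 x⟩⟩

/-- Projective space with its toric boundary is a log Calabi-Yau pair. -/
theorem isLogCalabiYau_projSpace : IsLogCalabiYau (projSpace k n) (toricBoundary n) where
  logPair := isLogPair_projSpace
  logCanonical := isLogCanonical_projSpace
  trivial := by
    obtain ⟨ω, D, hD, h⟩ := exists_canonicalDivisor (k := k) (n := n)
    refine ⟨ω, D, hD, 1, 1, one_pos, fun x hx ↦ ⟨0, ?_, hasOrd_one (isDVRIn_projSpace hx)⟩⟩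
    change ((0 : ℤ) : ℚ) = _ * ((D x : ℚ) + toricBoundary n x)
    rw [h]
    simp

/-- Projective space with its toric boundary is a cluster type pair. -/
theorem isClusterTypePair_projSpace : IsClusterTypePair (projSpace k n) (toricBoundary n) := by
  refine ⟨isLogCalabiYau_projSpace, n, projSpace k n, .id _, .id _, isNormalProjective_projSpace,
    ?_, fun y _ h _ ↦ h⟩
  obtain ⟨ω, D, hD, h⟩ := exists_canonicalDivisor (k := k) (n := n)
  have h1 : ∀ y, (projSpace k n).CodimOne y →
      IsPullbackCoeff (BirMor.id (projSpace k n)) (fun x ↦ D x + toricBoundary n x) y 0 :=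
    fun y hy ↦ ⟨1, 1, 0, one_pos, isLocalEquation_zero _ h 1 _, hasOrd_one (isDVRIn_projSpace hy),
      by simp⟩
  exact ⟨ω, D, D, hD, hD, fun y hy ↦ ⟨0, h1 y hy, h1 y hy⟩⟩

/-- Projective space is a cluster type variety. -/
theorem isClusterTypeVariety_projSpace : IsClusterTypeVariety (projSpace k n) :=
  ⟨_, isClusterTypePair_projSpace⟩

end Pool.Agent.H14
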