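import Mathlib

/-!
# Coordinates on a purely transcendental field extension: Kähler differentials and Jacobians
-/

set_option autoImplicit false

namespace Pool.Agent.H14

open Module TensorProduct

universe u v

section

variable {k K : Type*} [Field k] [Field K] [Algebra k K] {n : ℕ}

/-- `x₁, …, xₙ` is a system of coordinates: `K = k(x₁, …, xₙ)`, with `x₁, …, xₙ` algebraically
independent over `k`. -/
structure IsCoord (k : Type*) {K : Type*} [Field k] [Field K] [Algebra k K] {n : ℕ}
    (x : Fin n → K) : Prop where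
  inj : Function.Injective (MvPolynomial.aeval (R := k) x)
  surj : ∀ g : K, ∃ a b : MvPolynomial (Fin n) k, b ≠ 0 ∧
    g = MvPolynomial.aeval x a / MvPolynomial.aeval x b

namespace IsCoord

variable {x : Fin n → K} (hx : IsCoord k x)

include hx

lemma aeval_ne_zero {b : MvPolynomial (Fin n) k} (hb : b ≠ 0) : MvPolynomial.aeval x b ≠ 0 := by
  intro h
  exact hb (hx.inj (by rw [h, map_zero]))

theorem isFractionRing :
    letI := (MvPolynomial.aeval (R := k) x).toRingHom.toAlgebra
    IsFractionRing (MvPolynomial (Fin n) k) K := by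
  letI := (MvPolynomial.aeval (R := k) x).toRingHom.toAlgebra
  have h1 : ∀ a, algebraMap (MvPolynomial (Fin n) k) K a = MvPolynomial.aeval x a := fun _ ↦ rfl
  refine ⟨?_, ?_, ?_⟩
  · rintro ⟨b, hb⟩
    exact (isUnit_iff_ne_zero.mpr (hx.aeval_ne_zero (nonZeroDivisors.ne_zero hb)))
  · intro g
    obtain ⟨a, b, hb, rfl⟩ := hx.surj g
    refine ⟨⟨a, b, mem_nonZeroDivisors_of_ne_zero hb⟩, ?_⟩
    change _ * MvPolynomial.aeval x b = MvPolynomial.aeval x a
    rw [div_mul_cancel₀ _ (hx.aeval_ne_zero hb)]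
  · intro a b hab
    exact ⟨1, by rw [hx.inj hab]⟩

theorem exists_basis : ∃ e : Basis (Fin n) K Ω[K⁄k], ∀ i, e i = KaehlerDifferential.D k K (x i) := by
  letI := (MvPolynomial.aeval (R := k) x).toRingHom.toAlgebra
  haveI : IsScalarTower k (MvPolynomial (Fin n) k) K :=
    IsScalarTower.of_algebraMap_eq fun r ↦ ((MvPolynomial.aeval (R := k) x).commutes r).symm
  haveI := hx.isFractionRing
  haveI : Algebra.FormallyEtale (MvPolynomial (Fin n) k) K :=
    Algebra.FormallyEtale.of_isLocalization (nonZeroDivisors (MvPolynomial (Fin n) k))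
  refine ⟨((KaehlerDifferential.mvPolynomialBasis k (Fin n)).baseChange K).map
    (KaehlerDifferential.tensorKaehlerEquivOfFormallyEtale k (MvPolynomial (Fin n) k) K),
    fun i ↦ ?_⟩
  rw [Basis.map_apply, Basis.baseChange_apply, KaehlerDifferential.mvPolynomialBasis_apply,
    KaehlerDifferential.tensorKaehlerEquivOfFormallyEtale_apply,
    KaehlerDifferential.mapBaseChange_tmul, one_smul, KaehlerDifferential.map_D]
  congr 1
  change MvPolynomial.aeval x (MvPolynomial.X i) = x i
  simp

/-- The basis `dx₁, …, dxₙ` of `Ω_{K/k}`. -/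
noncomputable def basis : Basis (Fin n) K Ω[K⁄k] := hx.exists_basis.choose

@[simp] lemma basis_apply (i : Fin n) : hx.basis i = KaehlerDifferential.D k K (x i) :=
  hx.exists_basis.choose_spec i

lemma ne_zero (i : Fin n) : x i ≠ 0 := by
  have := hx.aeval_ne_zero (MvPolynomial.X_ne_zero i)
  simpa using this

/-- The basis `dx₁ / x₁, …, dxₙ / xₙ` of `Ω_{K/k}`. -/
noncomputable def logBasis : Basis (Fin n) K Ω[K⁄k] :=
  hx.basis.unitsSMul fun i ↦ (Units.mk0 (x i) (hx.ne_zero i))⁻¹

lemma logBasis_apply (i : Fin n) :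
    hx.logBasis i = (x i)⁻¹ • KaehlerDifferential.D k K (x i) := by
  rw [logBasis, Basis.unitsSMul_apply, basis_apply]
  rfl

lemma D_eq_smul_logBasis (i : Fin n) :
    KaehlerDifferential.D k K (x i) = x i • hx.logBasis i := by
  rw [logBasis_apply, smul_smul, mul_inv_cancel₀ (hx.ne_zero i), one_smul]

/-- The function with `da₁ ∧ ⋯ ∧ daₙ = jac a • dlog x₁ ∧ ⋯ ∧ dlog xₙ`. -/
noncomputable def jac (a : Fin n → K) : K :=
  hx.logBasis.det fun i ↦ KaehlerDifferential.D k K (a i)

end IsCoord

end

end Pool.Agent.H14
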