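import Pool.Agent.H14.ProjEv
import Pool.Agent.H14.Coord

/-!
# Coordinates and local rings of projective space
-/

set_option autoImplicit false

universe u

open CategoryTheory AlgebraicGeometry

namespace Pool.Agent.H14

open Cluster

attribute [local instance] MvPolynomial.gradedAlgebra

section

variable {k : Type u} [Field k] {n : ℕ}

/-- Scaling: a ring homomorphism with `X_j ↦ X_j u` multiplies homogeneous elements of degree `d` by
`u ^ d`. -/
lemma map_of_isHomogeneous {F : Type*} [Field F] [Algebra (MvPolynomial (Fin (n + 1)) k) F]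
    (φ : MvPolynomial (Fin (n + 1)) k →+* F) (u : F)
    (hC : ∀ c, φ (MvPolynomial.C c) = algebraMap _ F (MvPolynomial.C (σ := Fin (n + 1)) c))
    (hX : ∀ j, φ (MvPolynomial.X j) = algebraMap _ F (MvPolynomial.X (R := k) j) * u)
    {d : ℕ} {a : MvPolynomial (Fin (n + 1)) k} (ha : a.IsHomogeneous d) :
    φ a = algebraMap _ F a * u ^ d := by
  rw [a.as_sum, map_sum, map_sum, Finset.sum_mul]
  refine Finset.sum_congr rfl fun m hm ↦ ?_
  have h1 : ∑ j, m j = d := by
    have := ha (MvPolynomial.mem_support_iff.mp hm)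
    rw [← this, Finsupp.weight_apply, Finsupp.sum_fintype]
    · simp
    · simp
  rw [MvPolynomial.monomial_eq, map_mul, map_mul, hC, Finsupp.prod_fintype _ _ (by simp), map_prod,
    map_prod, mul_assoc]
  congr 1
  rw [← h1, ← Finset.prod_pow_eq_pow_sum, ← Finset.prod_mul_distrib]
  exact Finset.prod_congr rfl fun j _ ↦ by rw [map_pow, map_pow, hX, mul_pow]

/-- The fraction field of the polynomial ring. -/
abbrev FF (k : Type u) [Field k] (n : ℕ) : Type u := FractionRing (MvPolynomial (Fin (n + 1)) k)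

/-- The inclusion of the polynomial ring in its fraction field. -/
noncomputable abbrev ι (k : Type u) [Field k] (n : ℕ) : MvPolynomial (Fin (n + 1)) k →+* FF k n :=
  algebraMap (MvPolynomial (Fin (n + 1)) k) (FractionRing (MvPolynomial (Fin (n + 1)) k))

lemma ι_injective : Function.Injective (ι k n) :=
  IsFractionRing.injective (MvPolynomial (Fin (n + 1)) k) (FF k n)

lemma ι_ne_zero {a : MvPolynomial (Fin (n + 1)) k} (ha : a ≠ 0) : ι k n a ≠ 0 := by
  intro h
  exact ha (ι_injective (by rw [h, map_zero]))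

lemma exists_ev {d : ℕ} {a b : MvPolynomial (Fin (n + 1)) k} (ha : a.IsHomogeneous d)
    (hb : b.IsHomogeneous d) (hb0 : b ≠ 0) : ∃ g : (projSpace k n).K, ev g = ι k n a / ι k n b := by
  obtain ⟨t, ht⟩ := exists_of_num_den (MvPolynomial.homogeneousSubmodule (Fin (n + 1)) k)
      (FractionRing (MvPolynomial (Fin (n + 1)) k)) (genPt _ (X_not_irrelevant_le n)) d
      ⟨a, ha⟩ ⟨b, hb⟩ hb0
  exact ⟨_, ht (genericPoint (projSpace k n).X) (genericPoint_specializes _)⟩

/-- The homogeneous coordinates `X_i / X_0` as rational functions. -/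
noncomputable def hc (k : Type u) [Field k] (n : ℕ) (i : Fin (n + 1)) : (projSpace k n).K :=
  (exists_ev (k := k) (n := n) (MvPolynomial.isHomogeneous_X k i) (MvPolynomial.isHomogeneous_X k 0)
    (MvPolynomial.X_ne_zero 0)).choose

lemma ev_hc (i : Fin (n + 1)) : ev (hc k n i) = ι k n (MvPolynomial.X i) / ι k n (MvPolynomial.X 0) :=
  (exists_ev (k := k) (n := n) (MvPolynomial.isHomogeneous_X k i) (MvPolynomial.isHomogeneous_X k 0)
    (MvPolynomial.X_ne_zero 0)).choose_spec

lemma hc_ne_zero (i : Fin (n + 1)) : hc k n i ≠ 0 := by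
  intro h
  have h1 := ev_hc (k := k) i
  rw [h, map_zero] at h1
  exact div_ne_zero (ι_ne_zero (MvPolynomial.X_ne_zero i)) (ι_ne_zero (MvPolynomial.X_ne_zero 0))
    h1.symm

/-- Affine coordinates on the `i`-th chart. -/
noncomputable def chart (k : Type u) [Field k] (n : ℕ) (i : Fin (n + 1)) (l : Fin n) :
    (projSpace k n).K := hc k n (i.succAbove l) / hc k n i

lemma ev_chart (i : Fin (n + 1)) (l : Fin n) : ev (chart k n i l) =
    ι k n (MvPolynomial.X (i.succAbove l)) / ι k n (MvPolynomial.X i) := by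
  have h0 := ι_ne_zero (k := k) (MvPolynomial.X_ne_zero (0 : Fin (n + 1)))
  have h1 := ι_ne_zero (k := k) (MvPolynomial.X_ne_zero i)
  rw [chart, map_div₀, ev_hc, ev_hc]
  field_simp

/-- Dehomogenization. -/
noncomputable def deh (i : Fin (n + 1)) :
    MvPolynomial (Fin (n + 1)) k →ₐ[k] MvPolynomial (Fin n) k :=
  MvPolynomial.aeval (i.insertNth 1 (fun l ↦ MvPolynomial.X l))

lemma deh_X_self (i : Fin (n + 1)) : deh (k := k) i (MvPolynomial.X i) = 1 := by
  rw [deh, MvPolynomial.aeval_X, Fin.insertNth_apply_same]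

lemma deh_X_succAbove (i : Fin (n + 1)) (l : Fin n) :
    deh (k := k) i (MvPolynomial.X (i.succAbove l)) = MvPolynomial.X l := by
  rw [deh, MvPolynomial.aeval_X, Fin.insertNth_apply_succAbove]

lemma ev_aeval_deh (i : Fin (n + 1)) {d : ℕ} {a : MvPolynomial (Fin (n + 1)) k}
    (ha : a.IsHomogeneous d) :
    ev (MvPolynomial.aeval (chart k n i) (deh i a)) =
      ι k n a / ι k n (MvPolynomial.X i) ^ d := by
  have h1 := ι_ne_zero (k := k) (MvPolynomial.X_ne_zero i)
  have h2 := map_of_isHomogeneous (F := FF k n)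
    (ev.comp ((MvPolynomial.aeval (R := k) (chart k n i)).toRingHom.comp (deh i).toRingHom))
    (ι k n (MvPolynomial.X i))⁻¹ ?_ ?_ ha
  · rw [div_eq_mul_inv, ← inv_pow]
    exact h2
  · intro c
    change ev (MvPolynomial.aeval (chart k n i) (deh i (MvPolynomial.C c))) = _
    rw [← MvPolynomial.algebraMap_eq, AlgHom.commutes, AlgHom.commutes, ev_algebraMap]
    rfl
  · intro j
    change ev (MvPolynomial.aeval (chart k n i) (deh i (MvPolynomial.X j))) = _
    rcases Fin.eq_self_or_eq_succAbove i j with rfl | ⟨l, rfl⟩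
    · rw [deh_X_self, map_one, map_one]
      exact (mul_inv_cancel₀ h1).symm
    · rw [deh_X_succAbove, MvPolynomial.aeval_X, ev_chart, div_eq_mul_inv]

/-- Clearing denominators. -/
lemma exists_clear (i : Fin (n + 1)) (f : MvPolynomial (Fin n) k) :
    ∃ (N : ℕ) (a : MvPolynomial (Fin (n + 1)) k),
      ι k n (MvPolynomial.X i) ^ N * ev (MvPolynomial.aeval (chart k n i) f) = ι k n a ∧
        deh i a = f := by
  have h1 := ι_ne_zero (k := k) (MvPolynomial.X_ne_zero i)
  induction f using MvPolynomial.induction_on with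
  | C c =>
    refine ⟨0, MvPolynomial.C c, ?_, ?_⟩
    · rw [pow_zero, one_mul, ← MvPolynomial.algebraMap_eq, AlgHom.commutes, ev_algebraMap]
    · rw [← MvPolynomial.algebraMap_eq, AlgHom.commutes]
      rfl
  | add f g hf hg =>
    obtain ⟨N, a, ha, ha'⟩ := hf
    obtain ⟨M, b, hb, hb'⟩ := hg
    refine ⟨N + M, a * MvPolynomial.X i ^ M + b * MvPolynomial.X i ^ N, ?_, ?_⟩
    · rw [map_add, map_add, map_add, map_mul, map_mul, ← ha, ← hb, map_pow, map_pow]
      ring
    · rw [map_add, map_mul, map_mul, map_pow, map_pow, deh_X_self, ha', hb']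
      simp
  | mul_X f l hf =>
    obtain ⟨N, a, ha, ha'⟩ := hf
    refine ⟨N + 1, a * MvPolynomial.X (i.succAbove l), ?_, ?_⟩
    · rw [map_mul, map_mul, map_mul, ← ha, MvPolynomial.aeval_X, ev_chart]
      field_simp
      ring
    · rw [map_mul, ha', deh_X_succAbove]

theorem isCoord_chart (i : Fin (n + 1)) : IsCoord k (chart k n i) where
  inj := by
    rw [injective_iff_map_eq_zero]
    intro f hf
    obtain ⟨N, a, ha, ha'⟩ := exists_clear i f
    rw [hf, map_zero, mul_zero] at ha
    rw [← ha', ι_injective (ha.symm.trans (map_zero _).symm), map_zero]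
  surj := by
    intro g
    obtain ⟨d, a, b, ha, hb, hb0, h⟩ := (mem_localRing_iff (genericPoint (projSpace k n).X) g).mp
      (by
        refine ⟨g, ?_⟩
        have h1 := TopCat.Presheaf.stalkSpecializes_refl (projSpace k n).X.presheaf
          (genericPoint (projSpace k n).X)
        exact congr_arg (fun q ↦ q.hom g) h1)
    have hb1 : b ≠ 0 := by
      rintro rfl
      exact hb0 (Ideal.zero_mem _)
    have h1 := ι_ne_zero (k := k) (MvPolynomial.X_ne_zero i)
    have hb2 := ι_ne_zero hb1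
    have h2 : ev (MvPolynomial.aeval (chart k n i) (deh i b)) ≠ 0 := by
      rw [ev_aeval_deh i hb]
      exact div_ne_zero hb2 (pow_ne_zero _ h1)
    refine ⟨deh i a, deh i b, ?_, ?_⟩
    · intro h0
      rw [h0, map_zero, map_zero] at h2
      exact h2 rfl
    · apply ev_injective
      rw [map_div₀, ev_aeval_deh i hb, ev_aeval_deh i ha, h]
      field_simp

lemma mem_hyperplane_iff (z : (projSpace k n).Pt) (i : Fin (n + 1)) :
    z ∈ hyperplane n i ↔ MvPolynomial.X i ∈ idealOf z := by
  change ¬ (¬ _) ↔ _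
  rw [not_not]
  rfl

lemma exists_notMem_hyperplane (z : (projSpace k n).Pt) : ∃ i, z ∉ hyperplane n i := by
  by_contra! h
  have h1 : ∀ i, MvPolynomial.X i ∈ idealOf z := fun i ↦ (mem_hyperplane_iff z i).mp (h i)
  have h2 := (show ProjectiveSpectrum (MvPolynomial.homogeneousSubmodule (Fin (n + 1)) k)
    from z).not_irrelevant_le
  apply h2
  change (HomogeneousIdeal.irrelevant _).toIdeal ≤ idealOf z
  rw [HomogeneousIdeal.toIdeal_irrelevant_le]
  intro d hd f hf
  change f ∈ idealOf z
  replace hf : f.IsHomogeneous d := hf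
  rw [f.as_sum]
  refine Ideal.sum_mem _ fun m hm ↦ ?_
  have h3 : ∑ j, m j = d := by
    have := hf (MvPolynomial.mem_support_iff.mp hm)
    rw [← this, Finsupp.weight_apply, Finsupp.sum_fintype]
    · simp
    · simp
  obtain ⟨j, hj⟩ : ∃ j, m j ≠ 0 := by
    by_contra! h4
    rw [Finset.sum_eq_zero fun j _ ↦ h4 j] at h3
    omega
  rw [MvPolynomial.monomial_eq, Finsupp.prod_fintype _ _ (by simp),
    ← Finset.mul_prod_erase Finset.univ _ (Finset.mem_univ j)]
  obtain ⟨r, hr⟩ := Nat.exists_eq_succ_of_ne_zero hj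
  rw [hr, pow_succ]
  have : MvPolynomial.C (MvPolynomial.coeff m f) * (MvPolynomial.X j ^ r * MvPolynomial.X j *
      ∏ x ∈ Finset.univ.erase j, MvPolynomial.X x ^ m x) =
      MvPolynomial.C (MvPolynomial.coeff m f) * (MvPolynomial.X j ^ r *
      ∏ x ∈ Finset.univ.erase j, MvPolynomial.X x ^ m x) * MvPolynomial.X (R := k) j := by ring
  rw [this]
  exact Ideal.mul_mem_left _ _ (h1 j)

lemma chart_mem_localRing {z : (projSpace k n).Pt} {i : Fin (n + 1)} (hi : z ∉ hyperplane n i)
    (l : Fin n) : chart k n i l ∈ (projSpace k n).localRing z := by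
  rw [mem_hyperplane_iff] at hi
  rw [mem_localRing_iff]
  exact ⟨1, MvPolynomial.X (i.succAbove l), MvPolynomial.X i, MvPolynomial.isHomogeneous_X _ _,
    MvPolynomial.isHomogeneous_X _ _, hi, ev_chart i l⟩

lemma inv_chart_mem_localRing_iff {z : (projSpace k n).Pt} {i : Fin (n + 1)}
    (hi : z ∉ hyperplane n i) (l : Fin n) :
    (chart k n i l)⁻¹ ∈ (projSpace k n).localRing z ↔ z ∉ hyperplane n (i.succAbove l) := by
  rw [mem_hyperplane_iff] at hi ⊢
  have h1 := ι_ne_zero (k := k) (MvPolynomial.X_ne_zero i)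
  have h2 := ι_ne_zero (k := k) (MvPolynomial.X_ne_zero (i.succAbove l))
  rw [mem_localRing_iff]
  constructor
  · rintro ⟨d, a, b, ha, hb, hbz, h⟩ hl
    have hb0 : ι k n b ≠ 0 := ι_ne_zero (by rintro rfl; exact hbz (Ideal.zero_mem _))
    rw [map_inv₀, ev_chart, inv_div, div_eq_div_iff h2 hb0, ← map_mul, ← map_mul] at h
    have h3 := ι_injective h
    have h4 : MvPolynomial.X i * b ∈ idealOf z := by
      rw [h3]; exact Ideal.mul_mem_left _ _ hl
    rcases (inferInstance : (idealOf z).IsPrime).mem_or_mem h4 with h5 | h5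
    · exact hi h5
    · exact hbz h5
  · intro hl
    exact ⟨1, MvPolynomial.X i, MvPolynomial.X (i.succAbove l), MvPolynomial.isHomogeneous_X _ _,
      MvPolynomial.isHomogeneous_X _ _, hl, by rw [map_inv₀, ev_chart, inv_div]⟩

lemma exists_of_mem_localRing {z : (projSpace k n).Pt} {i : Fin (n + 1)}
    (hi : z ∉ hyperplane n i) {g : (projSpace k n).K} (hg : g ∈ (projSpace k n).localRing z) :
    ∃ a b : MvPolynomial (Fin n) k, b ≠ 0 ∧
      (MvPolynomial.aeval (chart k n i) b)⁻¹ ∈ (projSpace k n).localRing z ∧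
      g = MvPolynomial.aeval (chart k n i) a / MvPolynomial.aeval (chart k n i) b := by
  rw [mem_hyperplane_iff] at hi
  rw [mem_localRing_iff] at hg
  obtain ⟨d, a, b, ha, hb, hbz, h⟩ := hg
  have h1 := ι_ne_zero (k := k) (MvPolynomial.X_ne_zero i)
  have hb0 : ι k n b ≠ 0 := ι_ne_zero (by rintro rfl; exact hbz (Ideal.zero_mem _))
  have h2 : ev (MvPolynomial.aeval (chart k n i) (deh i b)) ≠ 0 := by
    rw [ev_aeval_deh i hb]
    exact div_ne_zero hb0 (pow_ne_zero _ h1)
  refine ⟨deh i a, deh i b, ?_, ?_, ?_⟩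
  · intro h0
    rw [h0, map_zero, map_zero] at h2
    exact h2 rfl
  · rw [mem_localRing_iff]
    refine ⟨d, MvPolynomial.X i ^ d, b, ?_, hb, hbz, ?_⟩
    · have := (MvPolynomial.isHomogeneous_X k i).pow d
      rwa [one_mul] at this
    · rw [map_inv₀, ev_aeval_deh i hb, inv_div, map_pow]
  · apply ev_injective
    rw [map_div₀, ev_aeval_deh i hb, ev_aeval_deh i ha, h]
    field_simp

/-- P2. Homogeneous coordinates on projective space. -/
theorem projSpace_charts (n : ℕ) : ∃ X : Fin (n + 1) → (projSpace k n).K,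
    (∀ i, X i ≠ 0) ∧
    (∀ i, IsCoord k fun l : Fin n ↦ X (i.succAbove l) / X i) ∧
    ∀ z : (projSpace k n).Pt, ∃ i : Fin (n + 1),
      (∀ l : Fin n, X (i.succAbove l) / X i ∈ (projSpace k n).localRing z) ∧
      (∀ l : Fin n, z ∈ hyperplane n (i.succAbove l) ↔
        (X (i.succAbove l) / X i)⁻¹ ∉ (projSpace k n).localRing z) ∧
      z ∉ hyperplane n i ∧
      ∀ g ∈ (projSpace k n).localRing z, ∃ a b : MvPolynomial (Fin n) k, b ≠ 0 ∧
        (MvPolynomial.aeval (fun l : Fin n ↦ X (i.succAbove l) / X i) b)⁻¹ ∈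
          (projSpace k n).localRing z ∧
        g = MvPolynomial.aeval (fun l : Fin n ↦ X (i.succAbove l) / X i) a /
          MvPolynomial.aeval (fun l : Fin n ↦ X (i.succAbove l) / X i) b := by
  refine ⟨hc k n, hc_ne_zero, isCoord_chart, fun z ↦ ?_⟩
  obtain ⟨i, hi⟩ := exists_notMem_hyperplane z
  refine ⟨i, chart_mem_localRing hi, fun l ↦ ?_, hi, fun g hg ↦ exists_of_mem_localRing hi hg⟩
  have := inv_chart_mem_localRing_iff hi l
  rw [chart] at this
  rw [this, not_not]

end

end Pool.Agent.H14
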