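import Pool.Agent.H14.ChartForms
import Pool.Agent.H14.ProjCharts

/-!
# Projective space is normal
-/

set_option autoImplicit false

universe u

open CategoryTheory AlgebraicGeometry

namespace Pool.Agent.H14

open Cluster MvPolynomial

section

variable {k K : Type u} [Field k] [Field K] [Algebra k K] {n : ℕ} {y : Fin n → K} {R : Subring K}

lemma isIntegrallyClosed_of_isLocIn (hy : IsCoord k y) (hyR : IsCoord.IsLocIn k y R) :
    IsIntegrallyClosed R := by
  let f : MvPolynomial (Fin n) k →+* R := (aeval y).toRingHom.codRestrict R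
    (fun a ↦ IsCoord.aeval_mem hyR.base hyR.coord a)
  have hf : ∀ a, ((f a : R) : K) = aeval y a := fun _ ↦ rfl
  let := f.toAlgebra
  let M : Submonoid (MvPolynomial (Fin n) k) :=
    { carrier := {b | b ≠ 0 ∧ (aeval y b)⁻¹ ∈ R}
      one_mem' := ⟨one_ne_zero, by rw [map_one, inv_one]; exact R.one_mem⟩
      mul_mem' := by
        rintro a b ⟨ha, ha'⟩ ⟨hb, hb'⟩
        exact ⟨mul_ne_zero ha hb, by rw [map_mul, mul_inv]; exact R.mul_mem ha' hb'⟩ }
  have hloc : IsLocalization M R := by
    refine ⟨?_, ?_, ?_⟩
    · rintro ⟨b, hb, hb'⟩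
      refine isUnit_iff_exists_inv.mpr ⟨⟨_, hb'⟩, Subtype.ext ?_⟩
      change aeval y b * (aeval y b)⁻¹ = 1
      exact mul_inv_cancel₀ (hy.aeval_ne_zero hb)
    · rintro ⟨g, hg⟩
      obtain ⟨a, b, hb, hb', h⟩ := hyR.frac g hg
      refine ⟨⟨a, b, hb, hb'⟩, Subtype.ext ?_⟩
      change g * aeval y b = aeval y a
      rw [h, div_mul_cancel₀ _ (hy.aeval_ne_zero hb)]
    · intro a b hab
      refine ⟨1, ?_⟩
      have : aeval y a = aeval y b := congr_arg Subtype.val hab
      rw [hy.inj this]
  exact isIntegrallyClosed_of_isLocalization M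
    (fun b hb ↦ mem_nonZeroDivisors_of_ne_zero hb.1) (S := R)

end

section

variable {k : Type u} [Field k]

/-- The stalk is isomorphic to the local ring in the function field. -/
noncomputable def stalkEquivLocalRing (V : IntegralScheme k) (x : V.X) :
    V.X.presheaf.stalk x ≃+* V.localRing x :=
  RingEquiv.ofBijective
    (V.X.presheaf.stalkSpecializes (genericPoint_specializes (α := V.X) x)).hom.rangeRestrict
    ⟨by
      have h := IsFractionRing.injective (V.X.presheaf.stalk x) V.X.functionField
      exact fun a b hab ↦ h (congr_arg Subtype.val hab), RingHom.rangeRestrict_surjective _⟩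

lemma algebraMap_mem_localRing_proj {n : ℕ} (z : (projSpace k n).Pt) (c : k) :
    algebraMap k (projSpace k n).K c ∈ (projSpace k n).localRing z := by
  rw [mem_localRing_iff]
  exact ⟨0, MvPolynomial.C c, 1, MvPolynomial.isHomogeneous_C _ _, MvPolynomial.isHomogeneous_one _ _,
    fun h ↦ (inferInstance : (idealOf z).IsPrime).ne_top ((Ideal.eq_top_iff_one _).mpr h), by
      rw [ev_algebraMap, map_one, div_one]⟩

/-- P1. -/
theorem projSpace_normal (n : ℕ) (x : (projSpace k n).X) :
    IsIntegrallyClosed ((projSpace k n).X.presheaf.stalk x) := by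
  obtain ⟨i, hi⟩ := exists_notMem_hyperplane (k := k) (n := n) x
  have h1 : IsCoord.IsLocIn k (chart k n i) ((projSpace k n).localRing x) :=
    ⟨algebraMap_mem_localRing_proj x, chart_mem_localRing hi,
      fun g hg ↦ exists_of_mem_localRing hi hg⟩
  have h2 := isIntegrallyClosed_of_isLocIn (isCoord_chart i) h1
  exact IsIntegrallyClosed.of_equiv (stalkEquivLocalRing (projSpace k n) x).symm

end

end Pool.Agent.H14
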