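import Pool.Agent.H14.W2Lift

/-!
# Gluing the `W₂`-lifts of the affine opens of a scheme with a Frobenius splitting
-/

set_option autoImplicit false

universe u

open CategoryTheory Limits AlgebraicGeometry Opposite

noncomputable section

namespace Pool.Agent.H14

/-- restriction on affine opens -/
abbrev res {X : Scheme.{u}} {U V : X.AffineZariskiSite} (h : U ≤ V) :
    Γ(X, V.toOpens) →+* Γ(X, U.toOpens) :=
  (X.presheaf.map (homOfLE (Scheme.AffineZariskiSite.toOpens_mono h)).op).hom

/-- A compatible family of Frobenius splittings on the affine opens of a scheme. -/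
structure SchemeSplit (p : ℕ) (X : Scheme.{u}) where
  split : ∀ U : X.AffineZariskiSite, FrobSplit p Γ(X, U.toOpens)
  compat : ∀ {U V : X.AffineZariskiSite} (h : U ≤ V), (split V).Compat (split U) (res h)

namespace SchemeSplit

variable {p : ℕ} [hp : Fact p.Prime] {X : Scheme.{u}}
variable [hX : ∀ U : X.AffineZariskiSite, Fact ((p : Γ(X, U.toOpens)) = 0)]
variable (σ : SchemeSplit p X)

lemma res_self {U : X.AffineZariskiSite} (h : U ≤ U) : res h = RingHom.id Γ(X, U.toOpens) := by
  rw [res, show homOfLE (Scheme.AffineZariskiSite.toOpens_mono h) = 𝟙 _ from rfl, op_id,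
    X.presheaf.map_id]
  rfl

lemma res_comp {U V W : X.AffineZariskiSite} (h : U ≤ V) (h' : V ≤ W) (h'' : U ≤ W) :
    res h'' = (res h).comp (res h') := by
  rw [res, res, res, ← CommRingCat.hom_comp, ← X.presheaf.map_comp]
  rfl

lemma liftMap_id' {U : X.AffineZariskiSite} (h : U ≤ U) :
    liftMap (σ.compat h) = RingHom.id (σ.split U).Lift := by
  refine RingHom.ext fun x ↦ ?_
  obtain ⟨x, rfl⟩ := Ideal.Quotient.mk_surjective x
  rw [liftMap_mk, res_self, RingHom.id_apply]
  congr 1

lemma liftMap_comp' {U V W : X.AffineZariskiSite} (h : U ≤ V) (h' : V ≤ W) (h'' : U ≤ W) :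
    liftMap (σ.compat h'') = (liftMap (σ.compat h)).comp (liftMap (σ.compat h')) := by
  refine RingHom.ext fun x ↦ ?_
  obtain ⟨x, rfl⟩ := Ideal.Quotient.mk_surjective x
  rw [RingHom.comp_apply, liftMap_mk, liftMap_mk, liftMap_mk, res_comp h h']
  congr 1

/-- The presheaf of lifted rings. -/
def liftPresheaf : X.AffineZariskiSiteᵒᵖ ⥤ CommRingCat.{u} where
  obj U := .of (σ.split U.unop).Lift
  map {U V} f := CommRingCat.ofHom (liftMap (σ.compat (leOfHom f.unop)))
  map_id U := by
    rw [liftMap_id']
    rfl
  map_comp {U V W} f g := by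
    rw [← CommRingCat.ofHom_comp, ← liftMap_comp']

/-- The reduction maps as a morphism of presheaves. -/
def redNat : σ.liftPresheaf ⟶ (Scheme.AffineZariskiSite.toOpensFunctor X).op ⋙ X.presheaf where
  app U := CommRingCat.ofHom (σ.split U.unop).red
  naturality U V f := by
    ext1
    exact red_comp_liftMap (σ.compat (leOfHom f.unop))

/-- The diagram of affine schemes `Spec` of the lifted rings. -/
def diagram : X.AffineZariskiSite ⥤ Scheme.{u} := σ.liftPresheaf.rightOp ⋙ Scheme.Spec

lemma diagram_map {U V : X.AffineZariskiSite} (f : U ⟶ V) :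
    σ.diagram.map f = Spec.map (CommRingCat.ofHom (liftMap (σ.compat (leOfHom f)))) := rfl

instance isOpenImmersion_map {U V : X.AffineZariskiSite} (f : U ⟶ V) :
    IsOpenImmersion (σ.diagram.map f) := by
  obtain ⟨r, hr⟩ := leOfHom f
  obtain rfl : V.basicOpen r = U := Subtype.ext hr
  rw [diagram_map]
  obtain ⟨z, hz⟩ := (σ.split V).red_surjective r
  let := (liftMap (σ.compat (leOfHom f))).toAlgebra
  have := isLocalization_liftMap (σ.compat (leOfHom f)) r (V.2.isLocalization_basicOpen r) z hz
  exact IsOpenImmersion.of_isLocalization z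

/-- The diagram `U ↦ Spec Γ(X, U)`. -/
abbrev baseDiagram (X : Scheme.{u}) : X.AffineZariskiSite ⥤ Scheme.{u} :=
  Scheme.AffineZariskiSite.toOpensFunctor X ⋙ X.presheaf.rightOp ⋙ Scheme.Spec

/-- The closed immersions `Spec Γ(X, U) ⟶ Spec (lift)`. -/
def thickening : baseDiagram X ⟶ σ.diagram :=
  Functor.whiskerRight (NatTrans.rightOp σ.redNat) Scheme.Spec

lemma thickening_app (U : X.AffineZariskiSite) :
    σ.thickening.app U = Spec.map (CommRingCat.ofHom (σ.split U).red) := rfl

lemma thickening_bijective (U : X.AffineZariskiSite) :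
    Function.Bijective (σ.thickening.app U) := by
  have h := PrimeSpectrum.isHomeomorph_comap (σ.split U).red
    (fun x ↦ ⟨1, one_pos, by
      obtain ⟨y, hy⟩ := (σ.split U).red_surjective x
      exact ⟨y, by rw [hy, pow_one]⟩⟩)
    (by
      rw [FrobSplit.ker_red, Ideal.span_singleton_le_iff_mem, mem_nilradical]
      exact ⟨2, by rw [pow_two, FrobSplit.p_sq]⟩)
  exact h.bijective

instance isLocallyDirected_base : (baseDiagram X ⋙ Scheme.forget).IsLocallyDirected :=
  letI D := Scheme.AffineZariskiSite.relativeGluingData (X := X) (.of_isIso (𝟙 _))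
  Scheme.Cover.RelativeGluingData.instIsLocallyDirectedI₀CompFunctorForgetOfIsThin D

instance isLocallyDirected : (σ.diagram ⋙ Scheme.forget).IsLocallyDirected where
  cond {i j k} fi fj xi xj h := by
    change σ.diagram.map fi xi = σ.diagram.map fj xj at h
    obtain ⟨yi, rfl⟩ := (σ.thickening_bijective i).2 xi
    obtain ⟨yj, rfl⟩ := (σ.thickening_bijective j).2 xj
    have h' : (baseDiagram X).map fi yi = (baseDiagram X).map fj yj := by
      apply (σ.thickening_bijective k).1
      rw [← Scheme.Hom.comp_apply, ← Scheme.Hom.comp_apply, σ.thickening.naturality,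
        σ.thickening.naturality, Scheme.Hom.comp_apply, Scheme.Hom.comp_apply, h]
    obtain ⟨l, fli, flj, y, h1, h2⟩ :=
      Functor.exists_map_eq_of_isLocallyDirected (baseDiagram X ⋙ Scheme.forget) fi fj yi yj h'
    change (baseDiagram X).map fli y = yi at h1
    change (baseDiagram X).map flj y = yj at h2
    refine ⟨l, fli, flj, σ.thickening.app l y, ?_, ?_⟩
    · change σ.diagram.map fli (σ.thickening.app l y) = _
      rw [← h1, ← Scheme.Hom.comp_apply, ← Scheme.Hom.comp_apply, σ.thickening.naturality]
    · change σ.diagram.map flj (σ.thickening.app l y) = _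
      rw [← h2, ← Scheme.Hom.comp_apply, ← Scheme.Hom.comp_apply, σ.thickening.naturality]

/-- The glued lift. -/
def lift : Scheme.{u} := colimit σ.diagram

/-- The open immersion of a chart. -/
def chart (U : X.AffineZariskiSite) : σ.diagram.obj U ⟶ σ.lift := colimit.ι σ.diagram U

instance (U : X.AffineZariskiSite) : IsOpenImmersion (σ.chart U) :=
  inferInstanceAs (IsOpenImmersion (colimit.ι σ.diagram U))

/-- The closed immersion of the scheme into its lift. -/
def incl : X ⟶ σ.lift :=
  (Scheme.AffineZariskiSite.isColimitCocone X).desc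
    ((Cocone.precompose σ.thickening).obj (colimit.cocone σ.diagram))

lemma fromSpec_incl (U : X.AffineZariskiSite) :
    U.2.fromSpec ≫ σ.incl = σ.thickening.app U ≫ σ.chart U :=
  (Scheme.AffineZariskiSite.isColimitCocone X).fac
    ((Cocone.precompose σ.thickening).obj (colimit.cocone σ.diagram)) U

section Structure

variable {k : Type u} [Field k] (s : X ⟶ Spec (.of k))

/-- The map from constants to sections. -/
def const (U : X.AffineZariskiSite) : k →+* Γ(X, U.toOpens) :=
  ((Scheme.ΓSpecIso (.of k)).inv ≫ s.appTop ≫ X.presheaf.map (homOfLE le_top).op).hom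

lemma res_comp_const {U V : X.AffineZariskiSite} (h : U ≤ V) :
    (res h).comp (const s V) = const s U := by
  rw [const, const, res, ← CommRingCat.hom_comp, Category.assoc, Category.assoc, ← X.presheaf.map_comp]
  rfl

lemma fromSpec_const (U : X.AffineZariskiSite) :
    U.2.fromSpec ≫ s = Spec.map (CommRingCat.ofHom (const s U)) := by
  have h1 : s = X.toSpecΓ ≫ Spec.map s.appTop ≫ Spec.map (Scheme.ΓSpecIso (.of k)).inv := by
    rw [← Scheme.isoSpec_Spec_inv, ← Scheme.toSpecΓ_naturality_assoc, Scheme.toSpecΓ_isoSpec_inv,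
      Category.comp_id]
  have h2 : U.2.fromSpec ≫ s = U.2.fromSpec ≫ X.toSpecΓ ≫ Spec.map s.appTop ≫
      Spec.map (Scheme.ΓSpecIso (.of k)).inv := congrArg (U.2.fromSpec ≫ ·) h1
  rw [h2, IsAffineOpen.fromSpec_toSpecΓ_assoc, ← Spec.map_comp, ← Spec.map_comp]
  congr 1

omit hX in
lemma res_comp_const' {U V : X.AffineZariskiSite} (h : U ≤ V) :
    (CommRingCat.ofHom (const s V)) ≫ CommRingCat.ofHom (res h) = CommRingCat.ofHom (const s U) := by
  rw [← CommRingCat.ofHom_comp, res_comp_const]

lemma map_struct {U V : X.AffineZariskiSite} (h : U ≤ V) :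
    Spec.map (CommRingCat.ofHom (liftMap (σ.compat h))) ≫
      Spec.map (CommRingCat.ofHom ((σ.split V).structHom (const s V))) =
      Spec.map (CommRingCat.ofHom ((σ.split U).structHom (const s U))) := by
  rw [← Spec.map_comp, ← CommRingCat.ofHom_comp, liftMap_comp_structHom, res_comp_const]

/-- The structure morphism of the lift. -/
def str : σ.lift ⟶ Spec (.of (TruncatedWittVector p 2 k)) :=
  colimit.desc σ.diagram
    { pt := Spec (.of (TruncatedWittVector p 2 k))
      ι :=
        { app := fun U ↦ Spec.map (CommRingCat.ofHom ((σ.split U).structHom (const s U)))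
          naturality := fun U V f ↦ by
            exact (σ.map_struct s (leOfHom f)).trans (Category.comp_id _).symm } }

lemma chart_str (U : X.AffineZariskiSite) : σ.chart U ≫ σ.str s =
    Spec.map (CommRingCat.ofHom ((σ.split U).structHom (const s U))) :=
  colimit.ι_desc _ _

set_option backward.isDefEq.respectTransparency false in
instance flat_str [CharP k p] [PerfectRing k p] : Flat (σ.str s) := by
  rw [IsZariskiLocalAtSource.iff_of_openCover (P := @Flat)
    (Scheme.IsLocallyDirected.openCover σ.diagram)]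
  intro U
  change Flat (σ.chart U ≫ σ.str s)
  rw [chart_str]
  rw [Flat.SpecMap_iff]
  exact (σ.split U).flat_structHom (const s U)

omit hX in
lemma exists_desc {R T : Type u} [CommRing R] [CommRing T] [Fact ((p : R) = 0)] (τ : FrobSplit p R)
    (g : τ.Lift →+* T) (hg : g (p : τ.Lift) = 0) : ∃ d : R →+* T, d.comp τ.red = g :=
  ⟨(τ.red.liftOfRightInverse _ (Function.rightInverse_surjInv τ.red_surjective)
      ⟨g, by rw [FrobSplit.ker_red, Ideal.span_singleton_le_iff_mem]; exact hg⟩),
    RingHom.liftOfRightInverse_comp _ _ _ _⟩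

omit hX in
lemma isPushout_aux {R : Type u} [CommRing R] [Fact ((p : R) = 0)] (τ : FrobSplit p R) (j : k →+* R)
    [CharP k p]
    (c : PushoutCocone (CommRingCat.ofHom (τ.structHom j)) (CommRingCat.ofHom (w2Residue p k))) :
    ∃ d : R →+* c.pt, d.comp τ.red = c.inl.hom := by
  apply exists_desc
  have h := congrArg CommRingCat.Hom.hom c.condition
  have h2 := RingHom.congr_fun h (p : TruncatedWittVector p 2 k)
  have h3 : c.inl.hom (τ.structHom j (p : TruncatedWittVector p 2 k)) =
    c.inr.hom (w2Residue p k (p : TruncatedWittVector p 2 k)) := h2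
  rwa [map_natCast (τ.structHom j), map_natCast (w2Residue p k), CharP.cast_eq_zero k p,
    map_zero] at h3

omit hX in
lemma w2Residue_surjective : Function.Surjective (w2Residue p k) := fun x ↦ by
  refine ⟨WittVector.truncate 2 (WittVector.teichmuller p x), ?_⟩
  rw [w2Residue_truncate, WittVector.teichmuller_coeff_zero]

omit hX in
lemma isPushout {R : Type u} [CommRing R] [Fact ((p : R) = 0)] (τ : FrobSplit p R) (j : k →+* R)
    [CharP k p] :
    IsPushout (CommRingCat.ofHom (τ.structHom j)) (CommRingCat.ofHom (w2Residue p k))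
      (CommRingCat.ofHom τ.red) (CommRingCat.ofHom j) := by
  refine ⟨⟨?_⟩, ⟨PushoutCocone.IsColimit.mk _ (fun c ↦ CommRingCat.ofHom
    (isPushout_aux τ j c).choose) ?_ ?_ ?_⟩⟩
  · rw [← CommRingCat.ofHom_comp, ← CommRingCat.ofHom_comp, FrobSplit.red_comp_structHom]
  · intro c
    ext1
    exact (isPushout_aux τ j c).choose_spec
  · intro c
    ext1
    refine RingHom.ext fun x ↦ ?_
    obtain ⟨y, rfl⟩ := w2Residue_surjective (p := p) x
    have h := RingHom.congr_fun (congrArg CommRingCat.Hom.hom c.condition) y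
    have h3 : c.inl.hom (τ.structHom j y) = c.inr.hom (w2Residue p k y) := h
    rw [← h3]
    have h4 := RingHom.congr_fun (FrobSplit.red_comp_structHom τ j) y
    have h5 : τ.red (τ.structHom j y) = j (w2Residue p k y) := h4
    change (isPushout_aux τ j c).choose (j (w2Residue p k y)) = _
    rw [← h5]
    exact RingHom.congr_fun (isPushout_aux τ j c).choose_spec _
  · intro c m hm _
    ext1
    refine RingHom.ext fun x ↦ ?_
    obtain ⟨y, rfl⟩ := τ.red_surjective x
    have h := RingHom.congr_fun (congrArg CommRingCat.Hom.hom hm) y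
    change m.hom (τ.red y) = c.inl.hom y at h
    change m.hom (τ.red y) = (isPushout_aux τ j c).choose (τ.red y)
    rw [h]
    exact (RingHom.congr_fun (isPushout_aux τ j c).choose_spec _).symm

set_option backward.isDefEq.respectTransparency false in
lemma isPullback_chart (U : X.AffineZariskiSite) :
    IsPullback (σ.thickening.app U) U.2.fromSpec (σ.chart U) σ.incl := by
  have : IsOpenImmersion U.2.fromSpec := U.2.isOpenImmersion_fromSpec
  refine (IsOpenImmersion.isPullback (σ.thickening.app U) U.2.fromSpec (σ.chart U) σ.incl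
    (σ.fromSpec_incl U) ?_)
  ext x
  constructor
  · rintro ⟨u, hu⟩
    obtain ⟨V, y, rfl⟩ : ∃ (V : X.AffineZariskiSite) (y : Spec Γ(X, V.toOpens)),
        V.2.fromSpec y = x := by
      obtain ⟨V, y, hy⟩ := (Scheme.AffineZariskiSite.directedCover X).exists_eq x
      refine ⟨V, V.2.isoSpec.hom y, ?_⟩
      rw [← Scheme.Hom.comp_apply, IsAffineOpen.isoSpec_hom_fromSpec]
      exact hy
    rw [← Scheme.Hom.comp_apply, fromSpec_incl, Scheme.Hom.comp_apply] at hu
    obtain ⟨W, fU, fV, w, h1, h2⟩ := (Scheme.IsLocallyDirected.ι_eq_ι_iff σ.diagram).mp hu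
    obtain ⟨w, rfl⟩ := (σ.thickening_bijective W).2 w
    rw [← Scheme.Hom.comp_apply, ← σ.thickening.naturality, Scheme.Hom.comp_apply] at h2
    have h3 := (σ.thickening_bijective V).1 h2
    rw [← h3]
    have h4 := (Scheme.AffineZariskiSite.cocone X).w fV
    have h5 := (Scheme.AffineZariskiSite.cocone X).w fU
    refine ⟨(baseDiagram X).map fU w, ?_⟩
    exact congrArg (fun g : (baseDiagram X).obj W ⟶ X ↦ g w) (h5.trans h4.symm)
  · rintro ⟨u, rfl⟩
    refine ⟨σ.thickening.app U u, ?_⟩
    rw [← Scheme.Hom.comp_apply, ← Scheme.Hom.comp_apply, fromSpec_incl]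

omit hX in
lemma isPullback_affine {R : Type u} [CommRing R] [Fact ((p : R) = 0)] (τ : FrobSplit p R)
    (j : k →+* R) [CharP k p] :
    IsPullback (Spec.map (CommRingCat.ofHom τ.red)) (Spec.map (CommRingCat.ofHom j))
      (Spec.map (CommRingCat.ofHom (τ.structHom j)))
      (Spec.map (CommRingCat.ofHom (w2Residue p k))) :=
  isPullback_SpecMap_of_isPushout _ _ _ _ (isPushout τ j)

lemma isPullback_chart_str [CharP k p] (U : X.AffineZariskiSite) :
    IsPullback (σ.thickening.app U) (U.2.fromSpec ≫ s) (σ.chart U ≫ σ.str s)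
      (Spec.map (CommRingCat.ofHom (w2Residue p k))) := by
  have h1 := isPullback_affine (σ.split U) (const s U)
  rw [← chart_str] at h1
  exact (congrArg (fun g ↦ IsPullback (σ.thickening.app U) g (σ.chart U ≫ σ.str s)
    (Spec.map (CommRingCat.ofHom (w2Residue p k)))) (fromSpec_const s U)).mpr h1

set_option backward.isDefEq.respectTransparency false in
theorem isPullback [CharP k p] : IsPullback σ.incl s (σ.str s)
    (Spec.map (CommRingCat.ofHom (w2Residue p k))) := by
  refine Scheme.isPullback_of_openCover _ _ _ _ (Scheme.IsLocallyDirected.openCover σ.diagram) ?_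
  intro (U : X.AffineZariskiSite)
  have h1 := σ.isPullback_chart U
  have h2 := σ.isPullback_chart_str s U
  refine IsPullback.of_iso h2 h1.flip.isoPullback (Iso.refl _) (Iso.refl _) (Iso.refl _) ?_ ?_ ?_ ?_
  · rw [Iso.refl_hom, Category.comp_id]
    exact h1.flip.isoPullback_hom_snd.symm
  · rw [Iso.refl_hom, Category.comp_id]
    refine Eq.trans ?_ (Category.assoc _ _ _)
    exact congrArg (fun g ↦ g ≫ s) h1.flip.isoPullback_hom_fst.symm
  · simp [chart]
  · simp

end Structure

end SchemeSplit

end Pool.Agent.H14
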