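import Pool.Agent.H14.ModH
import Pool.Agent.H14.Centers
import Pool.Agent.H14.Glue

/-!
# From a splitting of the function field to a lifting over `W₂(k)`
-/

set_option autoImplicit false

universe u

open CategoryTheory AlgebraicGeometry

namespace Pool.Agent.H14

open Cluster

variable {k : Type u} [Field k]

section

variable (V : IntegralScheme k)

/-- Sections as rational functions. -/
noncomputable def gK (U : V.X.Opens) [Nonempty U] : Γ(V.X, U) →+* V.K :=
  (V.X.germToFunctionField U).hom

lemma gK_injective (U : V.X.Opens) [Nonempty U] : Function.Injective (gK V U) :=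
  V.X.germToFunctionField_injective U

lemma gK_eq (U : V.X.Opens) [Nonempty U] (x : V.Pt) (hx : x ∈ (U : Set V.X))
    (f : Γ(V.X, U)) :
    gK V U f = toK V x ((V.X.presheaf.germ U x hx).hom f) := by
  have h1 := TopCat.Presheaf.germ_stalkSpecializes V.X.presheaf (U := U) hx
    (genericPoint_specializes (α := V.X) x)
  exact (congr_arg (fun g ↦ g.hom f) h1).symm

lemma gK_mem (U : V.X.Opens) [Nonempty U] (x : V.Pt) (hx : x ∈ (U : Set V.X))
    (f : Γ(V.X, U)) : gK V U f ∈ V.localRing x := by
  rw [gK_eq V U x hx]
  exact toK_mem V x _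

lemma gK_res (U W : V.X.Opens) [Nonempty U] [Nonempty W] (h : U ≤ W)
    (f : Γ(V.X, W)) :
    gK V U ((V.X.presheaf.map (homOfLE h).op).hom f) = gK V W f := by
  have h1 := V.X.presheaf.germ_res (homOfLE h) (genericPoint V.X)
    (((genericPoint_spec V.X).mem_open_set_iff U.isOpen).mpr (by simpa using ‹Nonempty U›))
  exact congr_arg (fun g ↦ g.hom f) h1

variable {p : ℕ} (σ : FrobSplit p V.K)
  (hσ : ∀ (x : V.Pt), ∀ g ∈ V.localRing x, σ.toHom g ∈ V.localRing x)

include hσ in
lemma exists_section (U : V.X.Opens) [Nonempty U] (hU : IsAffineOpen U) (f : Γ(V.X, U)) :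
    ∃ f' : Γ(V.X, U), gK V U f' = σ.toHom (gK V U f) :=
  mem_range_germToFunctionField V U hU _ fun x hx ↦
    hσ x _ (gK_mem V U x hx f)

/-- The splitting of the ring of sections over an affine open. -/
noncomputable def sectionSplit₁ (U : V.X.Opens) (h : Nonempty U) (hU : IsAffineOpen U) :
    FrobSplit p Γ(V.X, U) where
  toHom :=
    { toFun f := (exists_section V σ hσ U hU f).choose
      map_zero' := by
        apply gK_injective V U
        rw [(exists_section V σ hσ U hU 0).choose_spec, map_zero, map_zero]
      map_add' f g := by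
        apply gK_injective V U
        rw [(exists_section V σ hσ U hU (f + g)).choose_spec, map_add, map_add, map_add,
          (exists_section V σ hσ U hU f).choose_spec, (exists_section V σ hσ U hU g).choose_spec] }
  pow_mul' f g := by
    apply gK_injective V U
    change gK V U (exists_section V σ hσ U hU (f ^ p * g)).choose =
      gK V U (f * (exists_section V σ hσ U hU g).choose)
    rw [(exists_section V σ hσ U hU (f ^ p * g)).choose_spec, map_mul, map_pow, σ.pow_mul',
      map_mul, (exists_section V σ hσ U hU g).choose_spec]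
  one' := by
    apply gK_injective V U
    change gK V U (exists_section V σ hσ U hU 1).choose = gK V U 1
    rw [(exists_section V σ hσ U hU 1).choose_spec, map_one, σ.one']

lemma gK_sectionSplit₁ (U : V.X.Opens) (h : Nonempty U) (hU : IsAffineOpen U) (f : Γ(V.X, U)) :
    gK V U ((sectionSplit₁ V σ hσ U h hU).toHom f) = σ.toHom (gK V U f) :=
  (exists_section V σ hσ U hU f).choose_spec

lemma subsingleton_of_not_nonempty (U : V.X.Opens) (h : ¬ Nonempty U) :
    Subsingleton Γ(V.X, U) := by
  have h1 : U = ⊥ := by
    ext x
    simp only [TopologicalSpace.Opens.coe_bot, Set.mem_empty_iff_false, iff_false]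
    exact fun hx ↦ h ⟨⟨x, hx⟩⟩
  rw [h1]
  infer_instance

open Classical in
/-- The splitting of the ring of sections over an affine open. -/
noncomputable def sectionSplit (U : V.X.Opens) (hU : IsAffineOpen U) : FrobSplit p Γ(V.X, U) :=
  if h : Nonempty U then sectionSplit₁ V σ hσ U h hU
  else
    { toHom := 0
      pow_mul' := fun _ _ ↦ by
        have := subsingleton_of_not_nonempty V U h
        exact Subsingleton.elim _ _
      one' := by
        have := subsingleton_of_not_nonempty V U h
        exact Subsingleton.elim _ _ }


lemma gK_sectionSplit (U : V.X.Opens) [h : Nonempty U] (hU : IsAffineOpen U) (f : Γ(V.X, U)) :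
    gK V U ((sectionSplit V σ hσ U hU).toHom f) = σ.toHom (gK V U f) := by
  rw [sectionSplit, dif_pos h]
  exact gK_sectionSplit₁ V σ hσ U h hU f

/-- The splitting of the scheme. -/
noncomputable def schemeSplit : SchemeSplit p V.X where
  split U := sectionSplit V σ hσ U.toOpens U.2
  compat := by
    intro U W h f
    by_cases hU : Nonempty U.toOpens
    · have hle := Scheme.AffineZariskiSite.toOpens_mono h
      have hW : Nonempty W.toOpens := ⟨⟨hU.some.1, hle hU.some.2⟩⟩
      apply gK_injective V U.toOpens
      have h1 := gK_res V U.toOpens W.toOpens hle f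
      have h2 := gK_res V U.toOpens W.toOpens hle
        ((sectionSplit V σ hσ W.toOpens W.2).toHom f)
      rw [gK_sectionSplit, res]
      exact (congr_arg σ.toHom h1).trans ((gK_sectionSplit V σ hσ W.toOpens W.2 f).symm.trans h2.symm)
    · have := subsingleton_of_not_nonempty V U.toOpens hU
      exact Subsingleton.elim _ _

variable [hp : Fact p.Prime] [CharP k p] [PerfectRing k p]

omit hp [PerfectRing k p] in
lemma cast_eq_zero (U : V.X.Opens) : (p : Γ(V.X, U)) = 0 := by
  by_cases hU : Nonempty U
  · apply gK_injective V U
    rw [map_natCast, map_zero, ← map_natCast (algebraMap k V.K), CharP.cast_eq_zero, map_zero]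
  · have := subsingleton_of_not_nonempty V U hU
    exact Subsingleton.elim _ _

omit [CharP k p] [PerfectRing k p] in
lemma residueMap_eq : residueMap k p = w2Residue p k := by
  ext x; rfl

include σ hσ in
/-- If the function field has a splitting which preserves all local rings, then the scheme lifts
over `W₂(k)`. -/
theorem liftsOverW2_of_split : LiftsOverW2 p V := by
  have : ∀ U : V.X.AffineZariskiSite, Fact ((p : Γ(V.X, U.toOpens)) = 0) :=
    fun U ↦ ⟨cast_eq_zero V U.toOpens⟩
  let τ := schemeSplit V σ hσ
  exact ⟨τ.lift, τ.str V.str, τ.incl, SchemeSplit.flat_str τ V.str, by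
    rw [residueMap_eq]; exact τ.isPullback V.str⟩

end

end Pool.Agent.H14
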