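import Pool.Agent.H14.Transport
import Pool.Agent.H14.ProjNormal
import Pool.Agent.H14.SplitLift

/-!
# Pairs crepant birational to projective space with its toric boundary lift over `W₂(k)`
-/

set_option autoImplicit false

universe u

open CategoryTheory AlgebraicGeometry

namespace Pool.Agent.H14

open Cluster Module KaehlerDifferential

variable {k : Type u} [Field k]

section Coordinates

variable {Y : IntegralScheme k} {n : ℕ} (q : BirMor Y (projSpace k n))

/-- The coordinates `X_l / X_0` as rational functions on `Y`. -/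
noncomputable def yc (l : Fin n) : Y.K := q.pull (chart k n 0 l)

lemma isCoord_yc : IsCoord k (yc q) :=
  isCoord_map q.pull (pull_algebraMap q) (pull_bijective q).2 (isCoord_chart 0)

lemma isDVRIn_projSpace {z : (projSpace k n).Pt} (hz : (projSpace k n).CodimOne z) :
    IsDVRIn ((projSpace k n).localRing z) := by
  have := isLocallyNoetherian_of_isProper (projSpace_isProper (k := k) n)
  exact exists_hasOrd (projSpace k n) (projSpace_normal n) z hz

end Coordinates

section Main

variable {Y X : IntegralScheme k}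
  (q : BirMor Y (projSpace k (Module.finrank Y.K Ω[Y.K⁄k]))) (q' : BirMor Y X)

/-- The order of the logarithmic form along the prime divisors of projective space. -/
lemma hasFormOrd_projSpace {z : (projSpace k (Module.finrank Y.K Ω[Y.K⁄k])).Pt}
    (hz : (projSpace k (Module.finrank Y.K Ω[Y.K⁄k])).CodimOne z) :
    ∃ e : ℤ, (e : ℚ) = - toricBoundary _ z ∧
      HasFormOrd (q.localRing z) (IsCoord.logForm (k := k) (yc q)) e := by
  obtain ⟨i, hi⟩ := exists_notMem_hyperplane z
  have hx := isCoord_yc q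
  have hy : IsCoord k (fun l ↦ q.pull (chart k _ i l)) :=
    isCoord_map q.pull (pull_algebraMap q) (pull_bijective q).2 (isCoord_chart i)
  have hloc : IsCoord.IsLocIn k (chart k _ i) ((projSpace k _).localRing z) :=
    ⟨algebraMap_mem_localRing_proj z, chart_mem_localRing hi,
      fun g hg ↦ exists_of_mem_localRing hi hg⟩
  have hyR : IsCoord.IsLocIn k (fun l ↦ q.pull (chart k _ i l)) (q.localRing z) :=
    isLocIn_map q.pull (pull_algebraMap q) hloc
  have hR : IsDVRIn (q.localRing z) :=
    isDVRIn_map q.pull (pull_bijective q).2 (isDVRIn_projSpace hz)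
  obtain ⟨c, hc⟩ := hx.exists_jac_chart (fun i ↦ q.pull (hc k _ i))
    (fun i ↦ (map_ne_zero q.pull).mpr (hc_ne_zero i))
    (fun l ↦ by rw [yc, chart, map_div₀, Fin.zero_succAbove]) i
  have hc' : hx.jac (fun l ↦ q.pull (chart k _ i l)) = c * ∏ l, q.pull (chart k _ i l) := by
    simp only [chart, map_div₀]
    exact hc
  have hmem : ∀ l, (q.pull (chart k _ i l))⁻¹ ∈ q.localRing z ↔
      z ∉ hyperplane _ (i.succAbove l) := by
    intro l
    rw [← inv_chart_mem_localRing_iff hi l, ← map_inv₀]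
    exact mem_map_iff' q.pull
  rcases hx.hasFormOrd_of_chart hy hyR hR c hc' with ⟨h1, h2⟩ | ⟨⟨l, hl⟩, h2⟩
  · refine ⟨0, ?_, h2⟩
    rw [toricBoundary, if_neg, Int.cast_zero, neg_zero]
    rintro ⟨-, j, hj⟩
    rcases Fin.eq_self_or_eq_succAbove i j with rfl | ⟨l, rfl⟩
    · exact hi hj
    · exact (hmem l).mp (h1 l) hj
  · refine ⟨-1, ?_, h2⟩
    rw [toricBoundary, if_pos, Int.cast_neg, Int.cast_one]
    refine ⟨hz, i.succAbove l, ?_⟩
    by_contra h
    exact hl ((hmem l).mpr h)

/-- An element of `K(Y)` which has order zero along all prime divisors of projective space through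
the image of `y` is a unit at `y`. -/
lemma isUnitIn_of_hasOrd {n : ℕ} {q : BirMor Y (projSpace k n)} {y : Y.Pt} {u : Y.K}
    (hu : ∀ z, (projSpace k n).CodimOne z → z ⤳ q.pt y → HasOrd (q.localRing z) u 0) (hu0 : u ≠ 0) :
    IsUnitIn (Y.localRing y) u := by
  have hN := isLocallyNoetherian_of_isProper (projSpace_isProper (k := k) n)
  have key : ∀ u : Y.K, (∀ z, (projSpace k n).CodimOne z → z ⤳ q.pt y →
      HasOrd (q.localRing z) u 0) → u ∈ Y.localRing y := by
    intro u hu
    obtain ⟨u', rfl⟩ := (pull_bijective q).2 u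
    apply localRing_le q y
    refine ⟨u', mem_localRing_of_codimOne (projSpace k n) (projSpace_normal n) _ u' ?_, rfl⟩
    intro z hz hzy
    exact (mem_map_iff' q.pull).mp ((hu z hz hzy).mem_iff.mpr le_rfl)
  refine ⟨hu0, key u hu, key u⁻¹ fun z hz hzy ↦ ?_⟩
  simpa using (hu z hz hzy).inv

/-- The main local statement: if `(X, B)` is crepant birational to projective space with its toric
boundary, then the logarithmic form has order `-B(w) ≤ 0` along each prime divisor `w` of `X`. -/
theorem exists_hasFormOrd (hY : IsNormalProjective Y) (hX : IsNormalProjective X) (B : X.Pt → ℚ)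
    (hcr : IsCrepant q q' (toricBoundary _) B) {w : X.Pt} (hw : X.CodimOne w) :
    IsDVRIn (q'.localRing w) ∧ ∃ e : ℤ, (e : ℚ) = - B w ∧
      HasFormOrd (q'.localRing w) (IsCoord.logForm (k := k) (yc q)) e := by
  have hXp := isProper_of_isNormalProjective hX
  have hYp := isProper_of_isNormalProjective hY
  have hXN := isLocallyNoetherian_of_isProper hXp
  have hYN := isLocallyNoetherian_of_isProper hYp
  have hx := isCoord_yc q
  have hRX : IsDVRIn (X.localRing w) := exists_hasOrd X hX.normal w hw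
  have hR' : IsDVRIn (q'.localRing w) := isDVRIn_map q'.pull (pull_bijective q').2 hRX
  refine ⟨hR', ?_⟩
  obtain ⟨y, hy, hyw, hloc⟩ := exists_codimOne_over q' hYp hXp w hw hRX
  obtain ⟨ω, D, D', hD, hD', hcr⟩ := hcr
  obtain ⟨c, ⟨m₁, g₁, a₁, hm₁, hg₁, ha₁, hc₁⟩, ⟨m₂, g₂, a₂, hm₂, hg₂, ha₂, hc₂⟩⟩ := hcr y hy
  have hω : ω = hx.formCoord ω • IsCoord.logForm (yc q) := hx.eq_formCoord_smul ω
  have hf0 : hx.formCoord ω ≠ 0 := by
    intro h
    rw [h, zero_smul] at hω
    exact (hD' w hw).1 hω
  generalize hx.formCoord ω = f at hω hf0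
  subst hω
  -- the order of `f` along `w`
  have hR : IsDVRIn (Y.localRing y) := by rw [hloc]; exact hR'
  obtain ⟨a, ha⟩ := hR f hf0
  -- first computation of the coefficient
  have h1 : a₁ = m₁ * a := by
    obtain ⟨U, hU, hyU, hUg⟩ := hg₁
    have hg0 : g₁ ≠ 0 := ha₁.ne_zero
    have hunit : IsUnitIn (Y.localRing y) (g₁ * (f ^ m₁)⁻¹) := by
      refine isUnitIn_of_hasOrd (q := q) ?_ (mul_ne_zero hg0 (inv_ne_zero (pow_ne_zero _ hf0)))
      intro z hz hzy
      obtain ⟨az, haz, hgz⟩ := hUg z (hzy.mem_open hU hyU) hz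
      have hRz : IsDVRIn (q.localRing z) :=
        isDVRIn_map q.pull (pull_bijective q).2 (isDVRIn_projSpace hz)
      obtain ⟨bz, hbz⟩ := hRz f hf0
      obtain ⟨e, he, hez⟩ := hasFormOrd_projSpace q hz
      have h2 := hasFormOrd_unique hRz (hasFormOrd_of_smul hRz (hD z hz) hbz) hez
      have h3 : (az : ℚ) = m₁ * bz := by
        have h4 : (D z : ℚ) = bz + e := by
          have : D z = bz + e := by omega
          exact_mod_cast this
        have haz' : (az : ℚ) = m₁ * (D z + toricBoundary _ z) := haz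
        rw [haz', h4, he]
        ring
      have h5 : az = m₁ * bz := by exact_mod_cast h3
      have h6 := hRz.hasOrd_mul hgz (hbz.pow m₁).inv
      rw [h5, add_neg_cancel] at h6
      exact h6
    have h7 := hR.hasOrd_mul (hR.hasOrd_of_isUnitIn hunit) (ha.pow m₁)
    rw [zero_add, inv_mul_cancel_right₀ (pow_ne_zero _ hf0)] at h7
    exact hR.hasOrd_unique ha₁ h7
  -- second computation of the coefficient
  have h2 : (a₂ : ℚ) = m₂ * (D' w + B w) := by
    obtain ⟨U, hU, hyU, hUg⟩ := hg₂
    rw [hyw] at hyU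
    obtain ⟨aw, haw, hgw⟩ := hUg w hyU hw
    rw [← hloc] at hgw
    rw [hR.hasOrd_unique ha₂ hgw, haw]
  have hm₁' : (m₁ : ℚ) ≠ 0 := by exact_mod_cast hm₁.ne'
  have hm₂' : (m₂ : ℚ) ≠ 0 := by exact_mod_cast hm₂.ne'
  have h3 : (a : ℚ) = D' w + B w := by
    have h4 : (a₁ : ℚ) = m₁ * a := by exact_mod_cast h1
    rw [h4, mul_div_cancel_left₀ _ hm₁'] at hc₁
    rw [h2, mul_div_cancel_left₀ _ hm₂'] at hc₂
    rw [← hc₁, hc₂]
  refine ⟨D' w - a, ?_, ?_⟩
  · push_cast
    rw [h3]; ring
  · refine hasFormOrd_of_smul hR' (hD' w hw) ?_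
    rw [← hloc]
    exact ha

variable {p : ℕ} [hp : Fact p.Prime] [CharP k p] [PerfectRing k p]

/-- The toric splitting preserves the local rings of `X` in codimension one. -/
theorem phi_mem_of_codimOne (hY : IsNormalProjective Y) (hX : IsNormalProjective X) (B : X.Pt → ℚ)
    (hB : ∀ x, 0 ≤ B x) (hcr : IsCrepant q q' (toricBoundary _) B) {w : X.Pt} (hw : X.CodimOne w)
    (g : Y.K) (hg : g ∈ q'.localRing w) :
    ((isCoord_yc q).phi p).toHom g ∈ q'.localRing w := by
  obtain ⟨hR, e, he, hf⟩ := exists_hasFormOrd q q' hY hX B hcr hw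
  have h1 : e ≤ 0 := by
    have := hB w
    have h2 : (e : ℚ) ≤ 0 := by rw [he]; linarith
    exact_mod_cast h2
  have h2 := (isCoord_yc q).neg_one_le_of_hasFormOrd hR hf
  obtain ⟨r, hr, rfl⟩ : ∃ r : ℕ, r ≤ 1 ∧ e = -(r : ℤ) := ⟨(-e).toNat, by omega, by omega⟩
  exact (isCoord_yc q).phi_mem hR hr hf g hg

/-- A log pair which is crepant birational to projective space with its toric boundary lifts over
`W₂(k)`. -/
theorem liftsOverW2_of_crepant (hY : IsNormalProjective Y) (hX : IsNormalProjective X)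
    (B : X.Pt → ℚ) (hB : ∀ x, 0 ≤ B x) (hcr : IsCrepant q q' (toricBoundary _) B) :
    LiftsOverW2 p X := by
  have hXN := isLocallyNoetherian_of_isProper (isProper_of_isNormalProjective hX)
  let e : X.K ≃+* Y.K := RingEquiv.ofBijective q'.pull (pull_bijective q')
  have he : ∀ g, e g = q'.pull g := fun _ ↦ rfl
  let φ := (isCoord_yc q).phi p
  let σ : FrobSplit p X.K :=
    { toHom := (e.symm.toAddMonoidHom.comp φ.toHom).comp e.toAddMonoidHom
      pow_mul' := fun a b ↦ by
        change e.symm (φ.toHom (e (a ^ p * b))) = a * e.symm (φ.toHom (e b))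
        rw [map_mul, map_pow, φ.pow_mul', map_mul, e.symm_apply_apply]
      one' := by
        change e.symm (φ.toHom (e 1)) = 1
        rw [map_one, φ.one', map_one] }
  have hσ : ∀ g, q'.pull (σ.toHom g) = φ.toHom (q'.pull g) := fun g ↦
    e.apply_symm_apply (φ.toHom (e g))
  refine liftsOverW2_of_split X σ fun x g hg ↦ ?_
  refine mem_localRing_of_codimOne X hX.normal x _ fun z hz hzx ↦ ?_
  have h1 : g ∈ X.localRing z := by
    obtain ⟨t, rfl⟩ := hg
    refine ⟨(X.X.presheaf.stalkSpecializes hzx).hom t, ?_⟩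
    have h2 := TopCat.Presheaf.stalkSpecializes_comp X.X.presheaf
      (genericPoint_specializes (α := X.X) z) hzx
    exact congr_arg (fun f ↦ f.hom t) h2
  rw [← mem_map_iff' q'.pull, hσ]
  exact phi_mem_of_codimOne q q' hY hX B hB hcr hz _ ⟨g, h1, rfl⟩

end Main

/-- Every cluster type variety lifts over `W₂(k)`. -/
theorem liftsOverW2_of_isClusterTypeVariety (p : ℕ) [Fact p.Prime] [CharP k p] [PerfectRing k p]
    {X : IntegralScheme k} (hX : IsClusterTypeVariety X) : LiftsOverW2 p X := by
  obtain ⟨B, hlcy, n, Y, q, q', hY, hcr, -⟩ := hX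
  have hn : Module.finrank Y.K Ω[Y.K⁄k] = n := (isCoord_yc q).finrank_eq
  subst hn
  exact liftsOverW2_of_crepant q q' hY hlcy.logPair.variety B hlcy.logPair.effective hcr

end Pool.Agent.H14
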