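import Pool.Agent.H14.CartierOne

/-!
# Derivations in characteristic `p`
-/


set_option autoImplicit false

namespace Pool.Agent.H14

open Module MvPolynomial KaehlerDifferential

section Der

variable {k K : Type*} [Field k] [Field K] [Algebra k K]

open Finset Nat in
/-- The general Leibniz rule. -/
lemma derivation_iterate_mul (d : Derivation k K K) (n : ℕ) (a b : K) :
    d^[n] (a * b) = ∑ ij ∈ antidiagonal n, choose n ij.1 • (d^[ij.1] a * d^[ij.2] b) := by
  induction n with
  | zero => simp
  | succ n ih =>
    rw [sum_antidiagonal_choose_succ_nsmul (M := K) (fun i j => d^[i] a * d^[j] b) n]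
    simp only [Function.iterate_succ_apply', ih, map_sum, map_nsmul, Derivation.leibniz, smul_add,
      sum_add_distrib, smul_eq_mul]
    congr 1
    refine sum_congr rfl fun ⟨i, j⟩ hij ↦ ?_
    rw [n.choose_symm_of_eq_add (mem_antidiagonal.1 hij).symm, mul_comm]

variable {p : ℕ} [hp : Fact p.Prime] [CharP K p]

omit [CharP K p] in
lemma derivation_iterate_add (d : Derivation k K K) (n : ℕ) (a b : K) :
    d^[n] (a + b) = d^[n] a + d^[n] b := by
  induction n with
  | zero => rfl
  | succ n ih => rw [Function.iterate_succ_apply', ih, map_add, Function.iterate_succ_apply',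
      Function.iterate_succ_apply']

/-- In characteristic `p` the `p`-th iterate of a derivation is a derivation. -/
noncomputable def derivationPow (p : ℕ) [hp : Fact p.Prime] [CharP K p] (d : Derivation k K K) :
    Derivation k K K :=
  Derivation.mk'
    { toFun := d^[p]
      map_add' := derivation_iterate_add d p
      map_smul' := by
        intro c b
        rw [RingHom.id_apply]
        have : ∀ n, d^[n] (c • b) = c • d^[n] b := by
          intro n
          induction n with
          | zero => rfl
          | succ n ih => rw [Function.iterate_succ_apply', ih, d.map_smul,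
              Function.iterate_succ_apply']
        exact this p }
    (by
      intro a b
      change d^[p] (a * b) = a * d^[p] b + b * d^[p] a
      rw [derivation_iterate_mul]
      have h1 : ∀ ij ∈ Finset.HasAntidiagonal.antidiagonal p, ij ≠ (0, p) ∧ ij ≠ (p, 0) →
          (p.choose ij.1 • (d^[ij.1] a * d^[ij.2] b) : K) = 0 := by
        rintro ⟨i, j⟩ hij ⟨h0, h1⟩
        rw [Finset.HasAntidiagonal.mem_antidiagonal] at hij
        simp only at hij
        have hi : i ≠ 0 := by
          rintro rfl; apply h0; simp at hij; rw [hij]
        have hi' : i ≠ p := by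
          rintro rfl; apply h1; simp at hij; rw [hij]
        have h2 : p ∣ p.choose i := hp.out.dvd_choose_self hi (by omega)
        rw [← Nat.cast_smul_eq_nsmul K, (CharP.cast_eq_zero_iff K p _).mpr h2, zero_smul]
      rw [← Finset.sum_subset (s₁ := {(0, p), (p, 0)})]
      · rw [Finset.sum_pair]
        · simp [mul_comm]
        · intro h
          have := congr_arg Prod.fst h
          exact hp.out.ne_zero this.symm
      · intro ij hij
        simp only [Finset.mem_insert, Finset.mem_singleton] at hij
        rcases hij with rfl | rfl <;> simp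
      · intro ij hij hij'
        simp only [Finset.mem_insert, Finset.mem_singleton, not_or] at hij'
        exact h1 ij hij hij')

lemma derivationPow_apply (d : Derivation k K K) (b : K) : derivationPow p d b = d^[p] b := rfl

omit hp [CharP K p] in
/-- `f = c_r t^r d^r f + d g`. -/
lemma exists_eq_add_der (d : Derivation k K K) (t : K) (ht : d t = 1) (f : K) (r : ℕ)
    (hr : ((r.factorial : ℕ) : K) ≠ 0) :
    ∃ g, f = (-1) ^ r * ((r.factorial : ℕ) : K)⁻¹ * t ^ r * d^[r] f + d g := by
  induction r with
  | zero => exact ⟨0, by simp⟩
  | succ r ih =>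
    have hr' : ((r.factorial : ℕ) : K) ≠ 0 := by
      intro h
      apply hr
      rw [Nat.factorial_succ]; push_cast; rw [h, mul_zero]
    have hr1 : ((r + 1 : ℕ) : K) ≠ 0 := by
      intro h
      apply hr
      rw [Nat.factorial_succ]; push_cast at h ⊢; rw [h, zero_mul]
    obtain ⟨g, hg⟩ := ih hr'
    refine ⟨g + (-1) ^ r * (((r + 1).factorial : ℕ) : K)⁻¹ * t ^ (r + 1) * d^[r] f, ?_⟩
    rw [map_add, Derivation.leibniz, Derivation.leibniz _ ((-1) ^ r * _), Derivation.leibniz_pow,
      Derivation.leibniz, Derivation.leibniz_inv, Derivation.map_natCast, Derivation.leibniz_pow,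
      Derivation.map_neg, Derivation.map_one_eq_zero, ht, ← Function.iterate_succ_apply' d r f]
    conv_lhs => rw [hg]
    rw [Nat.factorial_succ]
    push_cast
    simp only [smul_eq_mul, nsmul_eq_mul, mul_zero, neg_zero, add_zero, mul_one]
    push_cast at hr1
    push_cast
    field_simp
    ring

/-- `f = - t^{p-1} d^{p-1} f + d g`. -/
lemma exists_eq_neg_add_der (d : Derivation k K K) (t : K) (ht : d t = 1) (f : K) :
    ∃ g, f = - (t ^ (p - 1) * d^[p - 1] f) + d g := by
  have h1 : (((p - 1).factorial : ℕ) : K) = -1 := by
    have := ZMod.wilsons_lemma p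
    have h2 := congr_arg (ZMod.castHom (dvd_refl p) K) this
    rwa [map_natCast, map_neg, map_one] at h2
  have h3 : ((-1 : K)) ^ (p - 1) = 1 := by
    have h4 : ((-1 : K)) ^ p = -1 := neg_one_pow_char K p
    rw [pow_eq_pow_sub_one_mul p (-1 : K)] at h4
    linear_combination -h4
  obtain ⟨g, hg⟩ := exists_eq_add_der d t ht f (p - 1) (by rw [h1]; exact neg_ne_zero.mpr one_ne_zero)
  refine ⟨g, ?_⟩
  rw [h1, h3, inv_neg_one] at hg
  linear_combination hg

end Der

end Pool.Agent.H14
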