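import Pool.Agent.H14.Orders
import Pool.Agent.H14.CartierLocal

/-!
# Top forms of a purely transcendental extension, and their orders
-/

set_option autoImplicit false

universe u

namespace Pool.Agent.H14

open Module KaehlerDifferential Cluster

variable {k K : Type u} [Field k] [Field K] [Algebra k K]

namespace IsCoord

section General

variable {n : ℕ} {x : Fin n → K} (hx : IsCoord k x)

include hx in
lemma finrank_eq : Module.finrank K Ω[K⁄k] = n := by
  rw [Module.finrank_eq_card_basis hx.basis, Fintype.card_fin]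

end General

variable {x : Fin (Module.finrank K Ω[K⁄k]) → K} (hx : IsCoord k x)

/-- The coordinate of a top form with respect to `dlog x₁ ∧ ⋯ ∧ dlog xₙ`. -/
noncomputable def formCoord : TopForms k K →ₗ[K] K :=
  (exteriorPower.alternatingMapLinearEquiv hx.form :
    (⋀[K]^(Module.finrank K Ω[K⁄k]) Ω[K⁄k]) →ₗ[K] K)

lemma formCoord_wedge (a : Fin (Module.finrank K Ω[K⁄k]) → K) :
    hx.formCoord (wedge k a) = hx.jac a := by
  change exteriorPower.alternatingMapLinearEquiv hx.form (exteriorPower.ιMulti K _ _) = _
  rw [exteriorPower.alternatingMapLinearEquiv_apply_ιMulti]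
  rfl

lemma jac_self : hx.jac x = ∏ i, x i := by
  rw [jac_eq_form]
  simp only [hx.D_eq_smul_logBasis]
  rw [AlternatingMap.map_smul_univ]
  have : hx.form (fun i ↦ hx.logBasis i) = 1 := hx.logBasis.det_self
  rw [this, smul_eq_mul, mul_one]

/-- The form `dlog x₁ ∧ ⋯ ∧ dlog xₙ`. -/
noncomputable def logForm (x : Fin (Module.finrank K Ω[K⁄k]) → K) : TopForms k K :=
  (∏ i, x i)⁻¹ • wedge k x

lemma formCoord_logForm : hx.formCoord (logForm x) = 1 := by
  rw [logForm, map_smul, formCoord_wedge, jac_self, smul_eq_mul, inv_mul_cancel₀]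
  exact Finset.prod_ne_zero_iff.mpr fun i _ ↦ hx.ne_zero i

lemma formCoord_injective : Function.Injective hx.formCoord := by
  have hfin : Module.Finite K Ω[K⁄k] := Module.Finite.of_basis hx.basis
  have h1 : Module.finrank K (TopForms k K) = 1 := by
    have := exteriorPower.finrank_eq K (Module.finrank K Ω[K⁄k]) (M := Ω[K⁄k])
    rw [Nat.choose_self] at this
    exact this
  have h2 : Function.Surjective hx.formCoord := by
    intro c
    exact ⟨c • logForm x, by rw [map_smul, formCoord_logForm, smul_eq_mul, mul_one]⟩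
  have h3 : Module.Finite K (TopForms k K) := by
    have : Module.Finite K (⋀[K]^(Module.finrank K Ω[K⁄k]) Ω[K⁄k]) := inferInstance
    exact this
  exact (LinearMap.injective_iff_surjective_of_finrank_eq_finrank
    (by rw [h1, Module.finrank_self])).mpr h2

lemma eq_formCoord_smul (ω : TopForms k K) : ω = hx.formCoord ω • logForm x := by
  apply hx.formCoord_injective
  rw [map_smul, formCoord_logForm, smul_eq_mul, mul_one]

/-- The group generated by all `r jac a`, for `r, aᵢ ∈ R`. -/
noncomputable def jacModule (R : Subring K) : AddSubgroup K :=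
  AddSubgroup.closure {f | ∃ r ∈ R, ∃ a, (∀ i, a i ∈ R) ∧ f = r * hx.jac a}

lemma mem_formModule_iff (R : Subring K) (ω : TopForms k K) :
    ω ∈ formModule k R ↔ hx.formCoord ω ∈ hx.jacModule R := by
  have h1 : (formModule k R).map hx.formCoord.toAddMonoidHom = hx.jacModule R := by
    rw [formModule, AddMonoidHom.map_closure, jacModule]
    congr 1
    ext f
    constructor
    · rintro ⟨ω, ⟨r, hr, a, ha, rfl⟩, rfl⟩
      exact ⟨r, hr, a, ha, by
        change hx.formCoord _ = _
        rw [map_smul, formCoord_wedge, smul_eq_mul]⟩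
    · rintro ⟨r, hr, a, ha, rfl⟩
      exact ⟨r • wedge k a, ⟨r, hr, a, ha, rfl⟩, by
        change hx.formCoord _ = _
        rw [map_smul, formCoord_wedge, smul_eq_mul]⟩
  rw [← h1]
  constructor
  · intro h
    exact ⟨ω, h, rfl⟩
  · rintro ⟨ω', h', h⟩
    have : ω' = ω := hx.formCoord_injective h
    rwa [← this]

lemma hasFormOrd_iff {R : Subring K} {f : K} {m : ℤ} :
    HasFormOrd R (f • logForm (k := k) x) m ↔ f ≠ 0 ∧ ∃ ϖ : K, IsUniformizer R ϖ ∧
      ∀ g : K, g ∈ hx.jacModule R ↔ ∃ r ∈ R, g = r * ϖ ^ (-m) * f := by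
  have h0 : f • logForm (k := k) x ≠ 0 ↔ f ≠ 0 := by
    constructor
    · rintro h rfl
      exact h (zero_smul _ _)
    · intro h h'
      have := congr_arg hx.formCoord h'
      rw [map_smul, formCoord_logForm, smul_eq_mul, mul_one, map_zero] at this
      exact h this
  rw [HasFormOrd, h0]
  refine and_congr_right fun _ ↦ exists_congr fun ϖ ↦ and_congr_right fun _ ↦ ?_
  constructor
  · intro h g
    have h1 := h (g • logForm x)
    rw [hx.mem_formModule_iff, map_smul, formCoord_logForm, smul_eq_mul, mul_one] at h1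
    rw [h1]
    refine exists_congr fun r ↦ and_congr_right fun _ ↦ ?_
    rw [smul_smul]
    constructor
    · intro h2
      have := congr_arg hx.formCoord h2
      rwa [map_smul, map_smul, formCoord_logForm, smul_eq_mul, mul_one, smul_eq_mul, mul_one] at this
    · rintro rfl; rfl
  · intro h ω
    rw [hx.mem_formModule_iff, h]
    refine exists_congr fun r ↦ and_congr_right fun _ ↦ ?_
    constructor
    · intro h2
      rw [hx.eq_formCoord_smul ω, h2, smul_smul]
    · rintro rfl
      rw [smul_smul, map_smul, formCoord_logForm, smul_eq_mul, mul_one]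

end IsCoord

end Pool.Agent.H14
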