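import Pool.Agent.H14.FormOrd

/-!
# Poles of the logarithmic form; stability under the toric splitting
-/

set_option autoImplicit false

universe u

namespace Pool.Agent.H14

open Module KaehlerDifferential Cluster

variable {k K : Type u} [Field k] [Field K] [Algebra k K]

namespace IsCoord

variable {x : Fin (Module.finrank K Ω[K⁄k]) → K} (hx : IsCoord k x) {R : Subring K}

lemma mul_jac_mem (r : K) (hr : r ∈ R) (a : Fin (Module.finrank K Ω[K⁄k]) → K)
    (ha : ∀ i, a i ∈ R) : r * hx.jac a ∈ hx.jacModule R :=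
  AddSubgroup.subset_closure ⟨r, hr, a, ha, rfl⟩

/-- T5: `dlog x₁ ∧ ⋯ ∧ dlog xₙ` has at most a simple pole along every prime divisor. -/
theorem uniformizer_mem_jacModule (hR : IsDVRIn R) {ϖ : K} (hϖ : IsUniformizer R ϖ) :
    ϖ ∈ hx.jacModule R := by
  choose m hm using fun j ↦ hR (x j) (hx.ne_zero j)
  choose u hu hxu using fun j ↦ hR.exists_unit hϖ (hm j)
  have hϖ0 := hϖ.ne_zero
  have h1 : ∀ j, hx.logBasis j = ((u j)⁻¹ • D k K (u j)) + ((m j : K) * ϖ⁻¹) • D k K ϖ := by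
    intro j
    rw [logBasis_apply]
    have h2 : D k K (x j) = ϖ ^ (m j) • D k K (u j) + (u j * m j * ϖ ^ (m j - 1)) • D k K ϖ := by
      conv_lhs => rw [hxu j]
      rw [Derivation.leibniz, Derivation.leibniz_zpow, add_comm, ← Int.cast_smul_eq_zsmul K,
        smul_smul, smul_smul, mul_assoc (u j)]
    rw [h2, smul_add, smul_smul, smul_smul, hxu j]
    have h3 := (hu j).1
    congr 2
    · rw [mul_inv, mul_assoc, inv_mul_cancel₀ (zpow_ne_zero _ hϖ0), mul_one]
    · rw [zpow_sub_one₀ hϖ0]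
      have := zpow_ne_zero (m j) hϖ0
      field_simp
  have h2 : (1 : K) = hx.form ((fun j ↦ (u j)⁻¹ • D k K (u j)) +
      fun j ↦ ((m j : K) * ϖ⁻¹) • D k K ϖ) := by
    have h3 : ((fun j ↦ (u j)⁻¹ • D k K (u j)) + fun j ↦ ((m j : K) * ϖ⁻¹) • D k K ϖ) =
      fun j ↦ hx.logBasis j := by
      ext j; rw [h1 j]; rfl
    rw [h3]
    exact hx.logBasis.det_self.symm
  have h3 : ϖ = ∑ s : Finset (Fin (Module.finrank K Ω[K⁄k])),
      ϖ * hx.form (s.piecewise (fun j ↦ (u j)⁻¹ • D k K (u j))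
        fun j ↦ ((m j : K) * ϖ⁻¹) • D k K ϖ) := by
    rw [← Finset.mul_sum]
    have h4 := hx.form.toMultilinearMap.map_add_univ (fun j ↦ (u j)⁻¹ • D k K (u j))
      (fun j ↦ ((m j : K) * ϖ⁻¹) • D k K ϖ)
    simp only [AlternatingMap.coe_multilinearMap] at h4
    rw [← h4, ← h2, mul_one]
  rw [h3]
  refine AddSubgroup.sum_mem _ fun s _ ↦ ?_
  have h4 : (s.piecewise (fun j ↦ (u j)⁻¹ • D k K (u j)) fun j ↦ ((m j : K) * ϖ⁻¹) • D k K ϖ) =
      fun j ↦ (s.piecewise (fun j ↦ (u j)⁻¹) (fun j ↦ (m j : K) * ϖ⁻¹) j) •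
        D k K (s.piecewise u (fun _ ↦ ϖ) j) := by
    ext j
    by_cases hj : j ∈ s
    · simp [Finset.piecewise_eq_of_mem _ _ _ hj]
    · simp [Finset.piecewise_eq_of_notMem _ _ _ hj]
  rw [h4, AlternatingMap.map_smul_univ, smul_eq_mul, ← mul_assoc]
  by_cases hs : ∃ i j, i ∉ s ∧ j ∉ s ∧ i ≠ j
  · obtain ⟨i, j, hi, hj, hij⟩ := hs
    rw [hx.form.map_eq_zero_of_eq _ (i := i) (j := j) _ hij, mul_zero]
    · exact AddSubgroup.zero_mem _
    · simp [Finset.piecewise_eq_of_notMem _ _ _ hi, Finset.piecewise_eq_of_notMem _ _ _ hj]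
  · push Not at hs
    refine hx.mul_jac_mem _ ?_ _ ?_
    · by_cases hs' : ∃ i, i ∉ s
      · obtain ⟨i, hi⟩ := hs'
        rw [← Finset.mul_prod_erase Finset.univ _ (Finset.mem_univ i),
          Finset.piecewise_eq_of_notMem _ _ _ hi, ← mul_assoc]
        have h5 : ϖ * ((m i : K) * ϖ⁻¹) = m i := by field_simp
        rw [h5]
        refine R.mul_mem (intCast_mem R _) (R.prod_mem fun j hj ↦ ?_)
        have hj' : j ∈ s := by
          by_contra hj'
          exact Finset.ne_of_mem_erase hj (hs i j hi hj').symm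
        rw [Finset.piecewise_eq_of_mem _ _ _ hj']
        exact (hu j).2.2
      · push Not at hs'
        refine R.mul_mem hϖ.mem (R.prod_mem fun j _ ↦ ?_)
        rw [Finset.piecewise_eq_of_mem _ _ _ (hs' j)]
        exact (hu j).2.2
    · intro j
      by_cases hj : j ∈ s
      · rw [Finset.piecewise_eq_of_mem _ _ _ hj]; exact (hu j).2.1
      · rw [Finset.piecewise_eq_of_notMem _ _ _ hj]; exact hϖ.mem

include hx in
/-- The order of the logarithmic form is at least `-1`. -/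
theorem neg_one_le_of_hasFormOrd (hR : IsDVRIn R) {m : ℤ}
    (h : HasFormOrd R (logForm (k := k) x) m) : -1 ≤ m := by
  rw [← one_smul K (logForm (k := k) x), hx.hasFormOrd_iff] at h
  obtain ⟨-, ϖ, hϖ, h⟩ := h
  obtain ⟨r, hr, h1⟩ := (h ϖ).mp (hx.uniformizer_mem_jacModule hR hϖ)
  have hϖ0 := hϖ.ne_zero
  have h2 : r = 1 * ϖ ^ (m + 1) := by
    rw [mul_one, zpow_neg] at h1
    rw [one_mul, zpow_add₀ hϖ0, zpow_one]
    have := zpow_ne_zero m hϖ0
    field_simp at h1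
    rw [← h1]; ring
  rw [h2, unit_mul_zpow_mem_iff hϖ .one] at hr
  omega

variable {p : ℕ} [hp : Fact p.Prime] [CharP k p] [PerfectRing k p]

/-- T4: the toric splitting maps `R` to itself if the logarithmic form has order `0` or `-1` along
`R`. -/
theorem phi_mem (hR : IsDVRIn R) {e : ℕ} (he : e ≤ 1)
    (h : HasFormOrd R (logForm (k := k) x) (-e)) (f : K) (hf : f ∈ R) :
    (hx.phi p).toHom f ∈ R := by
  rw [← one_smul K (logForm (k := k) x), hx.hasFormOrd_iff] at h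
  obtain ⟨-, ϖ, hϖ, h⟩ := h
  simp only [neg_neg, mul_one, zpow_natCast] at h
  have hϖ0 := hϖ.ne_zero
  -- some tuple of elements of `R` generates
  obtain ⟨a, haR, s, hs, ha⟩ : ∃ a : Fin (Module.finrank K Ω[K⁄k]) → K, (∀ i, a i ∈ R) ∧
      ∃ s, IsUnitIn R s ∧ hx.jac a = s * ϖ ^ e := by
    by_contra hcon
    push Not at hcon
    have h1 : hx.jacModule R ≤ AddSubgroup.closure {f | ∃ s ∈ R, f = s * ϖ ^ (e + 1)} := by
      rw [jacModule, AddSubgroup.closure_le]
      rintro _ ⟨r, hr, a, ha, rfl⟩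
      obtain ⟨s, hs, h2⟩ := (h (hx.jac a)).mp (by simpa using hx.mul_jac_mem 1 R.one_mem a ha)
      by_cases hs0 : s = 0
      · rw [h2, hs0, zero_mul, mul_zero]; exact AddSubgroup.zero_mem _
      · obtain ⟨b, hb⟩ := hR s hs0
        have hb0 : b ≠ 0 := by
          intro h0
          exact hcon a ha s (hb.isUnitIn_iff.mpr h0) h2
        have hb1 : 1 ≤ b := by
          have := hb.mem_iff.mp hs
          omega
        obtain ⟨v, hv, hsv⟩ := hR.exists_unit hϖ hb
        refine AddSubgroup.subset_closure ⟨r * (v * ϖ ^ (b - 1)),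
          R.mul_mem hr ((unit_mul_zpow_mem_iff hϖ hv _).mpr (by omega)), ?_⟩
        rw [h2, hsv, zpow_sub_one₀ hϖ0, pow_succ]
        field_simp
    have h2 : ϖ ^ e ∈ AddSubgroup.closure {f | ∃ s ∈ R, f = s * ϖ ^ (e + 1)} :=
      h1 ((h _).mpr ⟨1, R.one_mem, by rw [one_mul]⟩)
    have h3 : ∀ f ∈ AddSubgroup.closure {f | ∃ s ∈ R, f = s * ϖ ^ (e + 1)},
        ∃ s ∈ R, f = s * ϖ ^ (e + 1) := by
      intro f hf
      induction hf using AddSubgroup.closure_induction with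
      | mem f hf => exact hf
      | zero => exact ⟨0, R.zero_mem, by rw [zero_mul]⟩
      | add f g _ _ hf hg =>
        obtain ⟨s, hs, rfl⟩ := hf
        obtain ⟨t, ht, rfl⟩ := hg
        exact ⟨s + t, R.add_mem hs ht, by ring⟩
      | neg f _ hf =>
        obtain ⟨s, hs, rfl⟩ := hf
        exact ⟨-s, R.neg_mem hs, by ring⟩
    obtain ⟨s, hs, h4⟩ := h3 _ h2
    apply hϖ.inv_notMem
    have h5 : s = ϖ⁻¹ := by
      rw [pow_succ, ← mul_assoc, mul_comm s, mul_assoc] at h4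
      have h6 : s * ϖ = 1 := mul_left_cancel₀ (pow_ne_zero e hϖ0) (by rw [← h4, mul_one])
      exact eq_inv_of_mul_eq_one_left h6
    rwa [← h5]
  have ha0 : hx.jac a ≠ 0 := by rw [ha]; exact mul_ne_zero hs.1 (pow_ne_zero _ hϖ0)
  have hpar : ∀ r ∈ R, ∀ i, hx.par a i r ∈ R := by
    intro r hr i
    have h1 : hx.jac (Function.update a i r) ∈ hx.jacModule R := by
      have := hx.mul_jac_mem 1 R.one_mem (Function.update a i r) (fun j ↦ by
        by_cases hj : j = i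
        · subst hj; simpa using hr
        · rw [Function.update_of_ne hj]; exact haR j)
      simpa using this
    obtain ⟨t, ht, h2⟩ := (h _).mp h1
    rw [par_apply, slot_apply, h2, ha]
    have h3 : (s * ϖ ^ e)⁻¹ * (t * ϖ ^ e) = s⁻¹ * t := by
      have := hs.1
      field_simp
    rw [h3]
    exact R.mul_mem hs.2.2 ht
  have key : ∀ r ∈ R, ∃ t ∈ R, (hx.phi p).toHom (r * ϖ ^ e) = t * ϖ ^ e := by
    intro r hr
    obtain ⟨t, ht, h1⟩ := hx.phi_mul_jac_mem (p := p) ha0 R (hR.root_mem hp.out.pos) hpar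
      (r * s⁻¹) (R.mul_mem hr hs.2.2)
    refine ⟨t * s, R.mul_mem ht hs.2.1, ?_⟩
    rw [ha] at h1
    have h2 : r * s⁻¹ * (s * ϖ ^ e) = r * ϖ ^ e := by
      have := hs.1
      field_simp
    rw [h2] at h1
    rw [h1]; ring
  rcases Nat.le_one_iff_eq_zero_or_eq_one.mp he with rfl | rfl
  · obtain ⟨t, ht, h1⟩ := key f hf
    rw [pow_zero, mul_one, mul_one] at h1
    rwa [h1]
  · obtain ⟨t, ht, h1⟩ := key (ϖ ^ (p - 1) * f) (R.mul_mem (R.pow_mem hϖ.mem _) hf)
    have h2 : ϖ ^ (p - 1) * f * ϖ ^ 1 = ϖ ^ p * f := by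
      rw [pow_eq_pow_sub_one_mul p ϖ, pow_one]; ring
    rw [h2, (hx.phi p).pow_mul', pow_one, mul_comm t] at h1
    rwa [mul_left_cancel₀ hϖ0 h1]

end IsCoord

end Pool.Agent.H14
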