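import Pool.Agent.H14.ClusterDefs

/-!
# MODULE H: algebraic Hartogs, discrete valuation rings at codimension one points
-/

set_option autoImplicit false

universe u

open CategoryTheory AlgebraicGeometry

namespace Pool.Agent.H14

open Cluster

/-- the ideal of denominators of `g` -/
def denIdeal (R : Type*) {K : Type*} [CommRing R] [Field K] [Algebra R K] (g : K) : Ideal R where
  carrier := {r | algebraMap R K r * g ∈ (algebraMap R K).range}
  add_mem' {a b} ha hb := by
    simp only [Set.mem_ofPred_eq, map_add, add_mul] at *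
    exact add_mem ha hb
  zero_mem' := ⟨0, by simp⟩
  smul_mem' c x hx := by
    simp only [Set.mem_ofPred_eq, smul_eq_mul, map_mul, mul_assoc] at *
    exact mul_mem ⟨c, rfl⟩ hx

theorem mem_denIdeal {R K : Type*} [CommRing R] [Field K] [Algebra R K] {g : K} {r : R} :
    r ∈ denIdeal R g ↔ algebraMap R K r * g ∈ (algebraMap R K).range := Iff.rfl

/-- H1. In a noetherian normal domain `R`, an element `g ∉ R` of the fraction field is not in
`R_P` for some prime `P` of height one. -/
theorem exists_height_one_of_not_mem {R K : Type*} [CommRing R] [IsDomain R] [IsNoetherianRing R]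
    [IsIntegrallyClosed R] [Field K] [Algebra R K] [IsFractionRing R K] (g : K)
    (hg : g ∉ (algebraMap R K).range) :
    ∃ P : Ideal R, P.IsPrime ∧ P.height = 1 ∧
      ∀ s : R, s ∉ P → algebraMap R K s * g ∉ (algebraMap R K).range := by
  -- choose a maximal denominator ideal
  let S : Set (Ideal R) := {J | ∃ s : R, algebraMap R K s * g ∉ (algebraMap R K).range ∧
    J = denIdeal R (algebraMap R K s * g)}
  have hSne : S.Nonempty := ⟨_, 1, by simpa using hg, rfl⟩
  obtain ⟨P, ⟨s₀, hs₀, hP⟩, hmax⟩ := set_has_maximal_iff_noetherian.mpr ‹_› S hSne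
  set g' : K := algebraMap R K s₀ * g with hg'
  have hPprime : Ideal.IsPrime P := by
    rw [Ideal.isPrime_iff]
    constructor
    · rw [Ideal.ne_top_iff_one, hP, mem_denIdeal]
      simpa using hs₀
    · intro a b hab
      by_contra! hcon
      obtain ⟨ha, hb⟩ := hcon
      have ha' : algebraMap R K (a * s₀) * g ∉ (algebraMap R K).range := by
        intro h
        apply ha
        rw [hP, mem_denIdeal, hg', ← mul_assoc, ← map_mul]
        exact h
      refine hmax (denIdeal R (algebraMap R K (a * s₀) * g)) ⟨a * s₀, ha', rfl⟩ ?_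
      constructor
      · intro r hr
        rw [hP] at hr
        show r ∈ denIdeal R (algebraMap R K (a * s₀) * g)
        rw [mem_denIdeal] at hr ⊢
        have : algebraMap R K r * (algebraMap R K (a * s₀) * g) =
          algebraMap R K a * (algebraMap R K r * g') := by
          rw [hg', map_mul]; ring
        rw [this]
        exact mul_mem ⟨a, rfl⟩ hr
      · intro h
        apply hb
        apply h
        show b ∈ denIdeal R (algebraMap R K (a * s₀) * g)
        rw [hP, mem_denIdeal] at hab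
        rw [mem_denIdeal]
        have : algebraMap R K b * (algebraMap R K (a * s₀) * g) =
          algebraMap R K (a * b) * g' := by
          rw [hg', map_mul, map_mul]; ring
        rw [this]
        exact hab
  have hinj : Function.Injective (algebraMap R K) := IsFractionRing.injective R K
  -- `P ≠ ⊥`
  have hPbot : P ≠ ⊥ := by
    obtain ⟨a, b, hb, hab⟩ := IsFractionRing.div_surjective (A := R) g'
    intro h
    have hbP : b ∈ P := by
      rw [hP, mem_denIdeal]
      refine ⟨a, ?_⟩
      rw [← hab]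
      have : algebraMap R K b ≠ 0 := by
        intro h0
        exact nonZeroDivisors.ne_zero hb (hinj (by rw [h0, map_zero]))
      field_simp
    rw [h, Ideal.mem_bot] at hbP
    exact nonZeroDivisors.ne_zero hb hbP
  -- some `p₀ ∈ P` with `p₀ g' ∉ P`
  have key : ∃ p₀ ∈ P, ∃ u : R, u ∉ P ∧ algebraMap R K u = algebraMap R K p₀ * g' := by
    by_contra! hcon
    apply hs₀
    -- `g'` is integral
    have hint : IsIntegral R g' := by
      -- the submodule `P` of `K`
      let N : Submodule R K := Submodule.map (Algebra.linearMap R K) P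
      have hNfg : N.FG := Submodule.FG.map _ (IsNoetherian.noetherian P)
      have hNne : N ≠ ⊥ := by
        intro h
        apply hPbot
        rw [eq_bot_iff]
        intro x hx
        have : algebraMap R K x ∈ N := ⟨x, hx, rfl⟩
        rw [h, Submodule.mem_bot] at this
        rw [Ideal.mem_bot]
        exact hinj (by rw [this, map_zero])
      refine isIntegral_of_smul_mem_submodule (M := K) N hNne hNfg g' ?_
      · rintro n ⟨p, hp, rfl⟩
        have hp' := hp
        rw [SetLike.mem_coe, hP, mem_denIdeal] at hp'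
        obtain ⟨v, hv⟩ := hp'
        have hvP : v ∈ P := by
          by_contra hvP
          exact hcon p hp v hvP hv
        refine ⟨v, hvP, ?_⟩
        rw [Algebra.linearMap_apply, hv, Algebra.linearMap_apply, smul_eq_mul, mul_comm]
    exact (IsIntegrallyClosed.isIntegral_iff.mp hint)
  obtain ⟨p₀, hp₀, u, hu, hup⟩ := key
  have hg'0 : g' ≠ 0 := by
    intro h
    apply hs₀
    rw [h]
    exact zero_mem _
  refine ⟨P, hPprime, le_antisymm ?_ ?_, ?_⟩
  · refine Ideal.height_le_one_of_isPrincipal_of_mem_minimalPrimes (Ideal.span {p₀}) P ?_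
    refine ⟨⟨hPprime, (Ideal.span_singleton_le_iff_mem _).mpr hp₀⟩, ?_⟩
    rintro Q ⟨hQ, hQ0⟩ hQP
    intro p hp
    have hp' := hp
    rw [hP, mem_denIdeal] at hp'
    obtain ⟨v, hv⟩ := hp'
    have : p * u = v * p₀ := by
      apply hinj
      rw [map_mul, map_mul, hup, hv]
      ring
    have hQ1 : p * u ∈ Q := by
      rw [this]
      exact Q.mul_mem_left _ ((Ideal.span_singleton_le_iff_mem _).mp hQ0)
    rcases hQ.mem_or_mem hQ1 with h | h
    · exact h
    · exact absurd (hQP h) hu
  · have := hPprime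
    rw [Order.one_le_iff_ne_zero]
    intro h0
    exact hPbot (Ideal.height_eq_zero_iff_eq_bot.mp h0)
  · intro s hs hcon
    apply hs
    rw [hP, mem_denIdeal]
    have : algebraMap R K s * g' = algebraMap R K s₀ * (algebraMap R K s * g) := by
      rw [hg']; ring
    rw [this]
    exact mul_mem ⟨s₀, rfl⟩ hcon

variable {k : Type u} [Field k] (V : IntegralScheme k)

/-- sections as rational functions -/
noncomputable def germK (U : V.X.Opens) [Nonempty U] : Γ(V.X, U) →+* V.K :=
  (V.X.germToFunctionField U).hom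

/-- elements of the stalk as rational functions -/
noncomputable def stalkK (x : V.X) : V.X.presheaf.stalk x →+* V.K :=
  algebraMap (V.X.presheaf.stalk x) V.X.functionField

theorem localRing_eq_range (x : V.Pt) : V.localRing x = (stalkK V x).range := rfl

theorem stalkK_germ (U : V.X.Opens) [Nonempty U] (x : V.X) (hx : x ∈ U) (b : Γ(V.X, U)) :
    stalkK V x (V.X.presheaf.germ U x hx b) = germK V U b :=
  Scheme.algebraMap_germ_eq_germToFunctionField V.X hx b

theorem mem_localRing_iff_of_isAffineOpen (U : V.X.Opens) (hU : IsAffineOpen U) (x : V.X) (hx : x ∈ U)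
    [Nonempty U] (g : V.K) :
    g ∈ V.localRing x ↔ ∃ a b : Γ(V.X, U), b ∉ (hU.primeIdealOf ⟨x, hx⟩).asIdeal ∧
      germK V U b * g = germK V U a := by
  have hloc := hU.isLocalization_stalk ⟨x, hx⟩
  let := V.X.presheaf.algebra_section_stalk ⟨x, hx⟩
  have hmap : ∀ b : Γ(V.X, U), germK V U b =
      stalkK V x (algebraMap Γ(V.X, U) (V.X.presheaf.stalk x) b) := by
    intro b
    exact (stalkK_germ V U x hx b).symm
  rw [localRing_eq_range]
  constructor
  · rintro ⟨s, rfl⟩
    obtain ⟨⟨a, b⟩, hab⟩ := IsLocalization.surj (hU.primeIdealOf ⟨x, hx⟩).asIdeal.primeCompl s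
    refine ⟨a, b, b.2, ?_⟩
    rw [hmap, hmap, ← map_mul, mul_comm, hab]
  · rintro ⟨a, b, hb, hab⟩
    obtain ⟨s, hs⟩ := (IsLocalization.map_units (V.X.presheaf.stalk x)
      (⟨b, hb⟩ : (hU.primeIdealOf ⟨x, hx⟩).asIdeal.primeCompl))
    refine ⟨s.inv * algebraMap Γ(V.X, U) (V.X.presheaf.stalk x) a, ?_⟩
    have h1 : algebraMap Γ(V.X, U) (V.X.presheaf.stalk x) b = s.val := hs.symm
    rw [map_mul, ← hmap, ← hab, hmap, h1, ← mul_assoc, ← map_mul, s.inv_val, map_one, one_mul]

theorem germK_injective (U : V.X.Opens) [Nonempty U] : Function.Injective (germK V U) :=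
  V.X.germToFunctionField_injective U

theorem exists_primeIdealOf_eq (U : V.X.Opens) (hU : IsAffineOpen U)
    (y : PrimeSpectrum Γ(V.X, U)) :
    ∃ (x : V.X) (hx : x ∈ U), hU.primeIdealOf ⟨x, hx⟩ = y := by
  let y' : Spec Γ(V.X, U) := y
  refine ⟨(hU.isoSpec.inv y').1, (hU.isoSpec.inv y').2, ?_⟩
  show hU.isoSpec.hom (hU.isoSpec.inv y') = y'
  rw [← Scheme.Hom.comp_apply, Iso.inv_hom_id]
  rfl

theorem mem_range_germK (U : V.X.Opens) [Nonempty U] (hU : IsAffineOpen U) (g : V.K)
    (hg : ∀ x : V.Pt, x ∈ (U : Set V.X) → g ∈ V.localRing x) :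
    ∃ f : Γ(V.X, U), germK V U f = g := by
  by_contra hcon
  let J : Ideal Γ(V.X, U) :=
    { carrier := {r | germK V U r * g ∈ (germK V U).range}
      add_mem' := by
        intro a b ha hb
        simp only [Set.mem_ofPred_eq, map_add, add_mul] at *
        exact add_mem ha hb
      zero_mem' := ⟨0, by simp⟩
      smul_mem' := by
        intro c x hx
        simp only [Set.mem_ofPred_eq, smul_eq_mul, map_mul, mul_assoc] at *
        exact mul_mem ⟨c, rfl⟩ hx }
  have hJ : J ≠ ⊤ := by
    rw [Ideal.ne_top_iff_one]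
    rintro ⟨f, hf⟩
    exact hcon ⟨f, by rw [hf, map_one, one_mul]⟩
  obtain ⟨m, hm, hJm⟩ := Ideal.exists_le_maximal J hJ
  have hmp : m.IsPrime := hm.isPrime
  obtain ⟨x, hx, hxm⟩ := exists_primeIdealOf_eq V U hU ⟨m, hmp⟩
  obtain ⟨a, b, hb, hab⟩ := (mem_localRing_iff_of_isAffineOpen V U hU x hx g).mp (hg x hx)
  rw [hxm] at hb
  exact hb (hJm ⟨a, hab.symm⟩)

/-- H2. Hartogs for local rings of a normal locally noetherian integral scheme. -/
theorem mem_localRing_of_codimOne [IsLocallyNoetherian V.X]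
    (hV : ∀ x : V.X, IsIntegrallyClosed (V.X.presheaf.stalk x)) (x : V.Pt) (g : V.K)
    (hg : ∀ z : V.Pt, V.CodimOne z → z ⤳ x → g ∈ V.localRing z) : g ∈ V.localRing x := by
  by_contra hcon
  have hnx := hV x
  obtain ⟨P, hP, hP1, hPg⟩ := exists_height_one_of_not_mem (R := V.X.presheaf.stalk x)
    (K := V.X.functionField) g hcon
  obtain ⟨_, ⟨U, hU, rfl⟩, hxU, -⟩ :=
    V.X.isBasis_affineOpens.exists_subset_of_mem_open (Set.mem_univ x) isOpen_univ
  have hne : Nonempty U := ⟨⟨x, hxU⟩⟩
  let := V.X.presheaf.algebra_section_stalk ⟨x, hxU⟩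
  have hloc := hU.isLocalization_stalk ⟨x, hxU⟩
  obtain ⟨z, hzU, hz⟩ := exists_primeIdealOf_eq V U hU
    ⟨P.under Γ(V.X, U), inferInstance⟩
  have hcodim : V.CodimOne z := by
    have h1 := ringKrullDim_stalk_eq_coheight (X := V.X) z
    have h2 : ringKrullDim (V.X.presheaf.stalk z) = 1 := by
      let := V.X.presheaf.algebra_section_stalk ⟨z, hzU⟩
      have hlocz := hU.isLocalization_stalk ⟨z, hzU⟩
      have h3 := IsLocalization.AtPrime.ringKrullDim_eq_height
        (hU.primeIdealOf ⟨z, hzU⟩).asIdeal (V.X.presheaf.stalk z)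
      rw [h3, hz]
      have h4 := IsLocalization.height_under (hU.primeIdealOf ⟨x, hxU⟩).asIdeal.primeCompl P
      change ((P.under Γ(V.X, U)).height : WithBot ℕ∞) = 1
      rw [h4, hP1]
      rfl
    rw [h2] at h1
    exact_mod_cast h1.symm
  have hspec : z ⤳ x := by
    have h1 : hU.primeIdealOf ⟨z, hzU⟩ ⤳ hU.primeIdealOf ⟨x, hxU⟩ := by
      rw [hz]
      refine (PrimeSpectrum.le_iff_specializes _ _).mp ?_
      intro b hb
      by_contra hbx
      have h5 := IsLocalization.map_units (V.X.presheaf.stalk x)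
        (⟨b, hbx⟩ : (hU.primeIdealOf ⟨x, hxU⟩).asIdeal.primeCompl)
      exact hP.ne_top (Ideal.eq_top_of_isUnit_mem _ hb h5)
    have h2 := h1.map hU.fromSpec.continuous
    rwa [hU.fromSpec_primeIdealOf, hU.fromSpec_primeIdealOf] at h2
  obtain ⟨a, b, hb, hab⟩ := (mem_localRing_iff_of_isAffineOpen V U hU z hzU g).mp (hg z hcodim hspec)
  rw [hz] at hb
  refine hPg (algebraMap Γ(V.X, U) (V.X.presheaf.stalk x) b) hb
    ⟨algebraMap Γ(V.X, U) (V.X.presheaf.stalk x) a, ?_⟩
  have h6 : ∀ b : Γ(V.X, U), germK V U b =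
      stalkK V x (algebraMap Γ(V.X, U) (V.X.presheaf.stalk x) b) := by
    intro b
    exact (stalkK_germ V U x hxU b).symm
  rw [h6, h6] at hab
  exact hab.symm

theorem isDiscreteValuationRing_stalk [IsLocallyNoetherian V.X]
    (hV : ∀ x : V.X, IsIntegrallyClosed (V.X.presheaf.stalk x)) (z : V.Pt) (hz : V.CodimOne z) :
    IsDiscreteValuationRing (V.X.presheaf.stalk z) := by
  have hnz := hV z
  have hdim : ringKrullDim (V.X.presheaf.stalk z) = 1 := by
    rw [ringKrullDim_stalk_eq_coheight (X := V.X) z]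
    exact_mod_cast hz
  have hnf : ¬ IsField (V.X.presheaf.stalk z) := by
    intro h
    rw [ringKrullDim_eq_zero_of_isField h] at hdim
    exact zero_ne_one hdim
  have hkd : Ring.KrullDimLE 1 (V.X.presheaf.stalk z) := by
    rw [Ring.krullDimLE_iff, hdim]
    rfl
  have h1 := (IsDiscreteValuationRing.TFAE (V.X.presheaf.stalk z) hnf).out 0 3
  rw [h1]
  refine ⟨hnz, IsLocalRing.maximalIdeal _, ⟨?_, inferInstance⟩, ?_⟩
  · exact IsLocalRing.isField_iff_maximalIdeal_eq.not.mp hnf
  · rintro P ⟨hP, hP'⟩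
    have := hP'.isMaximal_of_ne_bot hP
    exact IsLocalRing.eq_maximalIdeal this

/-- H3. At a codimension one point of a normal locally noetherian integral scheme, every nonzero
rational function has an order. -/
theorem exists_hasOrd [IsLocallyNoetherian V.X]
    (hV : ∀ x : V.X, IsIntegrallyClosed (V.X.presheaf.stalk x)) (z : V.Pt) (hz : V.CodimOne z)
    (g : V.K) (hg : g ≠ 0) : ∃ a : ℤ, HasOrd (V.localRing z) g a := by
  have hdvr := isDiscreteValuationRing_stalk V hV z hz
  obtain ⟨ϖ, hϖ⟩ := IsDiscreteValuationRing.exists_irreducible (V.X.presheaf.stalk z)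
  let e : V.X.presheaf.stalk z ≃+* V.localRing z :=
    RingEquiv.ofBijective (stalkK V z).rangeRestrict
      ⟨fun a b hab ↦ IsFractionRing.injective (V.X.presheaf.stalk z) V.X.functionField
        (congrArg Subtype.val hab), RingHom.rangeRestrict_surjective _⟩
  have hϖ' : IsUniformizer (V.localRing z) (stalkK V z ϖ) :=
    ⟨⟨ϖ, rfl⟩, (MulEquiv.irreducible_iff e.toMulEquiv).mpr hϖ⟩
  obtain ⟨n, u, hu⟩ := IsDiscreteValuationRing.exists_units_eq_smul_zpow_of_irreducible
    (K := V.X.functionField) hϖ (x := g) hg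
  refine ⟨n, stalkK V z ϖ, stalkK V z u, hϖ', ?_, ⟨u, rfl⟩, ⟨(u⁻¹ : (V.X.presheaf.stalk z)ˣ), ?_⟩, ?_⟩
  · exact ((u.isUnit).map (stalkK V z)).ne_zero
  · change stalkK V z _ = _
    refine eq_inv_of_mul_eq_one_left ?_
    rw [← map_mul, Units.inv_mul, map_one]
  · rw [hu, Units.smul_def, Algebra.smul_def]
    rfl

/-- H4. Sections over an affine open subset, as rational functions. -/
theorem mem_range_germToFunctionField (U : V.X.Opens) [Nonempty U] (hU : IsAffineOpen U) (g : V.K)
    (hg : ∀ x : V.Pt, x ∈ (U : Set V.X) → g ∈ V.localRing x) :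
    ∃ f : Γ(V.X, U), (V.X.germToFunctionField U).hom f = g :=
  mem_range_germK V U hU g hg

end Pool.Agent.H14
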