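import Pool.Agent.H14.ProjStalk

set_option autoImplicit false

universe u

open CategoryTheory AlgebraicGeometry

namespace Pool.Agent.H14

open Cluster

attribute [local instance] MvPolynomial.gradedAlgebra

section

variable {k : Type u} [Field k] {n : ℕ}

/-- The function field of projective space in the fraction field of the polynomial ring. -/
noncomputable def ev : (projSpace k n).K →+* FractionRing (MvPolynomial (Fin (n + 1)) k) :=
  evF (MvPolynomial.homogeneousSubmodule (Fin (n + 1)) k)
    (FractionRing (MvPolynomial (Fin (n + 1)) k)) (genericPoint (projSpace k n).X)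

lemma ev_injective : Function.Injective (ev (k := k) (n := n)) := ev.injective

/-- The ideal of a point. -/
noncomputable def idealOf (z : (projSpace k n).Pt) : Ideal (MvPolynomial (Fin (n + 1)) k) :=
  (show ProjectiveSpectrum (MvPolynomial.homogeneousSubmodule (Fin (n + 1)) k)
    from z).asHomogeneousIdeal.toIdeal

instance (z : (projSpace k n).Pt) : (idealOf z).IsPrime :=
  (show ProjectiveSpectrum (MvPolynomial.homogeneousSubmodule (Fin (n + 1)) k)
    from z).isPrime

lemma mem_localRing_iff (z : (projSpace k n).Pt) (g : (projSpace k n).K) :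
    g ∈ (projSpace k n).localRing z ↔ ∃ (d : ℕ) (a b : MvPolynomial (Fin (n + 1)) k),
      a.IsHomogeneous d ∧ b.IsHomogeneous d ∧ b ∉ idealOf z ∧
        ev g = algebraMap _ (FractionRing (MvPolynomial (Fin (n + 1)) k)) a / algebraMap _ _ b := by
  constructor
  · rintro ⟨t, rfl⟩
    obtain ⟨d, a, b, hb, h⟩ := exists_num_den (MvPolynomial.homogeneousSubmodule (Fin (n + 1)) k)
      (FractionRing (MvPolynomial (Fin (n + 1)) k)) z t
    exact ⟨d, a, b, a.2, b.2, hb, h _ _⟩
  · rintro ⟨d, a, b, ha, hb, hbz, h⟩
    obtain ⟨t, ht⟩ := exists_of_num_den (MvPolynomial.homogeneousSubmodule (Fin (n + 1)) k)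
      (FractionRing (MvPolynomial (Fin (n + 1)) k)) z d ⟨a, ha⟩ ⟨b, hb⟩ hbz
    refine ⟨t, ev_injective ?_⟩
    rw [h]
    exact ht _ _


set_option backward.isDefEq.respectTransparency false in
lemma preimage_str : Spec.preimage ((projSpace k n).X.fromSpecStalk (genericPoint (projSpace k n).X) ≫
        (projSpace k n).str) = CommRingCat.ofHom
          (algebraMap k (MvPolynomial.homogeneousSubmodule (Fin (n + 1)) k 0)) ≫ Spec.preimage
      ((projSpace k n).X.fromSpecStalk (genericPoint (projSpace k n).X) ≫
      Proj.toSpecZero (MvPolynomial.homogeneousSubmodule (Fin (n + 1)) k)) := by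
  apply Spec.map_injective
  rw [Spec.map_preimage, Spec.map_comp, Spec.map_preimage]
  rfl

lemma algebraMap_eq (c : k) : algebraMap k (projSpace k n).K c = (Spec.preimage
      ((projSpace k n).X.fromSpecStalk (genericPoint (projSpace k n).X) ≫
      Proj.toSpecZero (MvPolynomial.homogeneousSubmodule (Fin (n + 1)) k))).hom
      (algebraMap k (MvPolynomial.homogeneousSubmodule (Fin (n + 1)) k 0) c) := by
  have h3 : algebraMap k (projSpace k n).K c = (Spec.preimage ((projSpace k n).X.fromSpecStalk (genericPoint (projSpace k n).X) ≫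
        (projSpace k n).str)).hom c := rfl
  rw [h3, preimage_str]
  rfl


lemma ev_algebraMap_aux (a : MvPolynomial.homogeneousSubmodule (Fin (n + 1)) k 0) : ev ((Spec.preimage
      ((projSpace k n).X.fromSpecStalk (genericPoint (projSpace k n).X) ≫
      Proj.toSpecZero (MvPolynomial.homogeneousSubmodule (Fin (n + 1)) k))).hom a) =
    algebraMap (MvPolynomial (Fin (n + 1)) k) (FractionRing (MvPolynomial (Fin (n + 1)) k)) a :=
  evF_preimage (MvPolynomial.homogeneousSubmodule (Fin (n + 1)) k)
    (FractionRing (MvPolynomial (Fin (n + 1)) k)) (genericPoint (projSpace k n).X) a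


lemma coe_algebraMap_zero (c : k) :
    ((algebraMap k (MvPolynomial.homogeneousSubmodule (Fin (n + 1)) k 0) c :
      MvPolynomial.homogeneousSubmodule (Fin (n + 1)) k 0) : MvPolynomial (Fin (n + 1)) k) =
      MvPolynomial.C c := by
  rw [Algebra.algebraMap_eq_smul_one, MvPolynomial.C_eq_smul_one]
  rfl

lemma ev_algebraMap (c : k) : ev (algebraMap k (projSpace k n).K c) =
    algebraMap (MvPolynomial (Fin (n + 1)) k) (FractionRing (MvPolynomial (Fin (n + 1)) k))
      (MvPolynomial.C c) := by
  rw [algebraMap_eq, ev_algebraMap_aux, coe_algebraMap_zero]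

end

end Pool.Agent.H14
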