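import Pool.Agent.H14.ClusterDefs
import Pool.Agent.H14.Coord

/-!
# Stalks of `Proj` inside the fraction field
-/

set_option autoImplicit false

universe u

open CategoryTheory AlgebraicGeometry

namespace Pool.Agent.H14

section General

variable {σ : Type*} {A : Type u} [CommRing A] [IsDomain A] [SetLike σ A] [AddSubgroupClass σ A]
  (𝒜 : ℕ → σ) [GradedRing 𝒜] (F : Type u) [Field F] [Algebra A F] [IsFractionRing A F]

/-- Evaluate an element of the homogeneous localization in the fraction field. -/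
noncomputable def valF (z : ProjectiveSpectrum 𝒜) :
    HomogeneousLocalization.AtPrime 𝒜 z.asHomogeneousIdeal.toIdeal →+* F :=
  (IsLocalization.lift (M := z.asHomogeneousIdeal.toIdeal.primeCompl)
    (S := Localization.AtPrime z.asHomogeneousIdeal.toIdeal) (g := algebraMap A F) (by
      rintro ⟨y, hy⟩
      refine isUnit_iff_ne_zero.mpr fun h ↦ hy ?_
      have h' : y = 0 := (map_eq_zero_iff _ (IsFractionRing.injective A F)).mp h
      rw [h']
      exact Ideal.zero_mem _)).comp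
    (algebraMap (HomogeneousLocalization.AtPrime 𝒜 z.asHomogeneousIdeal.toIdeal)
      (Localization.AtPrime z.asHomogeneousIdeal.toIdeal))

lemma valF_mk (z : ProjectiveSpectrum 𝒜)
    (f : HomogeneousLocalization.NumDenSameDeg 𝒜 z.asHomogeneousIdeal.toIdeal.primeCompl) :
    valF 𝒜 F z (HomogeneousLocalization.mk f) = algebraMap A F f.num / algebraMap A F f.den := by
  rw [valF, RingHom.comp_apply, HomogeneousLocalization.algebraMap_apply,
    HomogeneousLocalization.val_mk, Localization.mk_eq_mk', IsLocalization.lift_mk'_spec,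
    mul_div_cancel₀]
  intro h
  apply f.den_mem
  rw [(map_eq_zero_iff _ (IsFractionRing.injective A F)).mp h]
  exact Ideal.zero_mem _

/-- Evaluate an element of the stalk in the fraction field. -/
noncomputable def evF (z : Proj 𝒜) : (Proj 𝒜).presheaf.stalk z →+* F :=
  (valF 𝒜 F z).comp (Proj.stalkIso 𝒜 z).hom.hom

lemma exists_germ_of_stalk (z : Proj 𝒜) (t : (Proj 𝒜).presheaf.stalk z) :
    ∃ f : HomogeneousLocalization.NumDenSameDeg 𝒜 z.asHomogeneousIdeal.toIdeal.primeCompl,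
      t = (ProjectiveSpectrum.Proj.structureSheaf 𝒜).presheaf.germ _
      z (mem_basicOpen_den _ z f) (sectionInBasicOpen _ z f) := by
  obtain ⟨f, hf⟩ := Quotient.mk''_surjective (Proj.stalkIso' 𝒜 z t)
  exact ⟨f, ((Proj.stalkIso' 𝒜 z).eq_symm_apply.mpr hf.symm)⟩

set_option backward.isDefEq.respectTransparency false in
/-- The value at `w` of the section `f.num / f.den`. -/
lemma evF_germ (z w : Proj 𝒜)
    (f : HomogeneousLocalization.NumDenSameDeg 𝒜 z.asHomogeneousIdeal.toIdeal.primeCompl)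
    (hw : w ∈ ProjectiveSpectrum.basicOpen 𝒜 f.den) :
    evF 𝒜 F w ((ProjectiveSpectrum.Proj.structureSheaf 𝒜).presheaf.germ _
      w hw (sectionInBasicOpen _ z f)) = algebraMap A F f.num / algebraMap A F f.den := by
  have h1 : (Proj.stalkIso 𝒜 w).hom.hom ((ProjectiveSpectrum.Proj.structureSheaf 𝒜).presheaf.germ _
      w hw (sectionInBasicOpen _ z f)) =
    HomogeneousLocalization.mk ⟨f.deg, f.num, f.den, hw⟩ :=
    Proj.stalkIso'_germ 𝒜 _ w hw (sectionInBasicOpen _ z f)
  rw [evF, RingHom.comp_apply, h1, valF_mk]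

set_option backward.isDefEq.respectTransparency false in
/-- Elements of the stalk at `z` are the fractions `a / b` with `a`, `b` homogeneous of the same
degree and `b` not in the ideal of `z`. -/
lemma exists_num_den (z : Proj 𝒜) (t : (Proj 𝒜).presheaf.stalk z) :
    ∃ (d : ℕ) (a b : 𝒜 d), (b : A) ∉ z.asHomogeneousIdeal ∧
      ∀ (w : Proj 𝒜) (h : w ⤳ z), evF 𝒜 F w ((Proj 𝒜).presheaf.stalkSpecializes h t) =
        algebraMap A F a / algebraMap A F b := by
  obtain ⟨f, rfl⟩ := exists_germ_of_stalk 𝒜 z t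
  refine ⟨f.deg, f.num, f.den, f.den_mem, fun w h ↦ ?_⟩
  have h1 := TopCat.Presheaf.germ_stalkSpecializes_apply (Proj 𝒜).presheaf
    (mem_basicOpen_den _ z f) h (sectionInBasicOpen _ z f)
  exact (congr_arg (evF 𝒜 F w) h1).trans (evF_germ 𝒜 F z w f _)

/-- Conversely, each such fraction defines an element of the stalk. -/
lemma exists_of_num_den (z : Proj 𝒜) (d : ℕ) (a b : 𝒜 d) (hb : (b : A) ∉ z.asHomogeneousIdeal) :
    ∃ t : (Proj 𝒜).presheaf.stalk z, ∀ (w : Proj 𝒜) (h : w ⤳ z),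
      evF 𝒜 F w ((Proj 𝒜).presheaf.stalkSpecializes h t) =
        algebraMap A F a / algebraMap A F b := by
  let f : HomogeneousLocalization.NumDenSameDeg 𝒜 z.asHomogeneousIdeal.toIdeal.primeCompl :=
    ⟨d, a, b, hb⟩
  refine ⟨(ProjectiveSpectrum.Proj.structureSheaf 𝒜).presheaf.germ _
      z (mem_basicOpen_den _ z f) (sectionInBasicOpen _ z f), fun w h ↦ ?_⟩
  have h1 := TopCat.Presheaf.germ_stalkSpecializes_apply (Proj 𝒜).presheaf
    (mem_basicOpen_den _ z f) h (sectionInBasicOpen _ z f)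
  exact (congr_arg (evF 𝒜 F w) h1).trans (evF_germ 𝒜 F z w f _)

end General

section General

variable {σ : Type*} {A : Type u} [CommRing A] [SetLike σ A] [AddSubgroupClass σ A]
  (𝒜 : ℕ → σ) [GradedRing 𝒜]

lemma fromSpecStalk_toSpecZero (z : Proj 𝒜) :
    (Proj 𝒜).fromSpecStalk z ≫ Proj.toSpecZero 𝒜 =
      Spec.map (CommRingCat.ofHom (HomogeneousLocalization.fromZeroRingHom 𝒜 _) ≫
        Proj.awayToSection 𝒜 1 ≫ (Proj 𝒜).presheaf.germ (Proj.basicOpen 𝒜 1) z
          (by rw [Proj.basicOpen_one]; trivial)) := by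
  have hz : z ∈ Proj.basicOpen 𝒜 1 := by rw [Proj.basicOpen_one]; trivial
  have h1 : (Proj 𝒜).fromSpecStalk z ≫ (Scheme.topIso _).inv ≫
      (Scheme.isoOfEq _ (Proj.basicOpen_one 𝒜)).inv =
      (Proj.basicOpen 𝒜 1).fromSpecStalkOfMem z hz := by
    rw [← cancel_mono (Proj.basicOpen 𝒜 1).ι]
    simp
  rw [Proj.toSpecZero, Proj.basicOpenToSpec]
  have h2 := congr_arg (· ≫ (Proj.basicOpen 𝒜 1).toSpecΓ ≫ Spec.map (Proj.awayToSection 𝒜 1) ≫
    Spec.map (CommRingCat.ofHom (HomogeneousLocalization.fromZeroRingHom 𝒜 _))) h1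
  simp only [Category.assoc] at h2 ⊢
  rw [h2, Scheme.Opens.fromSpecStalkOfMem_toSpecΓ_assoc, Spec.map_comp, Spec.map_comp,
    Category.assoc]

end General

section General2

variable {σ : Type*} {A : Type u} [CommRing A] [IsDomain A] [SetLike σ A] [AddSubgroupClass σ A]
  (𝒜 : ℕ → σ) [GradedRing 𝒜] (F : Type u) [Field F] [Algebra A F] [IsFractionRing A F]

set_option backward.isDefEq.respectTransparency false in
lemma evF_preimage (z : Proj 𝒜) (a : 𝒜 0) :
    evF 𝒜 F z ((Spec.preimage ((Proj 𝒜).fromSpecStalk z ≫ Proj.toSpecZero 𝒜)).hom a) =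
      algebraMap A F a := by
  rw [fromSpecStalk_toSpecZero, Spec.preimage_map]
  have hz : z ∈ Proj.basicOpen 𝒜 1 := by rw [Proj.basicOpen_one]; trivial
  have h1 := ProjectiveSpectrum.Proj.awayToSection_germ 𝒜 1 z hz
  have h2 : (CommRingCat.ofHom (HomogeneousLocalization.fromZeroRingHom 𝒜 (Submonoid.powers (1 : A))) ≫
      Proj.awayToSection 𝒜 1 ≫ (Proj 𝒜).presheaf.germ (Proj.basicOpen 𝒜 1) z hz) =
      CommRingCat.ofHom (HomogeneousLocalization.fromZeroRingHom 𝒜 (Submonoid.powers (1 : A))) ≫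
       CommRingCat.ofHom (HomogeneousLocalization.mapId 𝒜 (Submonoid.powers_le.mpr hz)) ≫
        (Proj.stalkIso' 𝒜 z).toCommRingCatIso.inv :=
    congr_arg (CommRingCat.ofHom
      (HomogeneousLocalization.fromZeroRingHom 𝒜 (Submonoid.powers (1 : A))) ≫ ·) h1
  rw [h2]
  have h3 : evF 𝒜 F z ((Proj.stalkIso' 𝒜 z).symm
      (HomogeneousLocalization.mapId 𝒜 (Submonoid.powers_le.mpr hz)
        (HomogeneousLocalization.fromZeroRingHom 𝒜 (Submonoid.powers (1 : A)) a))) =
      valF 𝒜 F z (HomogeneousLocalization.mapId 𝒜 (Submonoid.powers_le.mpr hz)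
        (HomogeneousLocalization.fromZeroRingHom 𝒜 (Submonoid.powers (1 : A)) a)) :=
    congr_arg (valF 𝒜 F z) ((Proj.stalkIso' 𝒜 z).apply_symm_apply _)
  refine h3.trans ?_
  rw [HomogeneousLocalization.fromZeroRingHom]
  change valF 𝒜 F z (HomogeneousLocalization.mk _) = _
  rw [valF_mk]
  simp

end General2

end Pool.Agent.H14
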