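import Pool.Agent.H14.ChartForms

/-!
# Transport of orders and coordinates; arithmetic of orders of forms
-/

set_option autoImplicit false

universe u

namespace Pool.Agent.H14

open Cluster Module KaehlerDifferential

section Transport

variable {K L : Type u} [Field K] [Field L] (f : K →+* L) {R : Subring K}

lemma isUniformizer_map {ϖ : K} (h : IsUniformizer R ϖ) : IsUniformizer (R.map f) (f ϖ) := by
  obtain ⟨h1, h2⟩ := h
  refine ⟨⟨ϖ, h1, rfl⟩, ?_⟩
  let e := R.equivMapOfInjective f f.injective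
  have h3 : (⟨f ϖ, ⟨ϖ, h1, rfl⟩⟩ : R.map f) = e ⟨ϖ, h1⟩ := Subtype.ext rfl
  rw [h3]
  exact (MulEquiv.irreducible_iff e).mpr h2

lemma isUnitIn_map {u : K} (h : IsUnitIn R u) : IsUnitIn (R.map f) (f u) :=
  ⟨(map_ne_zero f).mpr h.1, ⟨u, h.2.1, rfl⟩, ⟨u⁻¹, h.2.2, map_inv₀ f u⟩⟩

lemma hasOrd_map {g : K} {a : ℤ} (h : HasOrd R g a) : HasOrd (R.map f) (f g) a := by
  rw [hasOrd_iff] at h ⊢
  obtain ⟨ϖ, u, h1, h2, rfl⟩ := h
  exact ⟨f ϖ, f u, isUniformizer_map f h1, isUnitIn_map f h2, by rw [map_mul, map_zpow₀]⟩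

lemma isDVRIn_map (hf : Function.Surjective f) (hR : IsDVRIn R) : IsDVRIn (R.map f) := by
  intro g hg
  obtain ⟨g, rfl⟩ := hf g
  obtain ⟨a, ha⟩ := hR g ((map_ne_zero f).mp hg)
  exact ⟨a, hasOrd_map f ha⟩

lemma mem_map_iff' {g : K} : f g ∈ R.map f ↔ g ∈ R := by
  constructor
  · rintro ⟨g', h, h'⟩
    rwa [← f.injective h']
  · exact fun h ↦ ⟨g, h, rfl⟩

variable {k : Type u} [Field k] [Algebra k K] [Algebra k L]
  (hf : ∀ c, f (algebraMap k K c) = algebraMap k L c)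

include hf in
lemma map_aeval' {n : ℕ} (x : Fin n → K) (a : MvPolynomial (Fin n) k) :
    f (MvPolynomial.aeval x a) = MvPolynomial.aeval (fun i ↦ f (x i)) a := by
  induction a using MvPolynomial.induction_on with
  | C c => rw [← MvPolynomial.algebraMap_eq, AlgHom.commutes, AlgHom.commutes, hf]
  | add a b ha hb => rw [map_add, map_add, map_add, ha, hb]
  | mul_X a i ha => rw [map_mul, map_mul, map_mul, ha, MvPolynomial.aeval_X, MvPolynomial.aeval_X]

include hf in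
lemma isCoord_map (hs : Function.Surjective f) {n : ℕ} {x : Fin n → K} (hx : IsCoord k x) :
    IsCoord k (fun i ↦ f (x i)) where
  inj := by
    intro a b hab
    rw [← map_aeval' f hf, ← map_aeval' f hf] at hab
    exact hx.inj (f.injective hab)
  surj := by
    intro g
    obtain ⟨g, rfl⟩ := hs g
    obtain ⟨a, b, hb, rfl⟩ := hx.surj g
    exact ⟨a, b, hb, by rw [map_div₀, map_aeval' f hf, map_aeval' f hf]⟩

include hf in
lemma isLocIn_map {n : ℕ} {y : Fin n → K} (h : IsCoord.IsLocIn k y R) :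
    IsCoord.IsLocIn k (fun i ↦ f (y i)) (R.map f) where
  base c := ⟨_, h.base c, hf c⟩
  coord l := ⟨_, h.coord l, rfl⟩
  frac := by
    rintro _ ⟨g, hg, rfl⟩
    obtain ⟨a, b, hb, hb', rfl⟩ := h.frac g hg
    refine ⟨a, b, hb, ⟨_, hb', ?_⟩, ?_⟩
    · rw [map_inv₀, map_aeval' f hf]
    · rw [map_div₀, map_aeval' f hf, map_aeval' f hf]

end Transport

section FormOrd

variable {k K : Type u} [Field k] [Field K] [Algebra k K] {R : Subring K}

lemma hasFormOrd_of_smul (hR : IsDVRIn R) {ω : TopForms k K} {f : K} {m a : ℤ}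
    (h : HasFormOrd R (f • ω) m) (ha : HasOrd R f a) : HasFormOrd R ω (m - a) := by
  obtain ⟨h0, ϖ, hϖ, h⟩ := h
  refine ⟨fun h1 ↦ h0 (by rw [h1, smul_zero]), ϖ, hϖ, fun ω' ↦ ?_⟩
  obtain ⟨u, hu, hf⟩ := hR.exists_unit hϖ ha
  rw [h]
  have key : ∀ r : K, r * ϖ ^ (-m) * f = (r * u) * ϖ ^ (-(m - a)) := by
    intro r
    have h1 : -(m - a) = -m + a := by ring
    rw [hf, h1, zpow_add₀ hϖ.ne_zero]
    ring
  constructor
  · rintro ⟨r, hr, rfl⟩
    exact ⟨r * u, R.mul_mem hr hu.2.1, by rw [smul_smul, key]⟩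
  · rintro ⟨r, hr, rfl⟩
    refine ⟨r * u⁻¹, R.mul_mem hr hu.2.2, ?_⟩
    rw [smul_smul, key, inv_mul_cancel_right₀ hu.1]

lemma hasFormOrd_unique (hR : IsDVRIn R) {ω : TopForms k K} {m m' : ℤ}
    (h : HasFormOrd R ω m) (h' : HasFormOrd R ω m') : m = m' := by
  have key : ∀ {m m' : ℤ}, HasFormOrd R ω m → HasFormOrd R ω m' → m ≤ m' := by
    intro m m' h h'
    obtain ⟨h0, ϖ, hϖ, h⟩ := h
    obtain ⟨-, ϖ', hϖ', h'⟩ := h'
    obtain ⟨r, hr, h1⟩ := (h' _).mp ((h (ϖ ^ (-m) • ω)).mpr ⟨1, R.one_mem, by rw [one_mul]⟩)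
    have h2 : ϖ ^ (-m) = r * ϖ' ^ (-m') := by
      by_contra hne
      have h3 : (ϖ ^ (-m) - r * ϖ' ^ (-m')) • ω = 0 := by rw [sub_smul, h1, sub_self]
      exact h0 ((smul_eq_zero_iff_right (sub_ne_zero.mpr hne)).mp h3)
    have hr0 : r ≠ 0 := by
      rintro rfl
      rw [zero_mul] at h2
      exact zpow_ne_zero _ hϖ.ne_zero h2
    obtain ⟨a, ha⟩ := hR r hr0
    have h3 := hR.hasOrd_mul ha (hR.hasOrd_uniformizer hϖ' (-m'))
    rw [← h2] at h3
    have h4 := hR.hasOrd_unique h3 (hR.hasOrd_uniformizer hϖ (-m))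
    have h5 := ha.mem_iff.mp hr
    omega
  exact le_antisymm (key h h') (key h' h)

end FormOrd

end Pool.Agent.H14
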